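import Pool.Agent.W334.BSD.Ker

/-!
# A bound for functions from their Laplace transform
-/

set_option autoImplicit false
open MeasureTheory Set Filter Topology
open scoped FourierTransform

namespace Pool.Agent.W334.BSD

noncomputable section

lemma cauchy_int {a : ℝ} (ha : 0 < a) :
    Integrable (fun y : ℝ => (a ^ 2 + y ^ 2)⁻¹) ∧ ∫ y : ℝ, (a ^ 2 + y ^ 2)⁻¹ = Real.pi / a := by
  have e : (fun y : ℝ => (a ^ 2 + y ^ 2)⁻¹) = fun y : ℝ => (a ^ 2)⁻¹ * (1 + (y / a) ^ 2)⁻¹ := by
    funext y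
    have : a ^ 2 + y ^ 2 = a ^ 2 * (1 + (y / a) ^ 2) := by field_simp
    rw [this, mul_inv]
  constructor
  · rw [e]
    exact (integrable_inv_one_add_sq.comp_div ha.ne').const_mul _
  · rw [e, integral_const_mul, Measure.integral_comp_div (fun y : ℝ => (1 + y ^ 2)⁻¹) a,
      integral_univ_inv_one_add_sq, abs_of_pos ha, smul_eq_mul]
    field_simp

lemma line_shift (f : ℂ → ℂ) {σ τ : ℝ} (hσ : 0 < σ) (hστ : σ ≤ τ)
    (hf : DifferentiableOn ℂ f {q | 0 < q.re})
    {C : ℝ} (hb : ∀ q : ℂ, σ ≤ q.re → q.re ≤ τ → ‖f q‖ ≤ C * (1 + q.im ^ 2)⁻¹) :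
    Integrable (fun y : ℝ => f (σ + y * Complex.I)) ∧
    Integrable (fun y : ℝ => f (τ + y * Complex.I)) ∧
    ∫ y : ℝ, f (σ + y * Complex.I) = ∫ y : ℝ, f (τ + y * Complex.I) := by
  have hcont : ∀ x : ℝ, 0 < x → Continuous (fun y : ℝ => f (x + y * Complex.I)) := by
    intro x hx
    have h1 : ContinuousOn f {q | 0 < q.re} := hf.continuousOn
    refine h1.comp_continuous (by fun_prop) fun y => ?_
    simpa using hx
  have hint : ∀ x : ℝ, σ ≤ x → x ≤ τ → Integrable (fun y : ℝ => f (x + y * Complex.I)) := by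
    intro x h1 h2
    refine Integrable.mono' (integrable_inv_one_add_sq.const_mul C)
      (hcont x (by linarith)).aestronglyMeasurable (Eventually.of_forall fun y => ?_)
    have h3 := hb (x + y * Complex.I) (by simpa using h1) (by simpa using h2)
    simpa using h3
  refine ⟨hint σ le_rfl hστ, hint τ hστ le_rfl, ?_⟩
  have hT : Tendsto (fun n : ℕ => (n : ℝ)) atTop atTop := tendsto_natCast_atTop_atTop
  have hT' : Tendsto (fun n : ℕ => -(n : ℝ)) atTop atBot := tendsto_neg_atTop_atBot.comp hT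
  have l1 := intervalIntegral_tendsto_integral (hint σ le_rfl hστ) hT' hT
  have l2 := intervalIntegral_tendsto_integral (hint τ hστ le_rfl) hT' hT
  have l3 := l2.sub l1
  have hC : 0 ≤ C := by
    have h3 := (norm_nonneg _).trans (hb (σ + (0:ℝ) * Complex.I) (by simp) (by simpa using hστ))
    simpa using h3
  have key : ∀ n : ℕ, ‖(∫ y in (-(n:ℝ))..(n:ℝ), f (τ + y * Complex.I)) -
      ∫ y in (-(n:ℝ))..(n:ℝ), f (σ + y * Complex.I)‖ ≤ 2 * ((τ - σ) * (C * (1 + (n:ℝ) ^ 2)⁻¹)) := by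
    intro n
    have h := Complex.integral_boundary_rect_eq_zero_of_differentiableOn f
      ((σ : ℂ) + ((-(n:ℝ) : ℝ) : ℂ) * Complex.I) ((τ : ℂ) + ((n:ℝ) : ℂ) * Complex.I) ?_
    · simp only [Complex.add_re, Complex.add_im, Complex.ofReal_re, Complex.ofReal_im,
        Complex.mul_re, Complex.mul_im, Complex.I_re, Complex.I_im, mul_zero, mul_one, sub_zero,
        add_zero, zero_add] at h
      have hb1 : ‖∫ x in σ..τ, f (x + ((-(n:ℝ) : ℝ) : ℂ) * Complex.I)‖ ≤
          (C * (1 + (n:ℝ) ^ 2)⁻¹) * |τ - σ| := by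
        refine intervalIntegral.norm_integral_le_of_norm_le_const fun x hx => ?_
        rw [uIoc_of_le hστ] at hx
        have := hb (x + ((-(n:ℝ) : ℝ) : ℂ) * Complex.I) (by simpa using hx.1.le) (by simpa using hx.2)
        simpa using this
      have hb2 : ‖∫ x in σ..τ, f (x + ((n:ℝ) : ℂ) * Complex.I)‖ ≤
          (C * (1 + (n:ℝ) ^ 2)⁻¹) * |τ - σ| := by
        refine intervalIntegral.norm_integral_le_of_norm_le_const fun x hx => ?_
        rw [uIoc_of_le hστ] at hx
        have := hb (x + ((n:ℝ) : ℂ) * Complex.I) (by simpa using hx.1.le) (by simpa using hx.2)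
        simpa using this
      rw [abs_of_nonneg (by linarith : 0 ≤ τ - σ)] at hb1 hb2
      set A := ∫ x in σ..τ, f (x + ((-(n:ℝ) : ℝ) : ℂ) * Complex.I)
      set B := ∫ x in σ..τ, f (x + ((n:ℝ) : ℂ) * Complex.I)
      set P := ∫ y in (-(n:ℝ))..(n:ℝ), f (τ + y * Complex.I)
      set Q := ∫ y in (-(n:ℝ))..(n:ℝ), f (σ + y * Complex.I)
      have h2 : Complex.I * (P - Q) = B - A := by
        have h3 : A - B + Complex.I • P - Complex.I • Q = 0 := h
        simp only [smul_eq_mul] at h3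
        linear_combination h3
      have h4 : ‖P - Q‖ = ‖B - A‖ := by
        rw [← h2, norm_mul, Complex.norm_I, one_mul]
      rw [h4]
      calc ‖B - A‖ ≤ ‖B‖ + ‖A‖ := norm_sub_le _ _
        _ ≤ (C * (1 + (n:ℝ) ^ 2)⁻¹) * (τ - σ) + (C * (1 + (n:ℝ) ^ 2)⁻¹) * (τ - σ) := add_le_add hb2 hb1
        _ = _ := by ring
    · refine hf.mono fun q hq => ?_
      rw [Complex.mem_reProdIm] at hq
      have := hq.1
      simp only [Complex.add_re, Complex.ofReal_re, Complex.mul_re, Complex.I_re, mul_zero,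
        Complex.ofReal_im, Complex.I_im, mul_one, sub_self, add_zero] at this
      rw [uIcc_of_le hστ] at this
      show 0 < q.re
      linarith [this.1]
  have hlim : Tendsto (fun n : ℕ => 2 * ((τ - σ) * (C * (1 + (n:ℝ) ^ 2)⁻¹))) atTop (𝓝 0) := by
    have h1 : Tendsto (fun n : ℕ => (1 + (n:ℝ) ^ 2)⁻¹) atTop (𝓝 0) := by
      apply tendsto_inv_atTop_zero.comp
      apply tendsto_atTop_add_const_left
      exact (tendsto_pow_atTop (by norm_num)).comp hT
    have h2 := ((h1.const_mul C).const_mul (τ - σ)).const_mul 2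
    simpa using h2
  have h0 := squeeze_zero_norm key hlim
  have h5 := tendsto_nhds_unique l3 h0
  exact (sub_eq_zero.1 h5).symm

/-- the transform of `v f(v)` -/
lemma Tame.deriv_LT {f : ℝ → ℝ} {C : ℝ} (hf : Tame f C) {q : ℂ} (hq : 1 < q.re) :
    ∫ v in Ioi (0:ℝ), ((v * f v : ℝ) : ℂ) * Complex.exp (-(q * v)) = - deriv (LT f) q := by
  have h1 := (hf.nice.Lap_hasDerivAt hq).deriv
  rw [← LT_eq_fun] at h1
  rw [h1, ← integral_neg, ← integral_indicator measurableSet_Ioi]
  congr 1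
  funext u
  unfold ext
  by_cases hu0 : u ∈ Ioi (0:ℝ)
  · rw [indicator_of_mem hu0, indicator_of_mem hu0]
    push_cast
    ring
  · rw [indicator_of_notMem hu0, indicator_of_notMem hu0]
    simp

lemma mul_exp_neg_le (v : ℝ) : v * Real.exp (-v) ≤ 2 * Real.exp (-(1/2) * v) := by
  have h1 := Real.add_one_le_exp (v / 2)
  have h2 : Real.exp (-v) = Real.exp (-(1/2) * v) * Real.exp (-(v/2)) := by
    rw [← Real.exp_add]; ring_nf
  have h3 : v / 2 * Real.exp (-(v / 2)) ≤ 1 := by
    have h4 : Real.exp (v/2) * Real.exp (-(v/2)) = 1 := by rw [← Real.exp_add]; simp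
    have h5 := Real.exp_pos (-(v/2))
    nlinarith
  rw [h2]
  have h6 := Real.exp_pos (-(1/2) * v)
  nlinarith

theorem bounded_of_transform {f : ℝ → ℝ} {C : ℝ} (hf : Tame f C) (hc : ContinuousOn f (Ioi 0))
    {h : ℂ → ℂ} (hh : DifferentiableOn ℂ h {q | 0 < q.re})
    (hLT : ∀ q : ℂ, 1 < q.re → LT f q = h q / q)
    {M r : ℝ} (hr : 0 < r)
    (h1 : ∀ q : ℂ, 0 < q.re → ‖q‖ < r → ‖h q‖ + ‖q * deriv h q‖ ≤ M)
    (h2 : ∀ q : ℂ, 0 < q.re → r ≤ ‖q‖ → ‖h q‖ + ‖q * deriv h q‖ ≤ M * (1 + 1 / q.re)) :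
    ∃ C' : ℝ, ∀ v : ℝ, 1 ≤ v → |f v| ≤ C' := by
  have hopen : IsOpen {q : ℂ | 0 < q.re} := isOpen_lt continuous_const Complex.continuous_re
  have hM : 0 ≤ M := by
    have hp : 0 < min (r / 2) 1 := lt_min (by positivity) one_pos
    have hlt : min (r / 2) 1 < r := (min_le_left _ _).trans_lt (by linarith)
    have := h1 ((min (r / 2) 1 : ℝ) : ℂ) (by simpa using hp) (by
      rw [Complex.norm_real, Real.norm_of_nonneg hp.le]; exact hlt)
    exact (by positivity : (0:ℝ) ≤ _).trans this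
  -- the transform of `v f(v)`
  set J : ℂ → ℂ := fun q => (h q - q * deriv h q) / q ^ 2 with hJ
  have hne : ∀ q : ℂ, 0 < q.re → q ≠ 0 := by
    rintro q hq rfl; simp at hq
  have hJd : DifferentiableOn ℂ J {q | 0 < q.re} := by
    have hd : DifferentiableOn ℂ (deriv h) {q | 0 < q.re} := hh.deriv hopen
    exact ((hh.sub (differentiableOn_id.mul hd))).div (differentiableOn_id.pow 2)
      fun q hq => pow_ne_zero 2 (hne q hq)
  have hJb : ∀ q : ℂ, 0 < q.re → ‖J q‖ ≤ M * (1 + 1 / q.re) / ‖q‖ ^ 2 := by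
    intro q hq
    have hqn : 0 < ‖q‖ := norm_pos_iff.2 (hne q hq)
    rw [hJ]
    simp only
    rw [norm_div, norm_pow]
    refine div_le_div_of_nonneg_right ?_ (by positivity)
    refine (norm_sub_le _ _).trans ?_
    rcases lt_or_ge ‖q‖ r with h3 | h3
    · refine (h1 q hq h3).trans ?_
      have : 0 ≤ M * (1 / q.re) := by positivity
      linarith
    · exact h2 q hq h3
  have hJb2 : ∀ q : ℂ, 0 < q.re → ‖J q‖ ≤ M * (q.re ^ 2 + q.im ^ 2)⁻¹ +
      2 * M / q.re * (r ^ 2 + q.im ^ 2)⁻¹ := by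
    intro q hq
    have hqn : 0 < ‖q‖ := norm_pos_iff.2 (hne q hq)
    have hn2 : ‖q‖ ^ 2 = q.re ^ 2 + q.im ^ 2 := by
      rw [← Complex.normSq_eq_norm_sq, Complex.normSq_apply]; ring
    have hpos2 : 0 ≤ 2 * M / q.re * (r ^ 2 + q.im ^ 2)⁻¹ := by positivity
    rcases lt_or_ge ‖q‖ r with h3 | h3
    · have h4 : ‖J q‖ ≤ M / ‖q‖ ^ 2 := by
        rw [hJ]
        simp only
        rw [norm_div, norm_pow]
        exact div_le_div_of_nonneg_right ((norm_sub_le _ _).trans (h1 q hq h3)) (by positivity)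
      rw [hn2, div_eq_mul_inv] at h4
      linarith
    · have h4 := hJb q hq
      have h5 : M * (1 + 1 / q.re) / ‖q‖ ^ 2 = M * (q.re ^ 2 + q.im ^ 2)⁻¹ +
          M / q.re * (‖q‖ ^ 2)⁻¹ := by
        rw [← hn2]; field_simp
      rw [h5] at h4
      refine h4.trans (add_le_add le_rfl ?_)
      have h6 : (‖q‖ ^ 2)⁻¹ ≤ 2 * (r ^ 2 + q.im ^ 2)⁻¹ := by
        have h7 : r ^ 2 ≤ ‖q‖ ^ 2 := pow_le_pow_left₀ hr.le h3 2
        have h8 : r ^ 2 + q.im ^ 2 ≤ 2 * ‖q‖ ^ 2 := by rw [hn2] at h7 ⊢; nlinarith [sq_nonneg q.re]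
        rw [← div_eq_mul_inv, inv_eq_one_div, div_le_div_iff₀ (by positivity) (by positivity)]
        linarith
      calc M / q.re * (‖q‖ ^ 2)⁻¹ ≤ M / q.re * (2 * (r ^ 2 + q.im ^ 2)⁻¹) :=
            mul_le_mul_of_nonneg_left h6 (by positivity)
        _ = _ := by ring
  have hJLT : ∀ q : ℂ, 1 < q.re →
      ∫ v in Ioi (0:ℝ), ((v * f v : ℝ) : ℂ) * Complex.exp (-(q * v)) = J q := by
    intro q hq
    rw [hf.deriv_LT hq]
    have hev : LT f =ᶠ[𝓝 q] fun q => h q / q := by
      filter_upwards [(isOpen_lt continuous_const Complex.continuous_re).mem_nhds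
        (show q ∈ {q : ℂ | 1 < q.re} from hq)] with w hw
      exact hLT w hw
    have hq0 : 0 < q.re := by linarith
    have hd : HasDerivAt h (deriv h q) q := (hh.differentiableAt (hopen.mem_nhds hq0)).hasDerivAt
    have hd2 := hd.div (hasDerivAt_id q) (hne q hq0)
    rw [hev.deriv_eq]
    have := hd2.deriv
    rw [show (fun q => h q / q) = (h / id) from rfl, this, hJ]
    simp only [id]
    rw [mul_one, ← neg_div]
    congr 1
    ring
  -- Fourier inversion on the line `Re q = 2`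
  set φ : ℝ → ℂ := (Ioi (0:ℝ)).indicator fun v => ((v * f v * Real.exp (-(2 * v)) : ℝ) : ℂ) with hφ
  have hφint : Integrable φ := by
    rw [hφ, integrable_indicator_iff measurableSet_Ioi]
    refine Integrable.mono' (g := fun v => 2 * C * Real.exp (-(1/2) * v)) ?_ ?_ ?_
    · exact (integrableOn_exp_mul_Ioi (by norm_num) 0).const_mul _
    · refine Measurable.aestronglyMeasurable ?_
      refine Complex.measurable_ofReal.comp ((measurable_id.mul hf.meas).mul ?_)
      fun_prop
    · refine (ae_restrict_iff' measurableSet_Ioi).2 (Eventually.of_forall fun v hv => ?_)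
      have hv0 : (0:ℝ) < v := hv
      rw [Complex.norm_real, Real.norm_eq_abs, abs_mul, abs_mul, abs_of_pos hv0,
        abs_of_pos (Real.exp_pos _)]
      calc v * |f v| * Real.exp (-(2 * v)) ≤ v * (C * Real.exp v) * Real.exp (-(2 * v)) := by
            have := hf.bound v hv0
            gcongr
        _ = C * (v * Real.exp (-v)) := by
            have : Real.exp (-v) = Real.exp v * Real.exp (-(2 * v)) := by
              rw [← Real.exp_add]; ring_nf
            rw [this]; ring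
        _ ≤ C * (2 * Real.exp (-(1/2) * v)) :=
            mul_le_mul_of_nonneg_left (mul_exp_neg_le v) hf.C_nonneg
        _ = _ := by ring
  have hfour : ∀ ξ : ℝ, 𝓕 φ ξ = J (2 + ((2 * Real.pi * ξ : ℝ) : ℂ) * Complex.I) := by
    intro ξ
    rw [Real.fourier_real_eq_integral_exp_smul, ← hJLT _ (by simp), ← integral_indicator measurableSet_Ioi]
    congr 1
    funext v
    rw [hφ]
    by_cases hv : v ∈ Ioi (0:ℝ)
    · rw [indicator_of_mem hv, indicator_of_mem hv, smul_eq_mul]
      push_cast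
      rw [mul_comm, mul_assoc ((v : ℂ) * (f v : ℂ)), ← Complex.exp_add]
      congr 2
      ring
    · rw [indicator_of_notMem hv, indicator_of_notMem hv, smul_zero]
  have hshift : ∀ v : ℝ, ∀ σ : ℝ, 0 < σ → σ ≤ 2 →
      Integrable (fun y : ℝ => J (σ + y * Complex.I) * Complex.exp ((σ + y * Complex.I) * v)) ∧
      Integrable (fun y : ℝ => J ((2:ℝ) + y * Complex.I) * Complex.exp (((2:ℝ) + y * Complex.I) * v)) ∧
      ∫ y : ℝ, J (σ + y * Complex.I) * Complex.exp ((σ + y * Complex.I) * v) =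
        ∫ y : ℝ, J ((2:ℝ) + y * Complex.I) * Complex.exp (((2:ℝ) + y * Complex.I) * v) := by
    intro v σ hσ hσ2
    set c : ℝ := min (σ ^ 2) 1 with hc'
    have hc0 : 0 < c := lt_min (by positivity) one_pos
    refine line_shift (fun q => J q * Complex.exp (q * v)) hσ hσ2 ?_
      (C := M * (1 + 1 / σ) / c * Real.exp (2 * |v|)) ?_
    · exact hJd.mul (by fun_prop)
    · intro q hq1 hq2
      have hq0 : 0 < q.re := by linarith
      have hn2 : ‖q‖ ^ 2 = q.re ^ 2 + q.im ^ 2 := by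
        rw [← Complex.normSq_eq_norm_sq, Complex.normSq_apply]; ring
      have hb1 : ‖J q‖ ≤ M * (1 + 1 / σ) / (c * (1 + q.im ^ 2)) := by
        refine (hJb q hq0).trans ?_
        have h3 : 1 / q.re ≤ 1 / σ := one_div_le_one_div_of_le hσ hq1
        have h4 : c * (1 + q.im ^ 2) ≤ ‖q‖ ^ 2 := by
          rw [hn2]
          have h5 : c ≤ q.re ^ 2 := (min_le_left _ _).trans (pow_le_pow_left₀ hσ.le hq1 2)
          have h6 : c ≤ 1 := min_le_right _ _
          nlinarith [sq_nonneg q.im]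
        have h7 : 0 < c * (1 + q.im ^ 2) := by positivity
        gcongr
      have hb2 : ‖Complex.exp (q * v)‖ ≤ Real.exp (2 * |v|) := by
        rw [Complex.norm_exp]
        apply Real.exp_le_exp.2
        rw [Complex.re_mul_ofReal]
        calc q.re * v ≤ q.re * |v| := mul_le_mul_of_nonneg_left (le_abs_self v) hq0.le
          _ ≤ 2 * |v| := mul_le_mul_of_nonneg_right hq2 (abs_nonneg v)
      rw [norm_mul]
      calc ‖J q‖ * ‖Complex.exp (q * v)‖
          ≤ M * (1 + 1 / σ) / (c * (1 + q.im ^ 2)) * Real.exp (2 * |v|) :=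
            mul_le_mul hb1 hb2 (norm_nonneg _) (by positivity)
        _ = _ := by
            field_simp
  have hfi : Integrable (𝓕 φ) := by
    have e : 𝓕 φ = fun ξ : ℝ => (fun y : ℝ => J ((2:ℝ) + y * Complex.I) *
        Complex.exp (((2:ℝ) + y * Complex.I) * ((0:ℝ) : ℂ))) (2 * Real.pi * ξ) := by
      funext ξ
      rw [hfour]
      simp
    rw [e]
    exact (hshift 0 1 one_pos (by norm_num)).2.1.comp_mul_left' (by positivity)
  have hinv : ∀ v : ℝ, 0 < v → ((v * f v : ℝ) : ℂ) = (2 * Real.pi : ℝ)⁻¹ •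
      ∫ y : ℝ, J ((2:ℝ) + y * Complex.I) * Complex.exp (((2:ℝ) + y * Complex.I) * v) := by
    intro v hv
    have hcv : ContinuousAt φ v := by
      have h3 : φ =ᶠ[𝓝 v] fun v => ((v * f v * Real.exp (-(2 * v)) : ℝ) : ℂ) := by
        filter_upwards [isOpen_Ioi.mem_nhds (show v ∈ Ioi (0:ℝ) from hv)] with w hw
        rw [hφ, indicator_of_mem hw]
      refine ContinuousAt.congr ?_ h3.symm
      have h4 : ContinuousAt f v := hc.continuousAt (isOpen_Ioi.mem_nhds hv)
      refine Complex.continuous_ofReal.continuousAt.comp ?_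
      exact (continuousAt_id.mul h4).mul (by fun_prop)
    have h5 := hφint.fourierInv_fourier_eq hfi hcv
    have h6 : φ v = ((v * f v * Real.exp (-(2 * v)) : ℝ) : ℂ) := by
      rw [hφ, indicator_of_mem (show v ∈ Ioi (0:ℝ) from hv)]
    rw [h6, Real.fourierInv_eq'] at h5
    have h7 : ∀ ξ : ℝ, Complex.exp (((2 * Real.pi * inner ℝ ξ v : ℝ) : ℂ) * Complex.I) • 𝓕 φ ξ =
        Complex.exp (-(2 * (v:ℂ))) * (fun y : ℝ => J ((2:ℝ) + y * Complex.I) *
          Complex.exp (((2:ℝ) + y * Complex.I) * v)) (2 * Real.pi * ξ) := by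
      intro ξ
      have hin : inner ℝ ξ v = ξ * v := by simp [mul_comm]
      rw [hfour, smul_eq_mul, hin]
      simp only [Complex.ofReal_ofNat]
      have h9 : Complex.exp (((2 * Real.pi * (ξ * v) : ℝ) : ℂ) * Complex.I) =
          Complex.exp (-(2 * (v:ℂ))) *
            Complex.exp ((2 + ((2 * Real.pi * ξ : ℝ) : ℂ) * Complex.I) * (v : ℂ)) := by
        rw [← Complex.exp_add]
        congr 1
        push_cast
        ring
      rw [h9]
      ring
    simp_rw [h7] at h5
    rw [integral_const_mul, Measure.integral_comp_mul_left (fun y : ℝ => J ((2:ℝ) + y * Complex.I) *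
          Complex.exp (((2:ℝ) + y * Complex.I) * v)) (2 * Real.pi)] at h5
    rw [abs_of_pos (by positivity)] at h5
    have h8 : ((v * f v : ℝ) : ℂ) = Complex.exp (2 * (v:ℂ)) * ((v * f v * Real.exp (-(2 * v)) : ℝ) : ℂ) := by
      have h9 : Complex.exp (2 * (v:ℂ)) * Complex.exp (-(2 * (v:ℂ))) = 1 := by
        rw [← Complex.exp_add]; simp
      push_cast
      linear_combination (-((v:ℂ) * (f v : ℂ))) * h9
    rw [h8, ← h5, ← mul_assoc, ← Complex.exp_add]
    simp
  -- the bound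
  refine ⟨Real.exp 1 / (2 * Real.pi) * (M * Real.pi + 2 * M * (Real.pi / r)), fun v hv => ?_⟩
  have hv0 : 0 < v := by linarith
  set σ : ℝ := 1 / v with hσ
  have hσ0 : 0 < σ := by positivity
  have hσ2 : σ ≤ 2 := by
    rw [hσ, div_le_iff₀ hv0]; linarith
  obtain ⟨i1, -, i3⟩ := hshift v σ hσ0 hσ2
  have h9 := hinv v hv0
  rw [← i3] at h9
  have hb : ‖∫ y : ℝ, J (σ + y * Complex.I) * Complex.exp ((σ + y * Complex.I) * v)‖ ≤
      Real.exp 1 * (M * (Real.pi / σ) + 2 * M / σ * (Real.pi / r)) := by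
    have hi1 := (cauchy_int hσ0).1.const_mul M
    have hi2 := (cauchy_int hr).1.const_mul (2 * M / σ)
    calc ‖∫ y : ℝ, J (σ + y * Complex.I) * Complex.exp ((σ + y * Complex.I) * v)‖
        ≤ ∫ y : ℝ, Real.exp 1 * (M * (σ ^ 2 + y ^ 2)⁻¹ + 2 * M / σ * (r ^ 2 + y ^ 2)⁻¹) := by
          refine norm_integral_le_of_norm_le ((hi1.add hi2).const_mul _)
            (Eventually.of_forall fun y => ?_)
          have h3 := hJb2 (σ + y * Complex.I) (by simpa using hσ0)
          simp only [Complex.add_re, Complex.ofReal_re, Complex.mul_re, Complex.I_re, mul_zero,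
            Complex.ofReal_im, Complex.I_im, mul_one, sub_self, add_zero, Complex.add_im,
            Complex.mul_im, zero_add] at h3
          rw [norm_mul, Complex.norm_exp]
          have h4 : ((σ + y * Complex.I) * v : ℂ).re = 1 := by
            rw [Complex.re_mul_ofReal]
            simp only [Complex.add_re, Complex.ofReal_re, Complex.mul_re, Complex.I_re, mul_zero,
              Complex.ofReal_im, Complex.I_im, mul_one, sub_self, add_zero]
            rw [hσ]; field_simp
          rw [h4, mul_comm]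
          exact mul_le_mul_of_nonneg_left h3 (Real.exp_pos 1).le
      _ = _ := by
          rw [integral_const_mul, integral_add hi1 hi2, integral_const_mul, integral_const_mul,
            (cauchy_int hσ0).2, (cauchy_int hr).2]
  have h10 : |v * f v| = ‖((v * f v : ℝ) : ℂ)‖ := by rw [Complex.norm_real, Real.norm_eq_abs]
  have h11 : |v * f v| ≤ (2 * Real.pi)⁻¹ * (Real.exp 1 * (M * (Real.pi / σ) + 2 * M / σ * (Real.pi / r))) := by
    rw [h10, h9, norm_smul, Real.norm_of_nonneg (by positivity)]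
    exact mul_le_mul_of_nonneg_left hb (by positivity)
  rw [abs_mul, abs_of_pos hv0] at h11
  have h12 : (2 * Real.pi)⁻¹ * (Real.exp 1 * (M * (Real.pi / σ) + 2 * M / σ * (Real.pi / r))) =
      v * (Real.exp 1 / (2 * Real.pi) * (M * Real.pi + 2 * M * (Real.pi / r))) := by
    rw [hσ]
    field_simp
  rw [h12] at h11
  exact le_of_mul_le_mul_left h11 hv0

end

end Pool.Agent.W334.BSD
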