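import Pool.Agent.W334.BSD.Landau

/-!
# Sectors and iterated square roots
-/

set_option autoImplicit false
open MeasureTheory Set Filter Topology

namespace Pool.Agent.W334.BSD

noncomputable section

/-- punctured sector of half opening `θ` -/
def Ang (θ : ℝ) : Set ℂ := {s | s ≠ 0 ∧ |s.arg| < θ}

lemma RHP_eq : RHP = Ang (Real.pi / 2) := by
  ext s
  show 0 < s.re ↔ s ≠ 0 ∧ |s.arg| < Real.pi / 2
  rw [Complex.abs_arg_lt_pi_div_two_iff]
  constructor
  · intro h
    exact ⟨by rintro rfl; simp at h, Or.inl h⟩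
  · rintro ⟨h0, h | h⟩
    · exact h
    · exact absurd h h0

lemma arg_csq {q : ℂ} (hq : q ≠ 0) : (csq q).arg = q.arg / 2 := by
  unfold csq
  rw [Complex.cpow_def_of_ne_zero hq]
  have him : (Complex.log q * (1 / 2)).im = q.arg / 2 := by
    rw [show (1 / 2 : ℂ) = ((1 / 2 : ℝ) : ℂ) by push_cast; ring, Complex.im_mul_ofReal,
      Complex.log_im]
    ring
  have h1 := Complex.neg_pi_lt_arg q
  have h2 := Complex.arg_le_pi q
  have hp := Real.pi_pos
  rw [← Complex.log_im, Complex.log_exp (by rw [him]; linarith) (by rw [him]; linarith), him]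

lemma csq_mem_Ang {θ : ℝ} {q : ℂ} (hq : q ∈ Ang θ) : csq q ∈ Ang (θ / 2) := by
  refine ⟨csq_ne_zero hq.1, ?_⟩
  rw [arg_csq hq.1, abs_div, abs_two]
  have := hq.2
  linarith

lemma csq_of_sq {s : ℂ} (hs : 0 < s.re) : csq (s ^ 2) = s := by
  have hs0 : s ≠ 0 := by rintro rfl; simp at hs
  have h1 : csq (s ^ 2) ^ 2 = s ^ 2 := csq_sq
  have h0 : s ^ 2 ≠ 0 := pow_ne_zero 2 hs0
  rcases sq_eq_sq_iff_eq_or_eq_neg.1 h1 with h | h
  · exact h
  · exfalso
    -- both have real part positive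
    have h2 : 0 ≤ (csq (s ^ 2)).re := by
      have h3 := arg_csq h0
      rw [← Complex.abs_arg_le_pi_div_two_iff, h3, abs_div, abs_two]
      have := Complex.abs_arg_le_pi (s ^ 2)
      linarith
    rw [h, Complex.neg_re] at h2
    linarith

lemma sq_mem_Ang {θ : ℝ} (hθ : θ ≤ Real.pi) {s : ℂ} (hs : s ∈ Ang (θ / 2)) :
    s ^ 2 ∈ Ang θ ∧ csq (s ^ 2) = s := by
  have hre : s ∈ RHP := by
    rw [RHP_eq]
    exact ⟨hs.1, hs.2.trans_le (by linarith)⟩
  have h1 := csq_of_sq hre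
  have h0 : s ^ 2 ≠ 0 := pow_ne_zero 2 hs.1
  refine ⟨⟨h0, ?_⟩, h1⟩
  have h2 := arg_csq h0
  rw [h1] at h2
  have h3 : (s ^ 2).arg = 2 * s.arg := by linarith
  rw [h3, abs_mul, abs_two]
  have := hs.2
  linarith

lemma csqI_mem {θ : ℝ} {q : ℂ} (hq : q ∈ Ang θ) (k : ℕ) : csq^[k] q ∈ Ang (θ / 2 ^ k) := by
  induction k with
  | zero => simpa using hq
  | succ k ih =>
    rw [Function.iterate_succ_apply', pow_succ, ← div_div]
    exact csq_mem_Ang ih

lemma csqI_pow (q : ℂ) (k : ℕ) : (csq^[k] q) ^ (2 ^ k) = q := by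
  induction k with
  | zero => simp
  | succ k ih =>
    rw [Function.iterate_succ_apply', pow_succ, mul_comm (2 ^ k) 2, pow_mul, csq_sq, ih]

lemma pow_mem_Ang {θ : ℝ} (hθ : θ ≤ Real.pi) (k : ℕ) {s : ℂ} (hs : s ∈ Ang (θ / 2 ^ k)) :
    s ^ (2 ^ k) ∈ Ang θ ∧ csq^[k] (s ^ (2 ^ k)) = s := by
  induction k generalizing s with
  | zero => simpa using hs
  | succ k ih =>
    have hle : θ / 2 ^ k ≤ Real.pi := by
      rcases le_or_gt θ 0 with h | h
      · have : θ / 2 ^ k ≤ 0 := div_nonpos_of_nonpos_of_nonneg h (by positivity)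
        linarith [Real.pi_pos]
      · exact (div_le_self h.le (one_le_pow₀ (by norm_num))).trans hθ
    have h1 := sq_mem_Ang (θ := θ / 2 ^ k) hle (s := s) (by
      rw [div_div, ← pow_succ]; exact hs)
    obtain ⟨h2, h3⟩ := ih h1.1
    rw [pow_succ, mul_comm (2 ^ k) 2, pow_mul]
    refine ⟨h2, ?_⟩
    rw [Function.iterate_succ_apply', h3, h1.2]

/-- the open sector `|Im s| < tan(π / 2^(k+1)) Re s`, for `k ≥ 1` -/
def Sec (k : ℕ) : Set ℂ := {s | 0 < s.re ∧ |s.im| < Real.tan (Real.pi / 2 ^ (k + 1)) * s.re}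

/-- the closed sector -/
def CSec (k : ℕ) : Set ℂ := {s | 0 ≤ s.re ∧ |s.im| ≤ Real.tan (Real.pi / 2 ^ (k + 1)) * s.re}

lemma ang_pos (k : ℕ) : 0 < Real.pi / 2 ^ (k + 1) := by positivity

lemma ang_lt (k : ℕ) (hk : 1 ≤ k) : Real.pi / 2 ^ (k + 1) ≤ Real.pi / 4 := by
  apply div_le_div_of_nonneg_left Real.pi_pos.le (by norm_num)
  calc (4:ℝ) = 2 ^ 2 := by norm_num
    _ ≤ 2 ^ (k + 1) := pow_le_pow_right₀ (by norm_num) (by omega)

lemma tan_pos' (k : ℕ) (hk : 1 ≤ k) : 0 < Real.tan (Real.pi / 2 ^ (k + 1)) :=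
  Real.tan_pos_of_pos_of_lt_pi_div_two (ang_pos k) (by linarith [ang_lt k hk, Real.pi_pos])

lemma tan_le_one (k : ℕ) (hk : 1 ≤ k) : Real.tan (Real.pi / 2 ^ (k + 1)) ≤ 1 := by
  rw [← Real.tan_pi_div_four]
  rcases (ang_lt k hk).eq_or_lt with h | h
  · rw [h]
  · exact (Real.tan_lt_tan_of_lt_of_lt_pi_div_two (by linarith [ang_pos k, Real.pi_pos])
      (by linarith [Real.pi_pos]) h).le

lemma mem_Sec_iff (k : ℕ) (hk : 1 ≤ k) {s : ℂ} : s ∈ Sec k ↔ s ∈ Ang (Real.pi / 2 / 2 ^ k) := by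
  have he : Real.pi / 2 / 2 ^ k = Real.pi / 2 ^ (k + 1) := by
    rw [div_div, pow_succ]; ring_nf
  rw [he]
  have hθ := ang_pos k
  have hθ2 := ang_lt k hk
  have hp := Real.pi_pos
  have key : ∀ s : ℂ, 0 < s.re → (|s.im| < Real.tan (Real.pi / 2 ^ (k + 1)) * s.re ↔
      |s.arg| < Real.pi / 2 ^ (k + 1)) := by
    intro s hs
    have harg := Complex.abs_arg_lt_pi_div_two_iff.2 (Or.inl hs)
    have harg' := abs_lt.1 harg
    have htan : s.im = Real.tan s.arg * s.re := by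
      rw [Complex.tan_arg]; field_simp
    have h1 : |s.im| = |Real.tan s.arg| * s.re := by
      nth_rewrite 1 [htan]; rw [abs_mul, abs_of_pos hs]
    rw [h1, mul_lt_mul_iff_left₀ hs, abs_lt, abs_lt, ← Real.tan_neg]
    have hm : ∀ x y : ℝ, -(Real.pi/2) < x → x < Real.pi / 2 → -(Real.pi/2) < y → y < Real.pi/2 →
        (Real.tan x < Real.tan y ↔ x < y) := by
      intro x y hx1 hx2 hy1 hy2
      exact Real.strictMonoOn_tan.lt_iff_lt ⟨hx1, hx2⟩ ⟨hy1, hy2⟩
    rw [hm _ _ (by linarith) (by linarith) harg'.1 harg'.2,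
      hm _ _ harg'.1 harg'.2 (by linarith) (by linarith)]
  constructor
  · rintro ⟨h1, h2⟩
    exact ⟨by rintro rfl; simp at h1, (key s h1).1 h2⟩
  · rintro ⟨h1, h2⟩
    have h3 : s ∈ RHP := by
      rw [RHP_eq]
      exact ⟨h1, by linarith⟩
    exact ⟨h3, (key s h3).2 h2⟩

lemma Sec_open (k : ℕ) : IsOpen (Sec k) := by
  refine (isOpen_lt continuous_const Complex.continuous_re).inter ?_
  exact isOpen_lt Complex.continuous_im.abs (continuous_const.mul Complex.continuous_re)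

lemma Sec_convex (k : ℕ) : Convex ℝ (Sec k) := by
  intro x hx y hy a b ha hb hab
  obtain ⟨hx1, hx2⟩ := hx
  obtain ⟨hy1, hy2⟩ := hy
  have hre : (a • x + b • y).re = a * x.re + b * y.re := by simp
  have him : (a • x + b • y).im = a * x.im + b * y.im := by simp
  have h1 : |a * x.im + b * y.im| ≤ a * |x.im| + b * |y.im| := by
    refine (abs_add_le _ _).trans ?_
    rw [abs_mul, abs_mul, abs_of_nonneg ha, abs_of_nonneg hb]
  set T := Real.tan (Real.pi / 2 ^ (k + 1)) with hT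
  rcases ha.eq_or_lt with h | h
  · subst h
    have : b = 1 := by linarith
    subst this
    rw [zero_smul, one_smul, zero_add]
    exact ⟨hy1, hy2⟩
  · refine ⟨?_, ?_⟩
    · rw [hre]
      have := mul_pos h hx1
      have := mul_nonneg hb hy1.le
      linarith
    · rw [hre, him]
      refine h1.trans_lt ?_
      have e1 := mul_lt_mul_of_pos_left hx2 h
      have e2 := mul_le_mul_of_nonneg_left hy2.le hb
      calc a * |x.im| + b * |y.im| < a * (T * x.re) + b * (T * y.re) := by linarith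
        _ = _ := by ring

lemma ofReal_mem_Sec (k : ℕ) (hk : 1 ≤ k) {x : ℝ} (hx : 0 < x) : (x : ℂ) ∈ Sec k := by
  refine ⟨by simpa using hx, ?_⟩
  simp only [Complex.ofReal_im, abs_zero, Complex.ofReal_re]
  exact mul_pos (tan_pos' k hk) hx

lemma smul_mem_Sec (k : ℕ) {s : ℂ} (hs : s ∈ Sec k) {x : ℝ} (hx : 0 < x) : (x : ℂ) * s ∈ Sec k := by
  obtain ⟨h1, h2⟩ := hs
  refine ⟨?_, ?_⟩
  · rw [Complex.re_ofReal_mul]; positivity
  · rw [Complex.re_ofReal_mul, Complex.im_ofReal_mul, abs_mul, abs_of_pos hx]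
    calc x * |s.im| < x * (Real.tan (Real.pi / 2 ^ (k + 1)) * s.re) := mul_lt_mul_of_pos_left h2 hx
      _ = _ := by ring

lemma norm_le_of_CSec (k : ℕ) (hk : 1 ≤ k) {s : ℂ} (hs : s ∈ CSec k) : ‖s‖ ≤ 2 * s.re := by
  obtain ⟨h1, h2⟩ := hs
  have h3 := tan_le_one k hk
  have h4 : |s.im| ≤ s.re := h2.trans (by nlinarith)
  calc ‖s‖ ≤ |s.re| + |s.im| := Complex.norm_le_abs_re_add_abs_im s
    _ ≤ 2 * s.re := by rw [abs_of_nonneg h1]; linarith

lemma Sec_sub_CSec (k : ℕ) : Sec k ⊆ CSec k := fun _ hs => ⟨hs.1.le, hs.2.le⟩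

lemma csqI_mem_Sec (k : ℕ) (hk : 1 ≤ k) {q : ℂ} (hq : q ∈ RHP) : csq^[k] q ∈ Sec k := by
  rw [mem_Sec_iff k hk]
  rw [RHP_eq] at hq
  exact csqI_mem hq k

lemma pow_mem_RHP (k : ℕ) (hk : 1 ≤ k) {s : ℂ} (hs : s ∈ Sec k) :
    s ^ (2 ^ k) ∈ RHP ∧ csq^[k] (s ^ (2 ^ k)) = s := by
  rw [mem_Sec_iff k hk] at hs
  rw [RHP_eq]
  exact pow_mem_Ang (by linarith [Real.pi_pos]) k hs

/-- boundary points of the sector are mapped to the imaginary axis -/
lemma pow_re_nonpos (k : ℕ) (hk : 1 ≤ k) {s : ℂ} (hs : s ∈ CSec k) (hn : s ∉ Sec k) :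
    (s ^ (2 ^ k)).re ≤ 0 := by
  by_contra hcon
  push Not at hcon
  have hs0 : s ≠ 0 := by
    rintro rfl
    rw [zero_pow (by positivity)] at hcon
    simp at hcon
  have hre : 0 < s.re := by
    rcases hs.1.eq_or_lt with h | h
    · exfalso
      apply hs0
      have h1 := hs.2
      rw [← h, mul_zero] at h1
      apply Complex.ext
      · simp [← h]
      · simpa using h1
    · exact h
  -- `s` is in the larger sector
  have hmem : s ∈ Ang (Real.pi / 2 ^ k) := by
    refine ⟨hs0, ?_⟩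
    have harg := Complex.abs_arg_lt_pi_div_two_iff.2 (Or.inl hre)
    rcases hk.eq_or_lt with h | h
    · rw [← h]; simpa using harg
    · -- otherwise compare with `Sec (k-1)`
      obtain ⟨j, rfl⟩ : ∃ j, k = j + 1 := ⟨k - 1, by omega⟩
      have hj : 1 ≤ j := by omega
      have h1 : s ∈ Sec j := by
        refine ⟨hre, hs.2.trans_lt ?_⟩
        refine mul_lt_mul_of_pos_right ?_ hre
        apply Real.tan_lt_tan_of_lt_of_lt_pi_div_two
        · linarith [ang_pos (j + 1), Real.pi_pos]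
        · linarith [ang_lt j hj, Real.pi_pos]
        · exact div_lt_div_of_pos_left Real.pi_pos (by positivity)
            (pow_lt_pow_right₀ (by norm_num) (by omega))
      rw [mem_Sec_iff j hj, div_div, mul_comm, ← pow_succ] at h1
      exact h1.2
  obtain ⟨-, h2⟩ := pow_mem_Ang le_rfl k hmem
  apply hn
  rw [← h2]
  exact csqI_mem_Sec k hk hcon

lemma hasDerivAt_csq {q : ℂ} (hq : q ∈ RHP) : HasDerivAt csq (csq q / (2 * q)) q := by
  have hq' : 0 < q.re := hq
  have hq0 : q ≠ 0 := by rintro rfl; simp at hq'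
  have h1 : HasDerivAt (fun z : ℂ => z ^ (1 / 2 : ℂ)) ((1 / 2 : ℂ) * q ^ ((1 / 2 : ℂ) - 1)) q :=
    (hasDerivAt_id q).cpow_const (Or.inl hq') |>.congr_deriv (by simp)
  refine h1.congr_deriv ?_
  unfold csq
  rw [Complex.cpow_sub _ _ hq0, Complex.cpow_one]
  field_simp

lemma hasDerivAt_csqI (k : ℕ) {q : ℂ} (hq : q ∈ RHP) :
    HasDerivAt (csq^[k]) (csq^[k] q / (2 ^ k * q)) q := by
  have hq' : 0 < q.re := hq
  have hq0 : q ≠ 0 := by rintro rfl; simp at hq'
  induction k with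
  | zero =>
    simp only [Function.iterate_zero, id, pow_zero, one_mul]
    rw [div_self hq0]
    exact hasDerivAt_id q
  | succ k ih =>
    have h1 : csq^[k] q ∈ RHP := by
      rw [RHP_eq] at hq ⊢
      have h2 := csqI_mem hq k
      refine ⟨h2.1, h2.2.trans_le ?_⟩
      exact div_le_self (by linarith [Real.pi_pos]) (one_le_pow₀ (by norm_num))
    have h0 : csq^[k] q ≠ 0 := by
      have h1' : 0 < (csq^[k] q).re := h1
      intro h
      rw [h] at h1'
      simp at h1'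
    have h3 := (hasDerivAt_csq h1).comp q ih
    have e : csq^[k + 1] = csq ∘ csq^[k] := Function.iterate_succ' csq k
    rw [e]
    refine h3.congr_deriv ?_
    rw [Function.comp_apply, pow_succ]
    field_simp

/-- Laplace transform of iterated Gaussian averages -/
lemma LT_iter {f : ℝ → ℝ} {C : ℝ} (hf : Tame f C) (k : ℕ) {q : ℂ} (hq : 1 < q.re) :
    q * LT (gaussAvg^[k] f) q = csq^[k] q * LT f (csq^[k] q) := by
  induction k generalizing f C with
  | zero => simp
  | succ k ih =>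
    rw [Function.iterate_succ_apply, ih hf.gaussAvg, Function.iterate_succ_apply']
    have h1 : ∀ j : ℕ, 1 < (csq^[j] q).re := by
      intro j
      induction j with
      | zero => simpa using hq
      | succ j ihj => rw [Function.iterate_succ_apply']; exact one_lt_csq_re ihj
    have h2 := LT_gaussAvg hf (h1 k)
    rw [h2]
    have h3 : csq (csq^[k] q) ^ 2 = csq^[k] q := csq_sq
    have h4 : csq (csq^[k] q) ≠ 0 := by
      apply csq_ne_zero
      have := h1 k
      intro h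
      rw [h] at this
      simp at this
      linarith
    nth_rewrite 1 [← h3]
    field_simp

lemma iter_re (k : ℕ) {q : ℂ} (hq : 1 < q.re) : 1 < (csq^[k] q).re := by
  induction k with
  | zero => simpa using hq
  | succ j ihj => rw [Function.iterate_succ_apply']; exact one_lt_csq_re ihj

lemma Tame.iter {f : ℝ → ℝ} {C : ℝ} (h : Tame f C) (k : ℕ) : Tame (BSD.gaussAvg^[k] f) (2 ^ k * C) := by
  induction k with
  | zero => simpa using h
  | succ k ih =>
    rw [Function.iterate_succ_apply']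
    refine ih.gaussAvg.mono (le_of_eq ?_)
    rw [pow_succ]; ring

end

end Pool.Agent.W334.BSD
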