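import Pool.Agent.W334.BSD.MM
import Pool.Agent.W334.BSD.Sec
import Pool.Agent.W334.BSD.Inv

/-!
# The abstract equivalence: growth of the averages and zeros in a sector
-/

set_option autoImplicit false
open MeasureTheory Set Filter Topology

namespace Pool.Agent.W334.BSD

noncomputable section

/-! ### iterated averages -/

lemma iter_congr {f g : ℝ → ℝ} (h : ∀ t, 0 < t → f t = g t) (k : ℕ) {v : ℝ} (hv : 0 < v) :
    gaussAvg^[k] f v = gaussAvg^[k] g v := by
  induction k generalizing v with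
  | zero => exact h v hv
  | succ k ih =>
    rw [Function.iterate_succ_apply', Function.iterate_succ_apply']
    exact gaussAvg_congr (fun t ht => ih ht) v

lemma iter_add {f g : ℝ → ℝ} {C D : ℝ} (hf : Tame f C) (hg : Tame g D) (k : ℕ) {v : ℝ} (hv : 0 < v) :
    gaussAvg^[k] (fun t => f t + g t) v = gaussAvg^[k] f v + gaussAvg^[k] g v := by
  induction k generalizing v with
  | zero => rfl
  | succ k ih =>
    rw [Function.iterate_succ_apply', Function.iterate_succ_apply', Function.iterate_succ_apply',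
      ← gaussAvg_add (hf.iter k) (hg.iter k) hv]
    exact gaussAvg_congr (fun t ht => ih ht) v

lemma iter_const_mul (f : ℝ → ℝ) (c : ℝ) (k : ℕ) {v : ℝ} (hv : 0 < v) :
    gaussAvg^[k] (fun t => c * f t) v = c * gaussAvg^[k] f v := by
  induction k generalizing v with
  | zero => rfl
  | succ k ih =>
    rw [Function.iterate_succ_apply', Function.iterate_succ_apply', ← gaussAvg_const_mul]
    exact gaussAvg_congr (fun t ht => ih ht) v

lemma iter_close {f g : ℝ → ℝ} {C D E : ℝ} (hf : Tame f C) (hg : Tame g D)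
    (h : ∀ t, 0 < t → |f t - g t| ≤ E) (k : ℕ) {v : ℝ} (hv : 0 < v) :
    |gaussAvg^[k] f v - gaussAvg^[k] g v| ≤ E := by
  induction k generalizing v with
  | zero => exact h v hv
  | succ k ih =>
    rw [Function.iterate_succ_apply', Function.iterate_succ_apply']
    exact gaussAvg_close (hf.iter k) (hg.iter k) (fun t ht => ih ht) hv

lemma iter_const (c : ℝ) (k : ℕ) {v : ℝ} (hv : 0 < v) : gaussAvg^[k] (fun _ => c) v = c := by
  induction k generalizing v with
  | zero => rfl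
  | succ k ih =>
    rw [Function.iterate_succ_apply']
    rw [gaussAvg_congr (fun t ht => ih ht) v, gaussAvg_const c hv]

lemma iter_lp (k : ℕ) : ∃ E : ℝ, ∀ v : ℝ, 0 < v → |gaussAvg^[k] lp v - (1 / 2 ^ k) * lp v| ≤ E := by
  induction k with
  | zero => exact ⟨0, fun v _ => by simp⟩
  | succ k ih =>
    obtain ⟨E, hE⟩ := ih
    refine ⟨E + (1 / 2 ^ k) * c0, fun v hv => ?_⟩
    rw [Function.iterate_succ_apply']
    have h1 := gaussAvg_close (tame_lp.iter k) (tame_lp.const_mul (1 / 2 ^ k)) hE hv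
    rw [gaussAvg_const_mul] at h1
    have h2 := gaussAvg_lp hv
    have h3 : |(1 / 2 ^ k) * gaussAvg lp v - (1 / 2 ^ (k + 1)) * lp v| ≤ (1 / 2 ^ k) * c0 := by
      have e : (1 / 2 ^ k) * gaussAvg lp v - (1 / 2 ^ (k + 1)) * lp v =
          (1 / 2 ^ k) * (gaussAvg lp v - (1 / 2) * lp v) := by
        rw [pow_succ]; ring
      rw [e, abs_mul, abs_of_nonneg (by positivity : (0:ℝ) ≤ 1 / 2 ^ k)]
      exact mul_le_mul_of_nonneg_left h2 (by positivity)
    rw [abs_le] at h1 h3 ⊢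
    constructor <;> linarith [h1.1, h1.2, h3.1, h3.2]

lemma iter_mm (k : ℕ) : ∃ E : ℝ, ∀ v : ℝ, 1 ≤ v → |gaussAvg^[k] mm v - (1 / 2 ^ k) * Real.log v| ≤ E := by
  obtain ⟨E, hE⟩ := iter_lp k
  refine ⟨2 + E, fun v hv => ?_⟩
  have hv0 : 0 < v := by linarith
  have h1 := iter_close tame_mm tame_lp (fun t ht => abs_mm_sub_lp ht) k hv0
  have h2 := hE v hv0
  rw [lp_of_one_le hv] at h2
  rw [abs_le] at h1 h2 ⊢
  constructor <;> linarith [h1.1, h1.2, h2.1, h2.2]

/-! ### bounds far from the vertex -/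

lemma far_bound {A : ℝ → ℝ} {C : ℝ} (hA : Tame A C) {s : ℂ} (hs : 2 ≤ s.re) (hn : ‖s‖ ≤ 2 * s.re) :
    ‖s * LT A s‖ ≤ 4 * C ∧ ‖s * deriv (fun z => z * LT A z) s‖ ≤ 20 * C := by
  have hs1 : 1 < s.re := by linarith
  have hC := hA.C_nonneg
  have h1 : ‖LT A s‖ ≤ C / (s.re - 1) := by
    rw [LT_eq]
    have := hA.nice.norm_Lap_le hs1
    simpa using this
  have hx : s.re ≤ 2 * (s.re - 1) := by linarith
  have hx0 : 0 < s.re - 1 := by linarith
  have h2 : ‖s * LT A s‖ ≤ 4 * C := by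
    rw [norm_mul]
    calc ‖s‖ * ‖LT A s‖ ≤ (4 * (s.re - 1)) * (C / (s.re - 1)) :=
          mul_le_mul (by linarith) h1 (norm_nonneg _) (by linarith)
      _ = 4 * C := by field_simp
  refine ⟨h2, ?_⟩
  have hd := (hA.differentiableAt hs1).hasDerivAt
  have hd2 : deriv (fun z => z * LT A z) s = LT A s + s * deriv (LT A) s := by
    have h := ((hasDerivAt_id s).mul hd).deriv
    have e : (fun z => z * LT A z) = id * LT A := rfl
    rw [e, h]
    simp
  have h3 : ‖deriv (LT A) s‖ ≤ C / (s.re - 1) ^ 2 := by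
    have h4 := hA.deriv_LT hs1
    have h5 : ‖deriv (LT A) s‖ = ‖∫ v in Ioi (0:ℝ), ((v * A v : ℝ) : ℂ) * Complex.exp (-(s * v))‖ := by
      rw [h4, norm_neg]
    rw [h5]
    have h6 : IntegrableOn (fun v : ℝ => v * Real.exp (-(s.re - 1) * v)) (Ioi 0) := by
      have h7 := integrableOn_rpow_mul_exp_neg_mul_rpow (p := 1) (s := 1) (b := s.re - 1) (by norm_num)
        one_pos hx0
      refine h7.congr_fun (fun v hv => ?_) measurableSet_Ioi
      simp
    have h8 : ∫ v in Ioi (0:ℝ), v * Real.exp (-(s.re - 1) * v) = 1 / (s.re - 1) ^ 2 := by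
      have := Real.integral_rpow_mul_exp_neg_mul_Ioi (a := 2) (r := s.re - 1) (by norm_num) hx0
      have e : ∀ v ∈ Ioi (0:ℝ), v ^ ((2:ℝ) - 1) * Real.exp (-((s.re - 1) * v)) =
          v * Real.exp (-(s.re - 1) * v) := by
        intro v hv
        rw [show (2:ℝ) - 1 = 1 by norm_num, Real.rpow_one]
        congr 2
        ring
      rw [setIntegral_congr_fun measurableSet_Ioi e] at this
      rw [this, Real.Gamma_two, mul_one]
      norm_num
    calc ‖∫ v in Ioi (0:ℝ), ((v * A v : ℝ) : ℂ) * Complex.exp (-(s * v))‖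
        ≤ ∫ v in Ioi (0:ℝ), C * (v * Real.exp (-(s.re - 1) * v)) := by
          refine norm_integral_le_of_norm_le (h6.const_mul C) ?_
          refine (ae_restrict_iff' measurableSet_Ioi).2 (Eventually.of_forall fun v hv => ?_)
          have hv0 : (0:ℝ) < v := hv
          rw [norm_mul, Complex.norm_real, Real.norm_eq_abs, abs_mul, abs_of_pos hv0, Complex.norm_exp]
          have e1 : (-(s * (v:ℂ))).re = -(s.re * v) := by simp
          rw [e1]
          calc v * |A v| * Real.exp (-(s.re * v)) ≤ v * (C * Real.exp v) * Real.exp (-(s.re * v)) := by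
                have := hA.bound v hv0
                gcongr
            _ = _ := by
                have : Real.exp (-(s.re - 1) * v) = Real.exp v * Real.exp (-(s.re * v)) := by
                  rw [← Real.exp_add]; ring_nf
                rw [this]; ring
      _ = C / (s.re - 1) ^ 2 := by rw [integral_const_mul, h8]; ring
  rw [hd2, mul_add]
  refine (norm_add_le _ _).trans ?_
  have h9 : ‖s * (s * deriv (LT A) s)‖ ≤ 16 * C := by
    rw [norm_mul, norm_mul, ← mul_assoc]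
    calc ‖s‖ * ‖s‖ * ‖deriv (LT A) s‖ ≤ (4 * (s.re - 1)) * (4 * (s.re - 1)) * (C / (s.re - 1) ^ 2) := by
          have : ‖s‖ ≤ 4 * (s.re - 1) := by linarith
          gcongr
      _ = 16 * C := by field_simp; ring
  linarith

/-! ### local bounds for the logarithmic derivative -/

lemma local_logDeriv {F : ℂ → ℂ} {z : ℂ} (hF : AnalyticAt ℂ F z) (hfr : ∃ᶠ s in 𝓝 z, F s ≠ 0) :
    ∃ C : ℝ, 0 ≤ C ∧ ∀ᶠ s in 𝓝 z, s ≠ z → ‖deriv F s / F s‖ ≤ C * (1 + 1 / ‖s - z‖) := by
  have hord : analyticOrderAt F z ≠ ⊤ := by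
    intro h
    rw [analyticOrderAt_eq_top] at h
    exact hfr (h.mono fun s hs hs' => hs' hs)
  obtain ⟨g, hg1, hg2, hg3⟩ := (hF.analyticOrderAt_ne_top).1 hord
  set n := (analyticOrderAt F z).toNat with hn
  -- bound for `g'/g`
  have hc : ContinuousAt (fun s => deriv g s / g s) z :=
    hg1.deriv.continuousAt.div hg1.continuousAt hg2
  have hb : ∀ᶠ s in 𝓝 z, ‖deriv g s / g s‖ < ‖deriv g z / g z‖ + 1 :=
    hc.norm.eventually (gt_mem_nhds (by linarith))
  have hg4 : ∀ᶠ s in 𝓝 z, g s ≠ 0 := hg1.continuousAt.eventually_ne hg2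
  have hg5 : ∀ᶠ s in 𝓝 z, AnalyticAt ℂ g s := hg1.eventually_analyticAt
  have hg6 : ∀ᶠ s in 𝓝 z, ∀ᶠ w in 𝓝 s, F w = (w - z) ^ n • g w := hg3.eventually_nhds
  refine ⟨max (n : ℝ) (‖deriv g z / g z‖ + 1), by positivity, ?_⟩
  filter_upwards [hb, hg4, hg5, hg6] with s h1 h2 h3 h4 hne
  have hsz : s - z ≠ 0 := sub_ne_zero.2 hne
  have hd : HasDerivAt F ((n * (s - z) ^ (n - 1)) * g s + (s - z) ^ n * deriv g s) s := by
    have e1 : HasDerivAt (fun w => (w - z) ^ n) (n * (s - z) ^ (n - 1)) s :=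
      (((hasDerivAt_id s).sub_const z).pow n).congr_deriv (by simp)
    have e2 := e1.mul h3.differentiableAt.hasDerivAt
    refine e2.congr_of_eventuallyEq ?_
    filter_upwards [h4] with w hw
    rw [hw, smul_eq_mul]
    rfl
  have hval : deriv F s / F s = n / (s - z) + deriv g s / g s := by
    rw [hd.deriv, h4.self_of_nhds, smul_eq_mul]
    rcases Nat.eq_zero_or_pos n with h0 | h0
    · rw [h0]; simp
    · obtain ⟨m, hm⟩ : ∃ m, n = m + 1 := ⟨n - 1, by omega⟩
      rw [hm]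
      simp only [Nat.add_sub_cancel, pow_succ]
      have := pow_ne_zero m hsz
      push_cast
      field_simp
  rw [hval]
  have hpos : 0 < ‖s - z‖ := norm_pos_iff.2 hsz
  calc ‖(n:ℂ) / (s - z) + deriv g s / g s‖ ≤ ‖(n:ℂ) / (s - z)‖ + ‖deriv g s / g s‖ := norm_add_le _ _
    _ ≤ n * (1 / ‖s - z‖) + (‖deriv g z / g z‖ + 1) := by
        rw [norm_div, Complex.norm_natCast, mul_one_div]
        linarith
    _ ≤ max (n : ℝ) (‖deriv g z / g z‖ + 1) * (1 / ‖s - z‖) +
        max (n : ℝ) (‖deriv g z / g z‖ + 1) := by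
        gcongr
        · exact le_max_left _ _
        · exact le_max_right _ _
    _ = _ := by ring

lemma local_logDeriv' {F : ℂ → ℂ} {z : ℂ} (hF : AnalyticAt ℂ F z) (h0 : F z ≠ 0) :
    ∃ C : ℝ, 0 ≤ C ∧ ∀ᶠ s in 𝓝 z, ‖deriv F s / F s‖ ≤ C := by
  have hc : ContinuousAt (fun s => deriv F s / F s) z :=
    hF.deriv.continuousAt.div hF.continuousAt h0
  have hb : ∀ᶠ s in 𝓝 z, ‖deriv F s / F s‖ < ‖deriv F z / F z‖ + 1 :=
    hc.norm.eventually (gt_mem_nhds (by linarith))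
  exact ⟨_, by positivity, hb.mono fun s hs => hs.le⟩

/-- for points of the sector near a point of the closed sector -/
lemma sector_logDeriv {F : ℂ → ℂ} (k : ℕ) (hk : 1 ≤ k) (h0 : ∀ s ∈ Sec k, F s ≠ 0) {z : ℂ}
    (hz : z ∈ CSec k) (hF : AnalyticAt ℂ F z) (hcl : z ∈ closure (Sec k)) :
    ∃ C : ℝ, 0 ≤ C ∧ ∀ᶠ s in 𝓝 z, s ∈ Sec k → ‖deriv F s / F s‖ ≤ C * (1 + 1 / (s ^ (2 ^ k)).re) := by
  by_cases hz0 : F z = 0
  · have hzS : z ∉ Sec k := fun h => h0 z h hz0
    have hre := pow_re_nonpos k hk hz hzS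
    have hfr : ∃ᶠ s in 𝓝 z, F s ≠ 0 :=
      (mem_closure_iff_frequently.1 hcl).mono fun s hs => h0 s hs
    obtain ⟨C, hC, hev⟩ := local_logDeriv hF hfr
    -- the power map is Lipschitz near `z`
    have hlip : ∃ L : ℝ, 0 < L ∧ ∀ᶠ s in 𝓝 z, ‖s ^ (2 ^ k) - z ^ (2 ^ k)‖ ≤ L * ‖s - z‖ := by
      have hd : HasDerivAt (fun s : ℂ => s ^ (2 ^ k)) (((2 ^ k : ℕ) : ℂ) * z ^ (2 ^ k - 1)) z :=
        hasDerivAt_pow _ _
      obtain ⟨L, hL⟩ := hd.isBigO_sub.bound
      refine ⟨max L 1, by positivity, ?_⟩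
      filter_upwards [hL] with s hs
      exact hs.trans (mul_le_mul_of_nonneg_right (le_max_left _ _) (norm_nonneg _))
    obtain ⟨L, hL0, hL⟩ := hlip
    refine ⟨C * (1 + L), by positivity, ?_⟩
    filter_upwards [hev, hL] with s h1 h2 hs
    have hne : s ≠ z := by rintro rfl; exact hzS hs
    have hpos : 0 < ‖s - z‖ := norm_pos_iff.2 (sub_ne_zero.2 hne)
    have hsre : 0 < (s ^ (2 ^ k)).re := (pow_mem_RHP k hk hs).1
    have h3 : (s ^ (2 ^ k)).re ≤ L * ‖s - z‖ := by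
      calc (s ^ (2 ^ k)).re ≤ (s ^ (2 ^ k) - z ^ (2 ^ k)).re := by rw [Complex.sub_re]; linarith
        _ ≤ ‖s ^ (2 ^ k) - z ^ (2 ^ k)‖ := Complex.re_le_norm _
        _ ≤ _ := h2
    have h4 : 1 / ‖s - z‖ ≤ L / (s ^ (2 ^ k)).re := by
      rw [div_le_div_iff₀ hpos hsre]; linarith
    calc ‖deriv F s / F s‖ ≤ C * (1 + 1 / ‖s - z‖) := h1 hne
      _ ≤ C * (1 + L / (s ^ (2 ^ k)).re) := by gcongr
      _ ≤ C * ((1 + L) * (1 + 1 / (s ^ (2 ^ k)).re)) := by
          refine mul_le_mul_of_nonneg_left ?_ hC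
          have : 0 < 1 / (s ^ (2 ^ k)).re := by positivity
          have e : L / (s ^ (2 ^ k)).re = L * (1 / (s ^ (2 ^ k)).re) := by ring
          rw [e]
          nlinarith
      _ = _ := by ring
  · obtain ⟨C, hC, hev⟩ := local_logDeriv' hF hz0
    refine ⟨C, hC, ?_⟩
    filter_upwards [hev] with s h1 hs
    have hsre : 0 < (s ^ (2 ^ k)).re := (pow_mem_RHP k hk hs).1
    refine h1.trans ?_
    have : 0 ≤ C * (1 / (s ^ (2 ^ k)).re) := by positivity
    linarith

end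

end Pool.Agent.W334.BSD
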