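import Pool.Agent.W334.BSD.Abs

/-!
# The abstract equivalence: growth of the averages and zeros in a sector, II
-/

set_option autoImplicit false
open MeasureTheory Set Filter Topology

namespace Pool.Agent.W334.BSD

noncomputable section

lemma mem_closure_Sec (k : ℕ) (hk : 1 ≤ k) {z : ℂ} (hz : z ∈ CSec k) : z ∈ closure (Sec k) := by
  have h1 : Tendsto (fun x : ℝ => z + (x : ℂ)) (𝓝[>] 0) (𝓝 z) := by
    have h2 : Continuous (fun x : ℝ => z + (x : ℂ)) := by fun_prop
    have h3 := (h2.tendsto 0).mono_left (nhdsWithin_le_nhds (s := Ioi (0:ℝ)))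
    simpa using h3
  refine mem_closure_of_tendsto h1 ?_
  filter_upwards [self_mem_nhdsWithin] with x hx
  have hx0 : (0:ℝ) < x := hx
  have ht := tan_pos' k hk
  obtain ⟨h3, h4⟩ := hz
  refine ⟨?_, ?_⟩
  · rw [Complex.add_re, Complex.ofReal_re]; linarith
  · rw [Complex.add_re, Complex.ofReal_re, Complex.add_im, Complex.ofReal_im, add_zero]
    have := mul_pos ht hx0
    rw [mul_add]
    linarith

lemma CSec_closed (k : ℕ) : IsClosed (CSec k) := by
  refine (isClosed_le continuous_const Complex.continuous_re).inter ?_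
  exact isClosed_le Complex.continuous_im.abs (continuous_const.mul Complex.continuous_re)

lemma compact_part (k : ℕ) (hk : 1 ≤ k) : IsCompact (CSec k ∩ {s | s.re ≤ 2}) := by
  refine Metric.isCompact_of_isClosed_isBounded
    ((CSec_closed k).inter (isClosed_le Complex.continuous_re continuous_const)) ?_
  refine (Metric.isBounded_closedBall (x := (0:ℂ)) (r := 4)).subset fun s hs => ?_
  rw [mem_closedBall_zero_iff]
  have h1 := norm_le_of_CSec k hk hs.1
  have h2 : s.re ≤ 2 := hs.2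
  linarith

lemma pow_smul_re (k : ℕ) (x : ℝ) (s : ℂ) :
    (((x : ℂ) * s) ^ (2 ^ k)).re = x ^ (2 ^ k) * (s ^ (2 ^ k)).re := by
  rw [mul_pow, ← Complex.ofReal_pow, Complex.re_ofReal_mul]

/-- the case of nonvanishing at the vertex -/
theorem bounded0 {k : ℕ} (hk : 1 ≤ k) {A : ℝ → ℝ} {C : ℝ} (hA : Tame A C) {F : ℂ → ℂ}
    (hF : ∀ z ∈ CSec k, AnalyticAt ℂ F z) (hFA : ∀ s : ℂ, 1 < s.re → F s = Complex.exp (s * LT A s))
    (h0 : ∀ s ∈ Sec k, F s ≠ 0) (h00 : F 0 ≠ 0) :
    ∃ C' : ℝ, ∀ v : ℝ, 1 ≤ v → |gaussAvg^[k] A v| ≤ C' := by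
  have hC := hA.C_nonneg
  have hFd : DifferentiableOn ℂ F (Sec k) := fun s hs =>
    (hF s (Sec_sub_CSec k hs)).differentiableAt.differentiableWithinAt
  have h2mem : ((2:ℝ) : ℂ) ∈ Sec k := ofReal_mem_Sec k hk (by norm_num)
  obtain ⟨ℓ, hℓ1, hℓ2⟩ := exists_log (Sec_open k) (Sec_convex k) ⟨_, h2mem⟩ hFd h0
  set G : ℂ → ℂ := fun s => s * LT A s with hG
  set V : Set ℂ := Sec k ∩ {s | 1 < s.re} with hV
  have hVo : IsOpen V := (Sec_open k).inter (halfplane_open 1)
  have hVc : IsPreconnected V := ((Sec_convex k).inter (halfplane_convex 1)).isPreconnected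
  have hGd : DifferentiableOn ℂ G {s | 1 < s.re} := fun s hs =>
    (differentiableAt_id.mul (hA.differentiableAt hs)).differentiableWithinAt
  have h2V : ((2:ℝ) : ℂ) ∈ V := ⟨h2mem, by show (1:ℝ) < (((2:ℝ)) : ℂ).re; simp⟩
  have huniq := log_unique hVo hVc (f := G) (g := ℓ) (hGd.mono fun q hq => hq.2)
    (hℓ1.mono fun q hq => hq.1) (fun q hq => by rw [hℓ2 q hq.1, hFA q hq.2]) h2V
  set c : ℂ := G ((2:ℝ):ℂ) - ℓ ((2:ℝ):ℂ) with hc
  set H : ℂ → ℂ := fun s => ℓ s + c with hH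
  have hHd : DifferentiableOn ℂ H (Sec k) := hℓ1.add_const c
  have hHG : ∀ s ∈ V, H s = G s := by
    intro s hs
    have := huniq s hs
    rw [hH]
    simp only
    linear_combination (-1 : ℂ) * this
  have hderivH : ∀ s ∈ Sec k, deriv H s = deriv F s / F s := by
    intro s hs
    have h1 : deriv H s = deriv ℓ s := by rw [hH]; exact deriv_add_const c
    have h2 : F =ᶠ[𝓝 s] fun w => Complex.exp (ℓ w) := by
      filter_upwards [(Sec_open k).mem_nhds hs] with w hw using (hℓ2 w hw).symm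
    have h3 := (hℓ1.differentiableAt ((Sec_open k).mem_nhds hs)).hasDerivAt.cexp.deriv
    rw [h1, h2.deriv_eq, h3, ← hℓ2 s hs, mul_div_cancel_left₀ _ (Complex.exp_ne_zero _)]
  have hHat : ∀ s ∈ Sec k, DifferentiableAt ℂ H s := fun s hs =>
    hHd.differentiableAt ((Sec_open k).mem_nhds hs)
  -- the region of large real part
  have hfar : ∀ s ∈ Sec k, 2 ≤ s.re → ‖H s‖ ≤ 4 * C ∧ ‖s * deriv H s‖ ≤ 20 * C := by
    intro s hs h2
    have hsV : s ∈ V := ⟨hs, by show 1 < s.re; linarith⟩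
    have h3 := far_bound hA h2 (norm_le_of_CSec k hk (Sec_sub_CSec k hs))
    have h4 : H =ᶠ[𝓝 s] G := by
      filter_upwards [hVo.mem_nhds hsV] with w hw using hHG w hw
    rw [hHG s hsV, h4.deriv_eq]
    exact h3
  -- the compact part
  obtain ⟨D, hD0, hD⟩ : ∃ D : ℝ, 0 ≤ D ∧ ∀ s ∈ CSec k ∩ {s | s.re ≤ 2}, s ∈ Sec k →
      ‖deriv F s / F s‖ ≤ D * (1 + 1 / (s ^ (2 ^ k)).re) := by
    refine (compact_part k hk).induction_on (p := fun S => ∃ D : ℝ, 0 ≤ D ∧ ∀ s ∈ S, s ∈ Sec k →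
      ‖deriv F s / F s‖ ≤ D * (1 + 1 / (s ^ (2 ^ k)).re)) ?_ ?_ ?_ ?_
    · exact ⟨0, le_rfl, fun s hs => absurd hs (notMem_empty s)⟩
    · rintro S T hST ⟨D, hD, h⟩
      exact ⟨D, hD, fun s hs => h s (hST hs)⟩
    · rintro S T ⟨D, hD, h⟩ ⟨E, hE, h'⟩
      refine ⟨max D E, le_max_of_le_left hD, ?_⟩
      intro s hs hsS
      have hp : 0 < (s ^ (2 ^ k)).re := (pow_mem_RHP k hk hsS).1
      have hp1 : 0 ≤ 1 + 1 / (s ^ (2 ^ k)).re := by positivity
      rcases hs with hs | hs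
      · exact (h s hs hsS).trans (mul_le_mul_of_nonneg_right (le_max_left _ _) hp1)
      · exact (h' s hs hsS).trans (mul_le_mul_of_nonneg_right (le_max_right _ _) hp1)
    · intro z hz
      obtain ⟨D, hD, hev⟩ := sector_logDeriv k hk h0 hz.1 (hF z hz.1) (mem_closure_Sec k hk hz.1)
      exact ⟨_, mem_nhdsWithin_of_mem_nhds hev, D, hD, fun s hs => hs⟩
  have hmid : ∀ s ∈ Sec k, s.re ≤ 2 → ‖H s‖ ≤ 4 * C + 8 * (D * (1 + 1 / (s ^ (2 ^ k)).re)) ∧
      ‖s * deriv H s‖ ≤ 4 * (D * (1 + 1 / (s ^ (2 ^ k)).re)) := by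
    intro s hs h2
    have hre : 0 < s.re := hs.1
    have hp : 0 < (s ^ (2 ^ k)).re := (pow_mem_RHP k hk hs).1
    have hn : ‖s‖ ≤ 2 * s.re := norm_le_of_CSec k hk (Sec_sub_CSec k hs)
    set M : ℝ := D * (1 + 1 / (s ^ (2 ^ k)).re) with hM
    have hM0 : 0 ≤ M := by positivity
    constructor
    · set x : ℝ := 2 / s.re with hx
      have hx1 : 1 ≤ x := by rw [hx, le_div_iff₀ hre]; linarith
      set s1 : ℂ := (x : ℂ) * s with hs1
      have hs1re : s1.re = 2 := by rw [hs1, Complex.re_ofReal_mul, hx]; field_simp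
      have hs1S : s1 ∈ Sec k := smul_mem_Sec k hs (by linarith)
      have hseg : ∀ w ∈ segment ℝ s s1, ∃ μ : ℝ, 1 ≤ μ ∧ μ ≤ x ∧ w = (μ : ℂ) * s := by
        rintro w ⟨a, b, ha, hb, hab, rfl⟩
        refine ⟨a + b * x, ?_, ?_, ?_⟩
        · nlinarith
        · nlinarith
        · rw [hs1]
          simp only [Complex.real_smul]
          push_cast
          ring
      have hb := Convex.norm_image_sub_le_of_norm_deriv_le (f := H) (s := segment ℝ s s1) (C := M)
        (x := s) (y := s1) ?_ ?_ (convex_segment s s1) (left_mem_segment ℝ s s1)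
        (right_mem_segment ℝ s s1)
      · have h5 := (hfar s1 hs1S hs1re.ge).1
        have h6 : ‖s1‖ ≤ 4 := by
          have := norm_le_of_CSec k hk (Sec_sub_CSec k hs1S)
          rw [hs1re] at this
          linarith
        have h7 : ‖s1 - s‖ ≤ 8 := (norm_sub_le _ _).trans (by linarith)
        have h8 : ‖H s‖ ≤ ‖H s1‖ + ‖H s1 - H s‖ := by
          have := norm_sub_norm_le (H s) (H s1)
          rw [norm_sub_rev] at this
          linarith
        calc ‖H s‖ ≤ ‖H s1‖ + ‖H s1 - H s‖ := h8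
          _ ≤ 4 * C + M * ‖s1 - s‖ := add_le_add h5 hb
          _ ≤ 4 * C + M * 8 := by gcongr
          _ = _ := by ring
      · intro w hw
        obtain ⟨μ, h1, h2', rfl⟩ := hseg w hw
        exact hHat _ (smul_mem_Sec k hs (by linarith))
      · intro w hw
        obtain ⟨μ, h1, h2', rfl⟩ := hseg w hw
        have hwS : (μ : ℂ) * s ∈ Sec k := smul_mem_Sec k hs (by linarith)
        rw [hderivH _ hwS]
        refine (hD _ ⟨Sec_sub_CSec k hwS, ?_⟩ hwS).trans ?_
        · show ((μ : ℂ) * s).re ≤ 2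
          rw [Complex.re_ofReal_mul]
          calc μ * s.re ≤ x * s.re := mul_le_mul_of_nonneg_right h2' hre.le
            _ = 2 := by rw [hx]; field_simp
        · rw [hM, pow_smul_re]
          have h9 : (1:ℝ) ≤ μ ^ (2 ^ k) := one_le_pow₀ h1
          gcongr
          nlinarith
    · rw [hderivH s hs, norm_mul]
      have := hD s ⟨Sec_sub_CSec k hs, h2⟩ hs
      calc ‖s‖ * ‖deriv F s / F s‖ ≤ 4 * M := mul_le_mul (by linarith) this (norm_nonneg _) (by norm_num)
        _ = _ := rfl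
  have hall : ∀ s ∈ Sec k, ‖H s‖ + ‖s * deriv H s‖ ≤
      (24 * C + 12 * D) * (1 + 1 / (s ^ (2 ^ k)).re) := by
    intro s hs
    have hp : 0 < (s ^ (2 ^ k)).re := (pow_mem_RHP k hk hs).1
    have hp1 : 0 < 1 / (s ^ (2 ^ k)).re := by positivity
    rcases le_or_gt s.re 2 with h | h
    · obtain ⟨h1, h2⟩ := hmid s hs h
      have : 0 ≤ C * (1 / (s ^ (2 ^ k)).re) := by positivity
      nlinarith
    · obtain ⟨h1, h2⟩ := hfar s hs h.le
      have e1 : 0 ≤ C * (1 / (s ^ (2 ^ k)).re) := by positivity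
      have e2 : 0 ≤ D * (1 / (s ^ (2 ^ k)).re) := by positivity
      nlinarith
  -- near the vertex
  have h0C : (0:ℂ) ∈ CSec k := ⟨by simp, by simp⟩
  obtain ⟨E, hE0, hE⟩ := local_logDeriv' (hF 0 h0C) h00
  obtain ⟨r, hr, hball⟩ := Metric.eventually_nhds_iff_ball.1 hE
  set sb : ℂ := ((r / 2 : ℝ) : ℂ) with hsb
  have hsbS : sb ∈ Sec k := ofReal_mem_Sec k hk (by positivity)
  have hsbn : ‖sb‖ = r / 2 := by rw [hsb, Complex.norm_real, Real.norm_of_nonneg (by positivity)]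
  have hnear : ∀ s ∈ Sec k, ‖s‖ < r → ‖H s‖ + ‖s * deriv H s‖ ≤ ‖H sb‖ + 3 * r * E := by
    intro s hs hsr
    have hb := Convex.norm_image_sub_le_of_norm_deriv_le (f := H) (s := Sec k ∩ Metric.ball 0 r) (C := E)
      (x := sb) (y := s) (fun w hw => hHat w hw.1) (fun w hw => by
        rw [hderivH w hw.1]; exact hball w hw.2) ((Sec_convex k).inter (convex_ball _ _))
      ⟨hsbS, by rw [mem_ball_zero_iff, hsbn]; linarith⟩ ⟨hs, by rw [mem_ball_zero_iff]; exact hsr⟩
    have h1 : ‖s - sb‖ ≤ 2 * r := (norm_sub_le _ _).trans (by rw [hsbn]; linarith)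
    have h2 : ‖H s‖ ≤ ‖H sb‖ + ‖H s - H sb‖ := by
      have := norm_sub_norm_le (H s) (H sb)
      linarith
    have h3 : ‖s * deriv H s‖ ≤ r * E := by
      rw [norm_mul, hderivH s hs]
      exact mul_le_mul hsr.le (hball s (by rw [mem_ball_zero_iff]; exact hsr)) (norm_nonneg _) hr.le
    have h4 : E * ‖s - sb‖ ≤ E * (2 * r) := mul_le_mul_of_nonneg_left h1 hE0
    linarith
  -- transfer to the half plane
  set h : ℂ → ℂ := fun q => H (csq^[k] q) with hh
  have hhd : ∀ q ∈ RHP, HasDerivAt h (deriv H (csq^[k] q) * (csq^[k] q / (2 ^ k * q))) q := by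
    intro q hq
    exact (hHat _ (csqI_mem_Sec k hk hq)).hasDerivAt.comp q (hasDerivAt_csqI k hq)
  have hqd : ∀ q ∈ RHP, ‖q * deriv h q‖ ≤ ‖csq^[k] q * deriv H (csq^[k] q)‖ := by
    intro q hq
    have hq0 : q ≠ 0 := by rintro rfl; simp [RHP] at hq
    rw [(hhd q hq).deriv]
    have e : q * (deriv H (csq^[k] q) * (csq^[k] q / (2 ^ k * q))) =
        (csq^[k] q * deriv H (csq^[k] q)) / 2 ^ k := by field_simp
    rw [e, norm_div]
    apply div_le_self (norm_nonneg _)
    rw [norm_pow]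
    apply one_le_pow₀
    simp
  obtain ⟨j, rfl⟩ : ∃ j, k = j + 1 := ⟨k - 1, by omega⟩
  refine bounded_of_transform (hA.iter (j + 1)) ?_ (h := h) ?_ ?_
    (M := max (24 * C + 12 * D) (‖H sb‖ + 3 * r * E)) (r := r ^ (2 ^ (j + 1))) (by positivity) ?_ ?_
  · rw [Function.iterate_succ']
    exact (hA.iter j).continuousOn_gaussAvg
  · intro q hq
    exact (hhd q hq).differentiableAt.differentiableWithinAt
  · intro q hq
    have hq0 : q ≠ 0 := by rintro rfl; simp at hq; linarith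
    rw [eq_div_iff hq0, mul_comm, LT_iter hA (j + 1) hq]
    rw [hh]
    simp only
    have h1 : csq^[j + 1] q ∈ V :=
      ⟨csqI_mem_Sec (j + 1) hk (show 0 < q.re by linarith), iter_re (j + 1) hq⟩
    rw [hHG _ h1]
  · intro q hq hqr
    have hs := csqI_mem_Sec (j + 1) hk (show q ∈ RHP from hq)
    have hsr : ‖csq^[j + 1] q‖ < r := by
      by_contra hcon
      push Not at hcon
      have h1 : r ^ (2 ^ (j + 1)) ≤ ‖csq^[j + 1] q‖ ^ (2 ^ (j + 1)) := pow_le_pow_left₀ hr.le hcon _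
      rw [← norm_pow, csqI_pow] at h1
      linarith
    have h1 := hnear _ hs hsr
    have h2 := hqd q hq
    calc ‖h q‖ + ‖q * deriv h q‖ ≤ ‖H (csq^[j + 1] q)‖ + ‖csq^[j + 1] q * deriv H (csq^[j + 1] q)‖ :=
          add_le_add le_rfl h2
      _ ≤ _ := h1.trans (le_max_right _ _)
  · intro q hq hqr
    have hs := csqI_mem_Sec (j + 1) hk (show q ∈ RHP from hq)
    have h1 := hall _ hs
    rw [csqI_pow] at h1
    have h2 := hqd q hq
    have hq0 : 0 < q.re := hq
    calc ‖h q‖ + ‖q * deriv h q‖ ≤ ‖H (csq^[j + 1] q)‖ + ‖csq^[j + 1] q * deriv H (csq^[j + 1] q)‖ :=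
          add_le_add le_rfl h2
      _ ≤ _ := h1
      _ ≤ _ := mul_le_mul_of_nonneg_right (le_max_left _ _) (by positivity)

/-- **Direct theorem**: no zeros in the sector implies the asymptotic formula. -/
theorem direct {k : ℕ} (hk : 1 ≤ k) {B : ℝ → ℝ} {C : ℝ} (hB : Tame B C) {F : ℂ → ℂ}
    (hF : ∀ z ∈ CSec k, AnalyticAt ℂ F z) (hFB : ∀ s : ℂ, 1 < s.re → F s = Complex.exp (s * LT B s))
    (h0 : ∀ s ∈ Sec k, F s ≠ 0) {ρ : ℕ} (hρ : analyticOrderAt F 0 = ρ) :
    ∃ C' : ℝ, ∀ v : ℝ, 1 ≤ v → |gaussAvg^[k] B v + (ρ / 2 ^ k) * Real.log v| ≤ C' := by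
  have h0C : (0:ℂ) ∈ CSec k := ⟨by simp, by simp⟩
  obtain ⟨g, hg1, hg2, hg3⟩ := ((hF 0 h0C).analyticOrderAt_eq_natCast).1 hρ
  set F2 : ℂ → ℂ := fun s => if s = 0 then g 0 else F s / s ^ ρ * (1 + s) ^ ρ with hF2
  have hA : Tame (fun t => B t + ρ * mm t) (C + |(ρ:ℝ)| * 1) := hB.add (tame_mm.const_mul ρ)
  have hF2an : ∀ z ∈ CSec k, AnalyticAt ℂ F2 z := by
    intro z hz
    by_cases hz0 : z = 0
    · subst hz0
      have h1 : (fun s => g s * (1 + s) ^ ρ) =ᶠ[𝓝 0] F2 := by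
        filter_upwards [hg3] with s hs
        rw [hF2]
        simp only
        split_ifs with h
        · rw [h]; simp
        · rw [hs, sub_zero, smul_eq_mul, mul_div_cancel_left₀ _ (pow_ne_zero ρ h)]
      refine AnalyticAt.congr ?_ h1
      exact hg1.mul ((analyticAt_const.add analyticAt_id).pow ρ)
    · have h1 : (fun s => F s / s ^ ρ * (1 + s) ^ ρ) =ᶠ[𝓝 z] F2 := by
        filter_upwards [isOpen_ne.mem_nhds hz0] with s hs
        rw [hF2]
        simp only
        rw [if_neg hs]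
      refine AnalyticAt.congr ?_ h1
      exact ((hF z hz).div (analyticAt_id.pow ρ) (pow_ne_zero ρ hz0)).mul
        ((analyticAt_const.add analyticAt_id).pow ρ)
  have hF2B : ∀ s : ℂ, 1 < s.re → F2 s = Complex.exp (s * LT (fun t => B t + ρ * mm t) s) := by
    intro s hs
    have hs0 : s ≠ 0 := by rintro rfl; simp at hs; linarith
    have hs1 : 1 + s ≠ 0 := by
      intro h
      have : (1 + s).re = 0 := by rw [h]; simp
      rw [Complex.add_re, Complex.one_re] at this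
      linarith
    rw [hF2]
    simp only
    rw [if_neg hs0, LT_add hB (tame_mm.const_mul ρ) hs, LT_const_mul, mul_add, Complex.exp_add,
      ← hFB s hs]
    have h1 : s * (((ρ:ℝ):ℂ) * LT mm s) = (ρ : ℂ) * (Complex.log (1 + s) - Complex.log s) := by
      rw [← LT_mm hs]; push_cast; ring
    rw [h1, Complex.exp_nat_mul, Complex.exp_sub, Complex.exp_log hs0, Complex.exp_log hs1, div_pow]
    ring
  have h2 : ∀ s ∈ Sec k, F2 s ≠ 0 := by
    intro s hs
    have hs0 : s ≠ 0 := by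
      rintro rfl
      have := hs.1
      simp at this
    have hs1 : 1 + s ≠ 0 := by
      intro h
      have : (1 + s).re = 0 := by rw [h]; simp
      rw [Complex.add_re, Complex.one_re] at this
      linarith [hs.1]
    rw [hF2]
    simp only
    rw [if_neg hs0]
    exact mul_ne_zero (div_ne_zero (h0 s hs) (pow_ne_zero ρ hs0)) (pow_ne_zero ρ hs1)
  have h3 : F2 0 ≠ 0 := by rw [hF2]; simpa using hg2
  obtain ⟨C1, hC1⟩ := bounded0 hk hA hF2an hF2B h2 h3
  obtain ⟨C2, hC2⟩ := iter_mm k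
  refine ⟨C1 + ρ * C2, fun v hv => ?_⟩
  have hv0 : 0 < v := by linarith
  have h4 := hC1 v hv
  rw [iter_add hB (tame_mm.const_mul ρ) k hv0, iter_const_mul mm ρ k hv0] at h4
  have h5 : |(ρ:ℝ) * gaussAvg^[k] mm v - (ρ:ℝ) * ((1 / 2 ^ k) * Real.log v)| ≤ ρ * C2 := by
    rw [← mul_sub, abs_mul, Nat.abs_cast]
    exact mul_le_mul_of_nonneg_left (hC2 v hv) (Nat.cast_nonneg _)
  have h6 : ((ρ:ℝ) / 2 ^ k) * Real.log v = (ρ:ℝ) * ((1 / 2 ^ k) * Real.log v) := by ring
  rw [h6]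
  rw [abs_le] at h4 h5 ⊢
  constructor <;> linarith [h4.1, h4.2, h5.1, h5.2]

/-- **Converse theorem**: a one-sided bound implies that there are no zeros in the sector. -/
theorem converse {k : ℕ} (hk : 1 ≤ k) {B : ℝ → ℝ} {C : ℝ} (hB : Tame B C) {F : ℂ → ℂ}
    (hF : ∀ z ∈ Sec k, AnalyticAt ℂ F z) (hFB : ∀ s : ℂ, 1 < s.re → F s = Complex.exp (s * LT B s))
    {c D : ℝ} (hbd : ∀ v : ℝ, 1 ≤ v → -(c * Real.log v) - D ≤ gaussAvg^[k] B v) :
    ∀ s ∈ Sec k, F s ≠ 0 := by
  set T : ℝ → ℝ := fun v => gaussAvg^[k] B v + |c| * mm v + (|c| * 2 + |D|) with hT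
  have hTt : Tame T (2 ^ k * C + |(|c|)| * 1 + |(|c| * 2 + |D|)|) := by
    rw [hT]
    exact ((hB.iter k).add (tame_mm.const_mul |c|)).add (tame_const _)
  have hpos : ∀ v, 1 ≤ v → 0 ≤ T v := by
    intro v hv
    have hv0 : 0 < v := by linarith
    have h1 := hbd v hv
    have h2 := (abs_le.1 (abs_mm_sub_lp hv0)).1
    rw [lp_of_one_le hv] at h2
    have hl := Real.log_nonneg hv
    have h3 : c * Real.log v ≤ |c| * Real.log v := mul_le_mul_of_nonneg_right (le_abs_self c) hl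
    have h4 : |c| * Real.log v ≤ |c| * (mm v + 2) := mul_le_mul_of_nonneg_left (by linarith) (abs_nonneg c)
    have h5 := le_abs_self D
    rw [hT]
    simp only
    nlinarith
  set Λ : ℂ → ℂ := fun q => (|c| : ℝ) * (Complex.log (1 + q) - Complex.log q) + ((|c| * 2 + |D| : ℝ) : ℂ)
    with hΛ
  have hΛd : DifferentiableOn ℂ Λ RHP := by
    intro q hq
    have hq0 : 0 < q.re := hq
    have s1 : q ∈ Complex.slitPlane := Or.inl hq0
    have s2 : 1 + q ∈ Complex.slitPlane := by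
      left
      rw [Complex.add_re, Complex.one_re]; linarith
    have d1 : DifferentiableAt ℂ (fun q : ℂ => Complex.log (1 + q)) q :=
      (differentiableAt_id.const_add 1).clog s2
    have d2 : DifferentiableAt ℂ (fun q : ℂ => Complex.log q) q := differentiableAt_id.clog s1
    exact (((d1.sub d2).const_mul _).add_const _).differentiableWithinAt
  set Φ : ℂ → ℂ := fun q => F (csq^[k] q) with hΦ
  have hΦd : DifferentiableOn ℂ Φ RHP := by
    intro q hq
    exact ((hF _ (csqI_mem_Sec k hk hq)).differentiableAt.comp q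
      (hasDerivAt_csqI k hq).differentiableAt).differentiableWithinAt
  have key := nonvanishing_of_bound hTt (v0 := 1) hpos hΦd hΛd (fun q hq => by
    rw [hΦ]
    simp only
    rw [hFB _ (iter_re k hq), ← LT_iter hB k hq]
    congr 1
    have h1 : LT T q = LT (gaussAvg^[k] B) q + |c| * LT mm q + LT (fun _ => |c| * 2 + |D|) q := by
      rw [hT, LT_add ((hB.iter k).add (tame_mm.const_mul |c|)) (tame_const _) hq,
        LT_add (hB.iter k) (tame_mm.const_mul |c|) hq, LT_const_mul]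
    have h2 : q * LT (fun _ => |c| * 2 + |D|) q = ((|c| * 2 + |D| : ℝ) : ℂ) := by
      unfold LT
      have hq0 : q ≠ 0 := by rintro rfl; simp at hq; linarith
      rw [integral_const_mul, (int_cexp (by linarith : 0 < q.re)).2]
      field_simp
    rw [h1, hΛ]
    simp only
    rw [← LT_mm hq, ← h2]
    ring)
  intro s hs
  obtain ⟨h1, h2⟩ := pow_mem_RHP k hk hs
  have h3 := key _ h1
  rw [hΦ] at h3
  simp only at h3
  rwa [h2] at h3

end

end Pool.Agent.W334.BSD
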