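import Pool.Agent.W334.BSD.EP
import Pool.Agent.W334.BSD.Abs2
import Pool.Agent.H82R3.EK.FF
import Pool.Agent.Helper923.HMertens

/-!
# Elliptic curves over the rationals
-/

set_option autoImplicit false
open MeasureTheory Set Filter Topology

namespace Pool.Agent.W334.BSD

noncomputable section

/-- normalised Frobenius eigenvalue with trace `a` and norm `n` -/
def mkZ (a : ℝ) (n : ℕ) : ℂ := ⟨a / (2 * n), Real.sqrt (4 * n - a ^ 2) / (2 * n)⟩

lemma mkZ_norm {a : ℝ} {n : ℕ} (hn : 0 < n) (h : |a| ≤ 2 * Real.sqrt n) :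
    ‖mkZ a n‖ ^ 2 = 1 / (n : ℝ) := by
  have hn' : (0:ℝ) < n := by exact_mod_cast hn
  have h1 : a ^ 2 ≤ 4 * n := by
    have := pow_le_pow_left₀ (abs_nonneg a) h 2
    rw [sq_abs, mul_pow, Real.sq_sqrt hn'.le] at this
    linarith
  rw [← Complex.normSq_eq_norm_sq, Complex.normSq_apply]
  unfold mkZ
  simp only
  have h2 := Real.mul_self_sqrt (by linarith : 0 ≤ 4 * (n:ℝ) - a ^ 2)
  set S := Real.sqrt (4 * (n:ℝ) - a ^ 2) with hS
  have h3 : a / (2 * (n:ℝ)) * (a / (2 * (n:ℝ))) + S / (2 * (n:ℝ)) * (S / (2 * (n:ℝ))) =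
      (a ^ 2 + S * S) / (4 * (n:ℝ) ^ 2) := by
    field_simp
    ring
  rw [h3, h2]
  field_simp
  ring

open Polynomial in
/-- Hasse's bound -/
theorem hasse_fin {k : Type} [Field k] [Fintype k] (hk : ringChar k ≠ 2) (a b : k) :
    |(Fintype.card k : ℝ) - (Nat.card {q : k × k // q.2 ^ 2 = q.1 ^ 3 + a * q.1 + b} : ℝ)| ≤
      2 * Real.sqrt (Fintype.card k) := by
  classical
  set f : k[X] := X ^ 3 + C a * X + C b with hf
  have hdeg : f.natDegree = 3 := by rw [hf]; compute_degree!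
  have hns : ∀ (c : k) (h : k[X]), f ≠ C c * h ^ 2 := by
    intro c h hcon
    have h1 : (C c * h ^ 2).natDegree = 3 := by rw [← hcon, hdeg]
    rcases eq_or_ne c 0 with h0 | h0
    · rw [h0] at h1; simp at h1
    · rw [natDegree_C_mul h0, natDegree_pow] at h1
      omega
  have h1 := Pool.Agent.H341R2.Sharp.weil_sharp hk f (by rw [hdeg]; norm_num) hns
  rw [hdeg] at h1
  have h2 := Pool.Agent.H82R3.EK.card_points hk (fun x : k => x ^ 3 + a * x + b)
  have h3 : ∀ x : k, f.eval x = x ^ 3 + a * x + b := by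
    intro x; rw [hf]; simp
  simp_rw [h3] at h1
  have h4 : (Nat.card {q : k × k // q.2 ^ 2 = q.1 ^ 3 + a * q.1 + b} : ℝ) = Fintype.card k +
      ∑ x : k, (quadraticChar k (x ^ 3 + a * x + b) : ℝ) := by
    have := congrArg (fun z : ℤ => (z : ℝ)) h2
    push_cast at this
    exact this
  rw [h4, sub_add_cancel_left, abs_neg]
  refine h1.trans (le_of_eq ?_)
  norm_num

variable (a b : ℤ)

/-- the number of affine points modulo `p` -/
def npt (p : ℕ) : ℕ :=
  Nat.card {q : ZMod p × ZMod p // q.2 ^ 2 = q.1 ^ 3 + (a : ZMod p) * q.1 + (b : ZMod p)}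

/-- good primes -/
def Gd (p : ℕ) : Prop := p.Prime ∧ ¬ ((p : ℤ) ∣ 2 * (-4 * a ^ 3 - 27 * b ^ 2))

theorem hasse_p {p : ℕ} (h : Gd a b p) : |(p : ℝ) - npt a b p| ≤ 2 * Real.sqrt p := by
  have : Fact p.Prime := ⟨h.1⟩
  have h2 : ringChar (ZMod p) ≠ 2 := by
    rw [ZMod.ringChar_zmod_n]
    rintro rfl
    exact h.2 (dvd_mul_right _ _)
  have h1 := hasse_fin h2 (a : ZMod p) (b : ZMod p)
  rw [ZMod.card] at h1
  exact h1

/-- the index type of good primes -/
abbrev Idx := {p : ℕ // Gd a b p}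

theorem ep : EP (Idx a b) (fun p => (p : ℕ)) (fun p => mkZ ((p : ℕ) - npt a b p) p) where
  two := fun p => p.2.1.two_le
  norm := fun p => mkZ_norm p.2.1.pos (hasse_p a b p.2)
  summ := (Real.summable_nat_rpow.2 (by norm_num)).comp_injective Subtype.val_injective

/-- Mertens' bound for a short range -/
theorem mertens_range : ∃ C : ℝ, ∀ t : ℝ, 0 < t → ∀ s : Finset ℕ,
    (∀ p ∈ s, p.Prime ∧ Real.log p ≤ t ∧ t < 2 * Real.log p) → ∑ p ∈ s, 1 / (p : ℝ) ≤ C := by
  obtain ⟨C, hC0, hC⟩ := Pool.Agent.Helper923.HMertens.mertens_ratio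
  refine ⟨16 + (Real.log 4 + C / Real.log 2), fun t ht s hs => ?_⟩
  have hl2 : 0 < Real.log 2 := Real.log_pos (by norm_num)
  have hl4 : 0 < Real.log 4 := Real.log_pos (by norm_num)
  have hpp : ∀ p ∈ s, Real.exp (t / 2) < p ∧ (p : ℝ) ≤ Real.exp t := by
    intro p hp
    obtain ⟨h1, h2, h3⟩ := hs p hp
    have hp0 : (0:ℝ) < p := by exact_mod_cast h1.pos
    exact ⟨(Real.lt_log_iff_exp_lt hp0).1 (by linarith), (Real.log_le_iff_le_exp hp0).1 h2⟩
  rcases lt_or_ge (Real.exp (t / 2)) 4 with h | h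
  · have hsub : s ⊆ Finset.range 16 := by
      intro p hp
      rw [Finset.mem_range]
      have h1 := (hpp p hp).2
      have h2 : Real.exp t = Real.exp (t / 2) * Real.exp (t / 2) := by
        rw [← Real.exp_add]; ring_nf
      have h3 : (p : ℝ) < 16 := by
        rw [h2] at h1
        have := Real.exp_pos (t / 2)
        nlinarith
      exact_mod_cast h3
    have h1 : ∑ p ∈ s, 1 / (p : ℝ) ≤ ∑ p ∈ Finset.range 16, (1:ℝ) := by
      refine (Finset.sum_le_sum (g := fun _ => (1:ℝ)) fun p hp => ?_).trans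
        (Finset.sum_le_sum_of_subset_of_nonneg hsub fun _ _ _ => zero_le_one)
      have := (hs p hp).1.one_le
      rw [div_le_one (by exact_mod_cast (hs p hp).1.pos)]
      exact_mod_cast this
    rw [Finset.sum_const, Finset.card_range] at h1
    norm_num at h1
    have : 0 ≤ C / Real.log 2 := by positivity
    norm_num
    linarith
  · set A : ℕ := ⌊Real.exp (t / 2)⌋₊ with hA
    set B : ℕ := ⌊Real.exp t⌋₊ with hB
    have hA4 : 4 ≤ A := Nat.le_floor (by exact_mod_cast h)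
    have hAB : A ≤ B := Nat.floor_le_floor (Real.exp_le_exp.2 (by linarith))
    have h1 := hC A B (by omega) hAB
    have hsub : s ⊆ (Finset.Ioc A B).filter Nat.Prime := by
      intro p hp
      rw [Finset.mem_filter, Finset.mem_Ioc]
      obtain ⟨h2, h3⟩ := hpp p hp
      exact ⟨⟨(Nat.floor_lt (Real.exp_pos _).le).2 h2, Nat.le_floor h3⟩, (hs p hp).1⟩
    have h2 : ∑ p ∈ s, 1 / (p : ℝ) ≤ ∑ p ∈ (Finset.Ioc A B).filter Nat.Prime, 1 / (p : ℝ) :=
      Finset.sum_le_sum_of_subset_of_nonneg hsub fun _ _ _ => by positivity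
    have hA' : (4:ℝ) ≤ A := by exact_mod_cast hA4
    have hlA : Real.log 2 ≤ Real.log A := Real.log_le_log (by norm_num) (by linarith)
    have hlA0 : 0 < Real.log A := by linarith
    have h3 : C / Real.log A ≤ C / Real.log 2 := div_le_div_of_nonneg_left hC0 hl2 hlA
    have hBt : Real.log B ≤ t := by
      rw [Real.log_le_iff_le_exp (by have : (4:ℝ) ≤ B := by exact_mod_cast hA4.trans hAB
                                     linarith)]
      exact Nat.floor_le (Real.exp_pos _).le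
    have hAt : t / 4 ≤ Real.log A := by
      have e1 : Real.exp (t / 2) < A + 1 := Nat.lt_floor_add_one _
      have e2 : Real.exp (t / 2) ≤ 2 * A := by linarith
      have e3 : t / 2 ≤ Real.log (2 * A) := (Real.le_log_iff_exp_le (by positivity)).2 e2
      rw [Real.log_mul (by norm_num) (by linarith)] at e3
      have e4 : Real.log 2 ≤ t / 4 := by
        have e5 : Real.log 4 ≤ t / 2 := (Real.log_le_iff_le_exp (by norm_num)).2 h
        have e6 : Real.log 4 = 2 * Real.log 2 := by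
          rw [show (4:ℝ) = 2 ^ 2 by norm_num, Real.log_pow]; push_cast; ring
        linarith
      linarith
    have h4 : Real.log (Real.log B / Real.log A) ≤ Real.log 4 := by
      have hB0 : 0 < Real.log B := by
        have : (4:ℝ) ≤ B := by exact_mod_cast hA4.trans hAB
        exact Real.log_pos (by linarith)
      apply Real.log_le_log (by positivity)
      rw [div_le_iff₀ hlA0]
      linarith
    have h5 := (abs_le.1 h1).2
    linarith

/-- logarithm of the partial products of `(N_p + 1)/p` over `p ≤ e^t` -/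
def lgP (t : ℝ) : ℝ :=
  open Classical in
  ∑ p ∈ (Finset.range (⌊Real.exp t⌋₊ + 1)).filter (Gd a b), Real.log (((npt a b p : ℝ) + 1) / p)

theorem cf_eq (p : Idx a b) : cf (fun p : Idx a b => (p : ℕ)) (fun p => mkZ ((p : ℕ) - npt a b p) p) p =
    Real.log (((npt a b p : ℝ) + 1) / p) := by
  have hp : (0:ℝ) < (p : ℕ) := by exact_mod_cast p.2.1.pos
  unfold cf mkZ
  simp only
  congr 1
  field_simp
  ring

theorem DD_eq (t : ℝ) : DD (fun p : Idx a b => (p : ℕ)) (fun p => mkZ ((p : ℕ) - npt a b p) p) t =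
    lgP a b t := by
  classical
  unfold DD lgP
  set T : Finset ℕ := (Finset.range (⌊Real.exp t⌋₊ + 1)).filter (Gd a b) with hT
  set T' : Finset (Idx a b) := T.subtype (Gd a b) with hT'
  have h1 : ∀ p : Idx a b, p ∉ T' → (if Real.log ((p : ℕ) : ℝ) ≤ t then
      cf (fun p : Idx a b => (p : ℕ)) (fun p => mkZ ((p : ℕ) - npt a b p) p) p else 0) = 0 := by
    intro p hp
    rw [if_neg]
    intro hl
    apply hp
    have hp0 : (0:ℝ) < (p : ℕ) := by exact_mod_cast p.2.1.pos
    rw [hT', Finset.mem_subtype, hT, Finset.mem_filter, Finset.mem_range, Nat.lt_succ_iff]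
    exact ⟨Nat.le_floor ((Real.log_le_iff_le_exp hp0).1 hl), p.2⟩
  rw [tsum_eq_sum (s := T') (fun p hp => h1 p hp)]
  have h2 : ∑ p ∈ T, Real.log (((npt a b p : ℝ) + 1) / p) =
      ∑ p ∈ T', Real.log (((npt a b p : ℝ) + 1) / (p : ℕ)) := by
    have h3 := Finset.sum_subtype_of_mem (fun p : ℕ => Real.log (((npt a b p : ℝ) + 1) / p))
      (s := T) (p := Gd a b) (fun p hp => (Finset.mem_filter.1 hp).2)
    exact h3.symm
  rw [h2]
  refine Finset.sum_congr rfl fun p hp => ?_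
  have hp0 : (0:ℝ) < (p : ℕ) := by exact_mod_cast p.2.1.pos
  have hp1 : (p : ℕ) ∈ T := Finset.mem_subtype.1 hp
  rw [hT, Finset.mem_filter, Finset.mem_range, Nat.lt_succ_iff] at hp1
  rw [if_pos, cf_eq]
  rw [Real.log_le_iff_le_exp hp0]
  exact (Nat.le_floor_iff (Real.exp_pos _).le).1 hp1.1

/-- the summatory function of the logarithm of the L-series -/
def bQ : ℝ → ℝ := BB (fun p : Idx a b => (p : ℕ)) (fun p => mkZ ((p : ℕ) - npt a b p) p)

theorem tame_bQ : ∃ C : ℝ, Tame (bQ a b) C := ⟨_, (ep a b).tame⟩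

theorem lgP_close : ∃ E : ℝ, ∀ t : ℝ, 0 < t → |lgP a b t + bQ a b t| ≤ E := by
  obtain ⟨C, hC⟩ := mertens_range
  refine ⟨C + 4 * ∑' i : Idx a b, ((i : ℕ) : ℝ) ^ (-(3 / 2) : ℝ), fun t ht => ?_⟩
  rw [← DD_eq]
  refine ((ep a b).compare (C := C) ?_ t ht).2
  intro t ht s hs
  have h1 := hC t ht (s.map ⟨Subtype.val, Subtype.val_injective⟩) ?_
  · rw [Finset.sum_map] at h1
    exact h1
  · intro p hp
    rw [Finset.mem_map] at hp
    obtain ⟨i, hi, rfl⟩ := hp
    exact ⟨i.2.1, hs i hi⟩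

theorem lgP_meas : Measurable (lgP a b) := by
  classical
  have h1 : Measurable (fun n : ℕ => ∑ p ∈ (Finset.range (n + 1)).filter (Gd a b),
      Real.log (((npt a b p : ℝ) + 1) / p)) := measurable_from_top
  exact h1.comp (Nat.measurable_floor.comp Real.measurable_exp)

theorem tame_lgP : ∃ C : ℝ, Tame (lgP a b) C := by
  obtain ⟨C, hC⟩ := tame_bQ a b
  obtain ⟨E, hE⟩ := lgP_close a b
  refine ⟨C + |E|, lgP_meas a b, fun t ht => ?_⟩
  have h1 := hE t ht
  have h2 := hC.bound t ht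
  have h3 := Real.one_le_exp ht.le
  calc |lgP a b t| = |(lgP a b t + bQ a b t) - bQ a b t| := by rw [add_sub_cancel_right]
    _ ≤ |lgP a b t + bQ a b t| + |bQ a b t| := abs_sub _ _
    _ ≤ |E| * Real.exp t + C * Real.exp t := by
        refine add_le_add ?_ h2
        calc |lgP a b t + bQ a b t| ≤ E := h1
          _ ≤ |E| := le_abs_self E
          _ ≤ |E| * Real.exp t := le_mul_of_one_le_right (abs_nonneg _) h3
    _ = _ := by ring

/-- the L-series as an exponential -/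
theorem Lseries_eq {q : ℂ} (hq : 1 < q.re) {L : ℂ}
    (hL : HasProd (fun p : ℕ => open Classical in if Gd a b p then
      (1 - ((p : ℂ) - (npt a b p : ℂ)) * (p : ℂ) ^ (-(1 + q)) + (p : ℂ) ^ (1 - 2 * (1 + q)))⁻¹ else 1) L) :
    L = Complex.exp (q * LT (bQ a b) q) := by
  classical
  have h1 := (ep a b).hasProd hq
  have h2 : HasProd (fun p : Idx a b => (1 - ((p : ℕ) - (npt a b p : ℂ)) * ((p : ℕ) : ℂ) ^ (-(1 + q)) +
      ((p : ℕ) : ℂ) ^ (1 - 2 * (1 + q)))⁻¹) L := by
    have h3 := (Function.Injective.hasProd_iff (g := (Subtype.val : Idx a b → ℕ))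
      Subtype.val_injective (f := (fun p : ℕ => if Gd a b p then
      (1 - ((p : ℂ) - (npt a b p : ℂ)) * (p : ℂ) ^ (-(1 + q)) + (p : ℂ) ^ (1 - 2 * (1 + q)))⁻¹ else 1))
      (a := L) (fun x hx => by
        rw [if_neg]
        intro hg
        exact hx ⟨⟨x, hg⟩, rfl⟩)).2 hL
    convert h3 using 1
    funext p
    rw [Function.comp_apply, if_pos p.2]
  have h3 : (fun p : Idx a b => (1 - ((p : ℕ) - (npt a b p : ℂ)) * ((p : ℕ) : ℂ) ^ (-(1 + q)) +
      ((p : ℕ) : ℂ) ^ (1 - 2 * (1 + q)))⁻¹) = fun p : Idx a b =>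
      (1 - 2 * ((mkZ (((p : ℕ) : ℝ) - npt a b p) p).re : ℂ) * Complex.exp (-(q * Real.log (p : ℕ))) +
      Complex.exp (-(q * Real.log (p : ℕ))) ^ 2 / (p : ℕ))⁻¹ := by
    funext p
    have hp0 : ((p : ℕ) : ℂ) ≠ 0 := by exact_mod_cast p.2.1.ne_zero
    congr 1
    have e1 : ((p : ℕ) : ℂ) ^ (-q) = Complex.exp (-(q * Real.log (p : ℕ))) := by
      rw [Complex.cpow_def_of_ne_zero hp0, ← Complex.natCast_log]
      congr 1; ring
    have e2 : ((p : ℕ) : ℂ) ^ (-(1 + q)) = ((p : ℕ) : ℂ) ^ (-q) / (p : ℕ) := by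
      rw [show -(1 + q) = -q + -1 by ring, Complex.cpow_add _ _ hp0, Complex.cpow_neg_one]
      rfl
    have e3 : ((p : ℕ) : ℂ) ^ (1 - 2 * (1 + q)) = (((p : ℕ) : ℂ) ^ (-q)) ^ 2 / (p : ℕ) := by
      rw [show 1 - 2 * (1 + q) = (-q) * (2 : ℕ) + -1 by push_cast; ring, Complex.cpow_add _ _ hp0,
        Complex.cpow_neg_one, Complex.cpow_mul_nat]
      rfl
    rw [e2, e3, e1]
    unfold mkZ
    simp only
    push_cast
    field_simp
  rw [h3] at h2
  exact h2.unique h1

end

end Pool.Agent.W334.BSD
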