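import Pool.Agent.W334.BSD.MM

/-!
# Euler products of degree two: the logarithm as a Laplace transform
-/

set_option autoImplicit false
open MeasureTheory Set Filter Topology

namespace Pool.Agent.W334.BSD

noncomputable section

/-- norms `n i ≥ 2` and normalised Frobenius eigenvalues `z i`, `conj (z i)`, `|z i|² = 1 / n i` -/
structure EP (ι : Type) (n : ι → ℕ) (z : ι → ℂ) : Prop where
  two : ∀ i, 2 ≤ n i
  norm : ∀ i, ‖z i‖ ^ 2 = 1 / (n i : ℝ)
  summ : Summable fun i => (n i : ℝ) ^ (-(3 / 2) : ℝ)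

variable {ι : Type} {n : ι → ℕ} {z : ι → ℂ}

/-- coefficients -/
def bt (z : ι → ℂ) (x : ι × ℕ) : ℝ := 2 * (z x.1 ^ x.2).re / x.2

/-- frequencies -/
def wt (n : ι → ℕ) (x : ι × ℕ) : ℝ := x.2 * Real.log (n x.1)

/-- the summatory function -/
def BB (n : ι → ℕ) (z : ι → ℂ) (t : ℝ) : ℝ := ∑' x : ι × ℕ, if wt n x ≤ t then bt z x else 0

lemma EP.n_pos (E : EP ι n z) (i : ι) : (0:ℝ) < n i := by
  have := E.two i
  exact_mod_cast (by omega : 0 < n i)

lemma EP.two' (E : EP ι n z) (i : ι) : (2:ℝ) ≤ n i := by exact_mod_cast E.two i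

lemma EP.log_pos (E : EP ι n z) (i : ι) : 0 < Real.log (n i) :=
  Real.log_pos (by linarith [E.two' i])

lemma EP.wt_nonneg (E : EP ι n z) (x : ι × ℕ) : 0 ≤ wt n x :=
  mul_nonneg (Nat.cast_nonneg _) (E.log_pos _).le

lemma EP.norm_eq (E : EP ι n z) (i : ι) : ‖z i‖ = (n i : ℝ) ^ (-(1 / 2) : ℝ) := by
  have h := E.norm i
  have h1 : ‖z i‖ = Real.sqrt (1 / (n i : ℝ)) := by
    rw [← h, Real.sqrt_sq (norm_nonneg _)]
  rw [h1, one_div, Real.sqrt_inv, Real.sqrt_eq_rpow, Real.rpow_neg (E.n_pos i).le]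

lemma EP.norm_lt_one (E : EP ι n z) (i : ι) : ‖z i‖ < 1 := by
  have h := E.norm i
  have h2 := E.two' i
  have h3 : 1 / (n i : ℝ) ≤ 1 / 2 := one_div_le_one_div_of_le (by norm_num) h2
  nlinarith [norm_nonneg (z i)]

lemma abs_bt_le (z : ι → ℂ) (x : ι × ℕ) : |bt z x| ≤ 2 * ‖z x.1‖ ^ x.2 / x.2 := by
  unfold bt
  rw [abs_div, abs_mul, abs_two, Nat.abs_cast, ← norm_pow]
  have := Complex.abs_re_le_norm (z x.1 ^ x.2)
  gcongr

lemma bt_zero (z : ι → ℂ) (i : ι) : bt z (i, 0) = 0 := by unfold bt; simp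

/-- absolute convergence for exponents `≥ 1` -/
lemma EP.summable (E : EP ι n z) : Summable fun x : ι × ℕ => |bt z x| * Real.exp (-(wt n x)) := by
  have hle : ∀ x : ι × ℕ, |bt z x| * Real.exp (-(wt n x)) ≤
      (if x.2 = 0 then 0 else 2 * ((n x.1 : ℝ) ^ (-(3/2) : ℝ)) ^ x.2) := by
    intro x
    have h1 := abs_bt_le z x
    have h2 : Real.exp (-(wt n x)) = ((n x.1 : ℝ) ^ (-1 : ℝ)) ^ x.2 := by
      unfold wt
      rw [← Real.rpow_natCast, ← Real.rpow_mul (E.n_pos _).le, Real.rpow_def_of_pos (E.n_pos _)]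
      congr 1; ring
    split_ifs with h
    · have : bt z x = 0 := by unfold bt; rw [h]; simp
      rw [this]; simp
    · have hx : (1:ℝ) ≤ x.2 := by exact_mod_cast Nat.one_le_iff_ne_zero.2 h
      have h3 : 2 * ‖z x.1‖ ^ x.2 / x.2 ≤ 2 * ‖z x.1‖ ^ x.2 := div_le_self (by positivity) hx
      rw [h2]
      calc |bt z x| * ((n x.1 : ℝ) ^ (-1 : ℝ)) ^ x.2
          ≤ (2 * ‖z x.1‖ ^ x.2) * ((n x.1 : ℝ) ^ (-1 : ℝ)) ^ x.2 := by
            have h4 := (E.n_pos x.1)
            gcongr
            exact h1.trans h3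
        _ = _ := by
            rw [mul_assoc, ← mul_pow, E.norm_eq, ← Real.rpow_add (E.n_pos _)]
            norm_num
  have hnn : 0 ≤ fun x : ι × ℕ => (if x.2 = 0 then 0 else 2 * ((n x.1 : ℝ) ^ (-(3/2) : ℝ)) ^ x.2) := by
    intro x
    show (0:ℝ) ≤ if x.2 = 0 then 0 else 2 * ((n x.1 : ℝ) ^ (-(3/2) : ℝ)) ^ x.2
    split_ifs
    · exact le_rfl
    · have := E.n_pos x.1
      positivity
  refine Summable.of_nonneg_of_le (fun x => by positivity) hle ?_
  rw [summable_prod_of_nonneg hnn]
  have hr : ∀ i, 0 ≤ (n i : ℝ) ^ (-(3/2) : ℝ) ∧ (n i : ℝ) ^ (-(3/2) : ℝ) ≤ 1 / 2 := by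
    intro i
    have h2 := E.two' i
    refine ⟨by positivity, ?_⟩
    calc (n i : ℝ) ^ (-(3/2) : ℝ) ≤ (n i : ℝ) ^ (-1 : ℝ) :=
          Real.rpow_le_rpow_of_exponent_le (by linarith) (by norm_num)
      _ = 1 / (n i : ℝ) := by rw [Real.rpow_neg_one, one_div]
      _ ≤ 1 / 2 := one_div_le_one_div_of_le (by norm_num) h2
  have hsum : ∀ i, HasSum (fun m : ℕ => if m = 0 then 0 else 2 * ((n i : ℝ) ^ (-(3/2) : ℝ)) ^ m)
      (2 * (1 - (n i : ℝ) ^ (-(3/2) : ℝ))⁻¹ - 2) := by
    intro i
    have h1 := (hasSum_geometric_of_lt_one (hr i).1 (by linarith [(hr i).2])).mul_left 2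
    have h2 := hasSum_ite_eq (0:ℕ) (2:ℝ)
    have h3 := h1.sub h2
    have e : (fun m : ℕ => if m = 0 then 0 else 2 * ((n i : ℝ) ^ (-(3/2) : ℝ)) ^ m) =
        fun m : ℕ => 2 * ((n i : ℝ) ^ (-(3/2) : ℝ)) ^ m - if m = 0 then 2 else 0 := by
      funext m
      split_ifs with h
      · rw [h]; simp
      · simp
    rw [e]
    exact h3
  refine ⟨fun i => (hsum i).summable, ?_⟩
  refine Summable.of_nonneg_of_le (fun i => tsum_nonneg fun m => hnn (i, m)) (fun i => ?_)
    (E.summ.mul_left 4)
  rw [(hsum i).tsum_eq]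
  obtain ⟨h1, h2⟩ := hr i
  set y := (n i : ℝ) ^ (-(3/2) : ℝ)
  have h3 : 0 < 1 - y := by linarith
  have h4 : 2 * (1 - y)⁻¹ - 2 = 2 * y / (1 - y) := by field_simp; ring
  rw [h4, div_le_iff₀ h3]
  nlinarith

lemma term_le (x : ι × ℕ) (t : ℝ) :
    |if wt n x ≤ t then bt z x else 0| ≤ Real.exp t * (|bt z x| * Real.exp (-(wt n x))) := by
  split_ifs with h
  · have h1 : 1 ≤ Real.exp t * Real.exp (-(wt n x)) := by
      rw [← Real.exp_add]
      exact Real.one_le_exp (by linarith)
    calc |bt z x| = 1 * |bt z x| := by ring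
      _ ≤ (Real.exp t * Real.exp (-(wt n x))) * |bt z x| := mul_le_mul_of_nonneg_right h1 (abs_nonneg _)
      _ = _ := by ring
  · rw [abs_zero]; positivity

lemma EP.summable_t (E : EP ι n z) (t : ℝ) :
    Summable fun x : ι × ℕ => if wt n x ≤ t then bt z x else 0 :=
  Summable.of_norm_bounded (E.summable.mul_left (Real.exp t)) fun x => by
    rw [Real.norm_eq_abs]; exact term_le x t

lemma EP.tame [Countable ι] (E : EP ι n z) :
    Tame (BB n z) (∑' x : ι × ℕ, |bt z x| * Real.exp (-(wt n x))) where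
  meas := by
    refine measurable_of_tendsto_metrizable' (atTop : Filter (Finset (ι × ℕ)))
      (f := fun s t => ∑ x ∈ s, if wt n x ≤ t then bt z x else 0) (fun s => ?_) ?_
    · refine Finset.measurable_sum _ fun x _ => ?_
      exact Measurable.ite measurableSet_Ici measurable_const measurable_const
    · rw [tendsto_pi_nhds]
      intro t
      exact (E.summable_t t).hasSum
  bound := by
    intro t _
    unfold BB
    have h1 := E.summable.mul_left (Real.exp t)
    calc |∑' x : ι × ℕ, if wt n x ≤ t then bt z x else 0|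
        ≤ ∑' x : ι × ℕ, |if wt n x ≤ t then bt z x else 0| := by
          have := norm_tsum_le_tsum_norm (f := fun x : ι × ℕ => if wt n x ≤ t then bt z x else 0)
            (E.summable_t t).norm
          simpa only [Real.norm_eq_abs] using this
      _ ≤ ∑' x : ι × ℕ, Real.exp t * (|bt z x| * Real.exp (-(wt n x))) :=
          Summable.tsum_le_tsum (fun x => term_le x t) (E.summable_t t).abs h1
      _ = _ := by rw [tsum_mul_left, mul_comm]

lemma step_int {w : ℝ} (hw : 0 ≤ w) (b : ℝ) {q : ℂ} (hq : 0 < q.re) :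
    IntegrableOn (fun t : ℝ => ((if w ≤ t then b else 0 : ℝ) : ℂ) * Complex.exp (-(q * t))) (Ioi 0) ∧
    ∫ t in Ioi (0:ℝ), ((if w ≤ t then b else 0 : ℝ) : ℂ) * Complex.exp (-(q * t)) =
      b * Complex.exp (-(q * w)) / q ∧
    ∫ t in Ioi (0:ℝ), ‖((if w ≤ t then b else 0 : ℝ) : ℂ) * Complex.exp (-(q * t))‖ =
      |b| * Real.exp (-(q.re * w)) / q.re := by
  have hq0 : q ≠ 0 := by rintro rfl; simp at hq
  have e1 : (fun t : ℝ => ((if w ≤ t then b else 0 : ℝ) : ℂ) * Complex.exp (-(q * t))) =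
      (Ici w).indicator (fun t : ℝ => (b : ℂ) * Complex.exp (-(q * t))) := by
    funext t
    by_cases h : w ≤ t
    · rw [indicator_of_mem (by exact h), if_pos h]
    · rw [indicator_of_notMem (by exact h), if_neg h]; simp
  have e2 : (fun t : ℝ => ‖((if w ≤ t then b else 0 : ℝ) : ℂ) * Complex.exp (-(q * t))‖) =
      (Ici w).indicator (fun t : ℝ => |b| * Real.exp (-(q.re * t))) := by
    funext t
    by_cases h : w ≤ t
    · rw [indicator_of_mem (by exact h), if_pos h, norm_mul, Complex.norm_real, Real.norm_eq_abs,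
        Complex.norm_exp]
      congr 2
      simp
    · rw [indicator_of_notMem (by exact h), if_neg h]; simp
  have hae : (Ioi (0:ℝ) ∩ Ici w : Set ℝ) =ᵐ[volume] Ioi w := by
    have h1 : (Ioi (0:ℝ) ∩ Ioi w : Set ℝ) = Ioi w := by
      rw [Ioi_inter_Ioi, sup_of_le_right hw]
    rw [← h1]
    exact (ae_eq_refl _).inter Ioi_ae_eq_Ici.symm
  have i1 := integrableOn_exp_mul_complex_Ioi (a := -q) (by simpa using hq) w
  have i2 := integral_exp_mul_complex_Ioi (a := -q) (by simpa using hq) w
  simp only [neg_mul] at i1 i2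
  refine ⟨?_, ?_, ?_⟩
  · rw [e1, IntegrableOn, integrable_indicator_iff measurableSet_Ici, IntegrableOn,
      Measure.restrict_restrict measurableSet_Ici, inter_comm, Measure.restrict_congr_set hae]
    exact i1.const_mul _
  · rw [e1, setIntegral_indicator measurableSet_Ici, setIntegral_congr_set hae, integral_const_mul, i2]
    field_simp
  · rw [e2, setIntegral_indicator measurableSet_Ici, setIntegral_congr_set hae, integral_const_mul]
    have i3 := integral_exp_mul_Ioi (a := -q.re) (by linarith) w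
    simp only [neg_mul] at i3
    rw [i3]
    have := hq.ne'
    field_simp

/-- the transform of the summatory function -/
lemma EP.hasSum [Countable ι] (E : EP ι n z) {q : ℂ} (hq : 1 < q.re) :
    HasSum (fun x : ι × ℕ => (bt z x : ℂ) * Complex.exp (-(q * wt n x))) (q * LT (BB n z) q) := by
  have hq0 : 0 < q.re := by linarith
  have hqne : q ≠ 0 := by rintro rfl; simp at hq0
  have h1 := hasSum_integral_of_summable_integral_norm (μ := volume.restrict (Ioi (0:ℝ)))
    (F := fun (x : ι × ℕ) (t : ℝ) => ((if wt n x ≤ t then bt z x else 0 : ℝ) : ℂ) *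
      Complex.exp (-(q * t))) (fun x => (step_int (E.wt_nonneg x) (bt z x) hq0).1) ?_
  · have e : (fun x : ι × ℕ => ∫ t in Ioi (0:ℝ), ((if wt n x ≤ t then bt z x else 0 : ℝ) : ℂ) *
        Complex.exp (-(q * t))) = fun x => bt z x * Complex.exp (-(q * wt n x)) / q :=
      funext fun x => (step_int (E.wt_nonneg x) (bt z x) hq0).2.1
    rw [e] at h1
    have h2 := h1.mul_left q
    have e2 : (fun x : ι × ℕ => q * (bt z x * Complex.exp (-(q * wt n x)) / q)) =
        fun x => (bt z x : ℂ) * Complex.exp (-(q * wt n x)) := by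
      funext x; field_simp
    rw [e2] at h2
    have e3 : LT (BB n z) q = ∫ t in Ioi (0:ℝ), ∑' x : ι × ℕ,
        ((if wt n x ≤ t then bt z x else 0 : ℝ) : ℂ) * Complex.exp (-(q * t)) := by
      unfold LT BB
      congr 1
      funext t
      rw [tsum_mul_right]
      congr 1
      rw [Complex.ofReal_tsum]
    rw [e3]
    exact h2
  · have e : (fun x : ι × ℕ => ∫ t in Ioi (0:ℝ), ‖((if wt n x ≤ t then bt z x else 0 : ℝ) : ℂ) *
        Complex.exp (-(q * t))‖) = fun x => |bt z x| * Real.exp (-(q.re * wt n x)) / q.re :=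
      funext fun x => (step_int (E.wt_nonneg x) (bt z x) hq0).2.2
    rw [e]
    refine Summable.of_nonneg_of_le (fun x => by positivity) (fun x => ?_) E.summable
    have h2 : Real.exp (-(q.re * wt n x)) ≤ Real.exp (-(wt n x)) := by
      apply Real.exp_le_exp.2
      have := E.wt_nonneg x
      nlinarith
    calc |bt z x| * Real.exp (-(q.re * wt n x)) / q.re ≤ |bt z x| * Real.exp (-(q.re * wt n x)) :=
          div_le_self (by positivity) hq.le
      _ ≤ _ := by gcongr

/-- the logarithm of one local factor -/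
lemma fiber (E : EP ι n z) (i : ι) {X : ℂ} (hX : ‖X‖ ≤ 1) :
    HasSum (fun m : ℕ => (bt z (i, m) : ℂ) * X ^ m)
      (-Complex.log (1 - z i * X) + -Complex.log (1 - (starRingEnd ℂ) (z i) * X)) := by
  have hz := E.norm_lt_one i
  have h1 : ‖z i * X‖ < 1 := by
    rw [norm_mul]
    calc ‖z i‖ * ‖X‖ ≤ ‖z i‖ * 1 := by gcongr
      _ < 1 := by linarith
  have h2 : ‖(starRingEnd ℂ) (z i) * X‖ < 1 := by
    rw [norm_mul, RCLike.norm_conj]
    calc ‖z i‖ * ‖X‖ ≤ ‖z i‖ * 1 := by gcongr
      _ < 1 := by linarith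
  have h3 := (Complex.hasSum_taylorSeries_neg_log h1).add (Complex.hasSum_taylorSeries_neg_log h2)
  convert h3 using 1
  funext m
  unfold bt
  simp only
  have h4 : ((2 * (z i ^ m).re : ℝ) : ℂ) = z i ^ m + (starRingEnd ℂ) (z i ^ m) := by
    rw [Complex.add_conj]
  rw [Complex.ofReal_div, h4, map_pow, mul_pow, mul_pow]
  push_cast
  ring

lemma one_sub_ne {w : ℂ} (hw : ‖w‖ < 1) : 1 - w ≠ 0 := by
  intro h
  have : w = 1 := (sub_eq_zero.1 h).symm
  rw [this] at hw
  simp at hw

/-- the Euler product -/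
lemma EP.hasProd [Countable ι] (E : EP ι n z) {q : ℂ} (hq : 1 < q.re) :
    HasProd (fun i => (1 - 2 * ((z i).re : ℂ) * Complex.exp (-(q * Real.log (n i))) +
      Complex.exp (-(q * Real.log (n i))) ^ 2 / n i)⁻¹) (Complex.exp (q * LT (BB n z) q)) := by
  have h1 := E.hasSum hq
  have hX : ∀ i, ‖Complex.exp (-(q * Real.log (n i)))‖ ≤ 1 := by
    intro i
    rw [Complex.norm_exp]
    have : (-(q * (Real.log (n i) : ℂ))).re = -(q.re * Real.log (n i)) := by
      rw [Complex.neg_re, Complex.re_mul_ofReal]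
    rw [this, Real.exp_le_one_iff]
    have := E.log_pos i
    nlinarith
  have h2 : HasSum (fun i => -Complex.log (1 - z i * Complex.exp (-(q * Real.log (n i)))) +
      -Complex.log (1 - (starRingEnd ℂ) (z i) * Complex.exp (-(q * Real.log (n i)))))
      (q * LT (BB n z) q) := by
    refine h1.prod_fiberwise fun i => ?_
    convert fiber E i (hX i) using 1
    funext m
    rw [← Complex.exp_nat_mul]
    congr 2
    unfold wt
    push_cast
    ring
  have h3 := h2.cexp
  convert h3 using 1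
  funext i
  have hz := E.norm_lt_one i
  set X := Complex.exp (-(q * Real.log (n i))) with hXd
  have n1 : ‖z i * X‖ < 1 := by
    rw [norm_mul]
    calc ‖z i‖ * ‖X‖ ≤ ‖z i‖ * 1 := by gcongr; exact hX i
      _ < 1 := by linarith
  have n2 : ‖(starRingEnd ℂ) (z i) * X‖ < 1 := by
    rw [norm_mul, RCLike.norm_conj]
    calc ‖z i‖ * ‖X‖ ≤ ‖z i‖ * 1 := by gcongr; exact hX i
      _ < 1 := by linarith
  have x1 : Complex.exp (-Complex.log (1 - z i * X)) = (1 - z i * X)⁻¹ := by
    rw [Complex.exp_neg, Complex.exp_log (one_sub_ne n1)]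
  have x2 : Complex.exp (-Complex.log (1 - (starRingEnd ℂ) (z i) * X)) =
      (1 - (starRingEnd ℂ) (z i) * X)⁻¹ := by
    rw [Complex.exp_neg, Complex.exp_log (one_sub_ne n2)]
  rw [Function.comp_apply, Complex.exp_add, ← hXd, x1, x2, ← mul_inv]
  congr 1
  have h5 : z i * (starRingEnd ℂ) (z i) = 1 / n i := by
    rw [Complex.mul_conj, Complex.normSq_eq_norm_sq, E.norm i]
    push_cast; rfl
  have h6 : 2 * ((z i).re : ℂ) = z i + (starRingEnd ℂ) (z i) := by
    rw [Complex.add_conj]; push_cast; rfl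
  rw [h6]
  linear_combination (-X ^ 2) * h5

/-! ### comparison with the partial products -/

/-- logarithm of the reduced number of points -/
def cf (n : ι → ℕ) (z : ι → ℂ) (i : ι) : ℝ := Real.log (1 - 2 * (z i).re + 1 / n i)

lemma EP.cf_hasSum (E : EP ι n z) (i : ι) : HasSum (fun m : ℕ => bt z (i, m)) (-cf n z i) := by
  have h1 := fiber E i (X := 1) (by simp)
  simp only [one_pow, mul_one] at h1
  have hz := E.norm_lt_one i
  have hc : (1 - (starRingEnd ℂ) (z i)) = (starRingEnd ℂ) (1 - z i) := by simp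
  have hslit : 1 - z i ∈ Complex.slitPlane := by
    left
    rw [Complex.sub_re, Complex.one_re]
    have := (Complex.re_le_norm (z i))
    linarith
  have h2 : -Complex.log (1 - z i) + -Complex.log (1 - (starRingEnd ℂ) (z i)) =
      ((-cf n z i : ℝ) : ℂ) := by
    rw [hc, Complex.log_conj _ (Complex.slitPlane_arg_ne_pi hslit), ← neg_add, Complex.add_conj,
      Complex.log_re]
    unfold cf
    have h3 : 1 - 2 * (z i).re + 1 / (n i : ℝ) = ‖1 - z i‖ ^ 2 := by
      rw [← E.norm i, ← Complex.normSq_eq_norm_sq, ← Complex.normSq_eq_norm_sq,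
        Complex.normSq_apply, Complex.normSq_apply]
      simp only [Complex.sub_re, Complex.one_re, Complex.sub_im, Complex.one_im]
      ring
    rw [h3, Real.log_pow]
    push_cast
    rfl
  rw [h2] at h1
  exact Complex.hasSum_ofReal.1 h1

/-- logarithm of the partial product over `n i ≤ e^t` -/
def DD (n : ι → ℕ) (z : ι → ℂ) (t : ℝ) : ℝ := ∑' i, if Real.log (n i) ≤ t then cf n z i else 0

lemma EP.small (E : EP ι n z) (i : ι) : ‖z i‖ ≤ 3 / 4 := by
  have h := E.norm i
  have h2 := E.two' i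
  have h3 : 1 / (n i : ℝ) ≤ 1 / 2 := one_div_le_one_div_of_le (by norm_num) h2
  nlinarith [norm_nonneg (z i)]

/-- the difference of the contributions of `i` -/
lemma EP.diff_i (E : EP ι n z) (i : ι) {t : ℝ} (ht : 0 < t) :
    |(if Real.log (n i) ≤ t then cf n z i else 0) + ∑' m : ℕ, (if wt n (i, m) ≤ t then bt z (i, m) else 0)| ≤
      (if Real.log (n i) ≤ t ∧ t < 2 * Real.log (n i) then 1 / (n i : ℝ) else 0) +
        4 * (n i : ℝ) ^ (-(3 / 2) : ℝ) := by
  have hl := E.log_pos i
  have hn := E.n_pos i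
  have hpos : 0 ≤ 4 * (n i : ℝ) ^ (-(3 / 2) : ℝ) := by positivity
  by_cases h : Real.log (n i) ≤ t
  · rw [if_pos h]
    have hs1 := E.cf_hasSum i
    have hs2 : Summable fun m : ℕ => (if wt n (i, m) ≤ t then bt z (i, m) else 0) :=
      (E.summable_t t).comp_injective (fun a b hab => by simpa using hab)
    have h3 := hs1.sub hs2.hasSum
    have h4 : cf n z i + ∑' m : ℕ, (if wt n (i, m) ≤ t then bt z (i, m) else 0) =
        -(∑' m : ℕ, (bt z (i, m) - (if wt n (i, m) ≤ t then bt z (i, m) else 0))) := by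
      rw [h3.tsum_eq]; ring
    rw [h4, abs_neg]
    -- majorant
    set g : ℕ → ℝ := fun m => (if m = 2 then (if Real.log (n i) ≤ t ∧ t < 2 * Real.log (n i)
      then 1 / (n i : ℝ) else 0) else 0) + (if m < 3 then 0 else (2/3) * ‖z i‖ ^ m) with hg
    have hg1 : ∀ m, |bt z (i, m) - (if wt n (i, m) ≤ t then bt z (i, m) else 0)| ≤ g m := by
      intro m
      have hb := abs_bt_le z (i, m)
      have hgn : 0 ≤ g m := by
        rw [hg]
        simp only
        have : (0:ℝ) ≤ 1 / (n i : ℝ) := by positivity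
        have h5 : (0:ℝ) ≤ (2/3) * ‖z i‖ ^ m := by positivity
        split_ifs <;> linarith
      by_cases hm : wt n (i, m) ≤ t
      · rw [if_pos hm, sub_self, abs_zero]; exact hgn
      · rw [if_neg hm, sub_zero]
        push Not at hm
        unfold wt at hm
        simp only at hm
        rcases Nat.lt_or_ge m 3 with h5 | h5
        · interval_cases m
          · simp at hm; linarith
          · simp at hm; linarith
          · have hm' : t < 2 * Real.log (n i) := by exact_mod_cast hm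
            have e : g 2 = 1 / (n i : ℝ) := by
              rw [hg]
              simp [h, hm']
            rw [e]
            refine hb.trans (le_of_eq ?_)
            simp only
            rw [E.norm i]
            push_cast
            ring
        · rw [hg]
          simp only
          rw [if_neg (by omega), if_neg (by omega), zero_add]
          refine hb.trans ?_
          simp only
          have hm3 : (3:ℝ) ≤ m := by exact_mod_cast h5
          rw [div_le_iff₀ (by linarith)]
          have : 0 ≤ ‖z i‖ ^ m := by positivity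
          nlinarith
    have hgeo := (summable_geometric_of_lt_one (norm_nonneg (z i)) (E.norm_lt_one i))
    have hgs2 : HasSum (fun m : ℕ => if m < 3 then 0 else (2/3) * ‖z i‖ ^ m)
        ((2/3) * (‖z i‖ ^ 3 * (1 - ‖z i‖)⁻¹)) := by
      have h5 := (hasSum_geometric_of_lt_one (norm_nonneg (z i)) (E.norm_lt_one i)).mul_left (‖z i‖ ^ 3)
      have h6 := h5.mul_left (2/3)
      rw [← hasSum_nat_add_iff' 3]
      have e1 : ∑ m ∈ Finset.range 3, (if m < 3 then (0:ℝ) else (2/3) * ‖z i‖ ^ m) = 0 := by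
        apply Finset.sum_eq_zero
        intro m hm
        rw [if_pos (Finset.mem_range.1 hm)]
      rw [e1, sub_zero]
      have e2 : (fun m : ℕ => if m + 3 < 3 then (0:ℝ) else (2/3) * ‖z i‖ ^ (m + 3)) =
          fun m : ℕ => (2/3) * (‖z i‖ ^ 3 * ‖z i‖ ^ m) := by
        funext m
        rw [if_neg (by omega), pow_add]
        ring
      rw [e2]
      exact h6
    have hgs1 := hasSum_ite_eq (2:ℕ) (if Real.log (n i) ≤ t ∧ t < 2 * Real.log (n i)
      then 1 / (n i : ℝ) else 0)
    have hgs : HasSum g ((if Real.log (n i) ≤ t ∧ t < 2 * Real.log (n i)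
      then 1 / (n i : ℝ) else 0) + (2/3) * (‖z i‖ ^ 3 * (1 - ‖z i‖)⁻¹)) := by
      rw [hg]
      exact hgs1.add hgs2
    have h7 : |∑' m : ℕ, (bt z (i, m) - (if wt n (i, m) ≤ t then bt z (i, m) else 0))| ≤ ∑' m, g m := by
      have hsn : Summable fun m => |bt z (i, m) - (if wt n (i, m) ≤ t then bt z (i, m) else 0)| :=
        Summable.of_nonneg_of_le (fun m => abs_nonneg _) hg1 hgs.summable
      have h8 := norm_tsum_le_tsum_norm (f := fun m : ℕ => bt z (i, m) -
        (if wt n (i, m) ≤ t then bt z (i, m) else 0)) (by simpa only [Real.norm_eq_abs] using hsn)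
      simp only [Real.norm_eq_abs] at h8
      exact h8.trans (Summable.tsum_le_tsum hg1 hsn hgs.summable)
    rw [hgs.tsum_eq] at h7
    refine h7.trans (add_le_add le_rfl ?_)
    have h8 : ‖z i‖ ^ 3 = (n i : ℝ) ^ (-(3 / 2) : ℝ) := by
      rw [E.norm_eq, ← Real.rpow_natCast, ← Real.rpow_mul hn.le]
      norm_num
    have h9 : (1 - ‖z i‖)⁻¹ ≤ 4 := by
      rw [inv_le_comm₀ (by linarith [E.norm_lt_one i]) (by norm_num)]
      have := E.small i
      norm_num
      linarith
    rw [h8]
    have h10 : 0 ≤ (n i : ℝ) ^ (-(3 / 2) : ℝ) := by positivity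
    nlinarith
  · rw [if_neg h]
    push Not at h
    have h1 : ∀ m : ℕ, (if wt n (i, m) ≤ t then bt z (i, m) else 0) = 0 := by
      intro m
      rcases Nat.eq_zero_or_pos m with h0 | h0
      · rw [h0, bt_zero]; simp
      · have hm : (1:ℝ) ≤ m := by exact_mod_cast h0
        have : ¬ wt n (i, m) ≤ t := by
          unfold wt
          push Not
          simp only
          nlinarith
        rw [if_neg this]
    simp only [h1, tsum_zero, add_zero, abs_zero]
    have : (0:ℝ) ≤ (if Real.log (n i) ≤ t ∧ t < 2 * Real.log (n i) then 1 / (n i : ℝ) else 0) := by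
      split_ifs
      · positivity
      · exact le_rfl
    linarith

/-- comparison of the partial products with the summatory function -/
lemma EP.compare (E : EP ι n z) {C : ℝ}
    (hC : ∀ t : ℝ, 0 < t → ∀ s : Finset ι, (∀ i ∈ s, Real.log (n i) ≤ t ∧ t < 2 * Real.log (n i)) →
      ∑ i ∈ s, 1 / (n i : ℝ) ≤ C) :
    ∀ t : ℝ, 0 < t → (Summable fun i => if Real.log (n i) ≤ t then cf n z i else 0) ∧
      |DD n z t + BB n z t| ≤ C + 4 * ∑' i, (n i : ℝ) ^ (-(3 / 2) : ℝ) := by
  intro t ht
  have hB := (E.summable_t t)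
  have hBp : HasSum (fun i => ∑' m : ℕ, (if wt n (i, m) ≤ t then bt z (i, m) else 0)) (BB n z t) :=
    hB.hasSum.prod_fiberwise fun i =>
      ((E.summable_t t).comp_injective (i := fun m : ℕ => (i, m)) (fun a b hab => by simpa using hab)).hasSum
  have hle : ∀ i, (if Real.log (n i) ≤ t ∧ t < 2 * Real.log (n i) then 1 / (n i : ℝ) else 0) ≤
      Real.exp t * (n i : ℝ) ^ (-(3 / 2) : ℝ) := by
    intro i
    have hn := E.n_pos i
    split_ifs with h
    · have h1 : (n i : ℝ) ≤ Real.exp t := (Real.log_le_iff_le_exp hn).1 h.1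
      have h2 : 1 / (n i : ℝ) = (n i : ℝ) ^ (1/2 : ℝ) * (n i : ℝ) ^ (-(3 / 2) : ℝ) := by
        rw [← Real.rpow_add hn, one_div, ← Real.rpow_neg_one]; norm_num
      rw [h2]
      have h3 : (n i : ℝ) ^ (1/2 : ℝ) ≤ n i := by
        nth_rewrite 2 [← Real.rpow_one (n i : ℝ)]
        exact Real.rpow_le_rpow_of_exponent_le (by linarith [E.two' i]) (by norm_num)
      gcongr
      linarith
    · positivity
  have hnn : ∀ i, 0 ≤ (if Real.log (n i) ≤ t ∧ t < 2 * Real.log (n i) then 1 / (n i : ℝ) else 0) := by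
    intro i
    have hn := E.n_pos i
    split_ifs
    · positivity
    · exact le_rfl
  have hs1 : Summable fun i => (if Real.log (n i) ≤ t ∧ t < 2 * Real.log (n i) then 1 / (n i : ℝ) else 0) :=
    Summable.of_nonneg_of_le hnn hle (E.summ.mul_left _)
  have hs2 := E.summ.mul_left 4
  have hs3 := hs1.add hs2
  have hs4 : Summable fun i => (if Real.log (n i) ≤ t then cf n z i else 0) +
      ∑' m : ℕ, (if wt n (i, m) ≤ t then bt z (i, m) else 0) :=
    Summable.of_norm_bounded hs3 fun i => by rw [Real.norm_eq_abs]; exact E.diff_i i ht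
  have hs5 : Summable fun i => if Real.log (n i) ≤ t then cf n z i else 0 := by
    have := hs4.sub hBp.summable
    simpa using this
  refine ⟨hs5, ?_⟩
  have h1 : DD n z t + BB n z t = ∑' i, ((if Real.log (n i) ≤ t then cf n z i else 0) +
      ∑' m : ℕ, (if wt n (i, m) ≤ t then bt z (i, m) else 0)) := by
    rw [(hs5.hasSum.add hBp).tsum_eq]
    rfl
  rw [h1]
  calc |∑' i, ((if Real.log (n i) ≤ t then cf n z i else 0) +
      ∑' m : ℕ, (if wt n (i, m) ≤ t then bt z (i, m) else 0))|
      ≤ ∑' i, |(if Real.log (n i) ≤ t then cf n z i else 0) +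
      ∑' m : ℕ, (if wt n (i, m) ≤ t then bt z (i, m) else 0)| := by
        have := norm_tsum_le_tsum_norm hs4.norm
        simpa only [Real.norm_eq_abs] using this
    _ ≤ ∑' i, ((if Real.log (n i) ≤ t ∧ t < 2 * Real.log (n i) then 1 / (n i : ℝ) else 0) +
        4 * (n i : ℝ) ^ (-(3 / 2) : ℝ)) :=
        Summable.tsum_le_tsum (fun i => E.diff_i i ht) hs4.abs hs3
    _ = (∑' i, (if Real.log (n i) ≤ t ∧ t < 2 * Real.log (n i) then 1 / (n i : ℝ) else 0)) +
        4 * ∑' i, (n i : ℝ) ^ (-(3 / 2) : ℝ) := by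
        rw [hs1.tsum_add hs2, tsum_mul_left]
    _ ≤ _ := by
        refine add_le_add ?_ le_rfl
        refine Summable.tsum_le_of_sum_le hs1 fun s => ?_
        rw [← Finset.sum_filter]
        exact hC t ht _ fun i hi => (Finset.mem_filter.1 hi).2

end

end Pool.Agent.W334.BSD
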