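import Pool.Agent.W334.BSD.Main

/-!
# Analytic continuation to a sector and the growth of the averages
-/

set_option autoImplicit false
open MeasureTheory Set Filter Topology

namespace Pool.Agent.W334.BSD

noncomputable section

lemma LT_diff_of_bound {f : ℝ → ℝ} {M ε : ℝ} (hm : Measurable f) (hM : 0 ≤ M)
    (hb : ∀ t, 0 < t → |f t| ≤ M * Real.exp (ε * t)) {q : ℂ} (hq : ε < q.re) :
    DifferentiableAt ℂ (LT f) q := by
  have hn : Pool.Agent.H295R2.Nice (ext f) M ε 0 :=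
    { meas := (Complex.measurable_ofReal.comp hm).indicator measurableSet_Ioi
      bound := by
        intro u
        unfold ext
        by_cases hu0 : u ∈ Ioi (0:ℝ)
        · rw [indicator_of_mem hu0, Complex.norm_real, Real.norm_eq_abs]
          exact hb u hu0
        · rw [indicator_of_notMem hu0, norm_zero]
          positivity
      zero := by
        intro u hu1
        unfold ext
        rw [indicator_of_notMem]
        simpa using hu1.le }
  rw [LT_eq_fun]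
  exact hn.Lap_differentiableAt hq

/-- subexponential growth of the averages gives a zero-free continuation to the sector -/
theorem cont_of_growth {k : ℕ} (hk : 1 ≤ k) {B : ℝ → ℝ} {C : ℝ} (hB : Tame B C)
    (hg : ∀ ε : ℝ, 0 < ε → ∃ M : ℝ, ∀ v : ℝ, 1 ≤ v → |gaussAvg^[k] B v| ≤ M * Real.exp (ε * v)) :
    ∃ F : ℂ → ℂ, (∀ s : ℂ, s ∈ Sec k ∨ 1 < s.re → AnalyticAt ℂ F s ∧ F s ≠ 0) ∧
      ∀ s : ℂ, 1 < s.re → F s = Complex.exp (s * LT B s) := by
  classical
  set Bk : ℝ → ℝ := gaussAvg^[k] B with hBk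
  have hBkt : Tame Bk (2 ^ k * C) := hB.iter k
  have hLd : ∀ q : ℂ, 0 < q.re → DifferentiableAt ℂ (LT Bk) q := by
    intro q hq
    obtain ⟨M, hM⟩ := hg (q.re / 2) (by positivity)
    have hC' := hBkt.C_nonneg
    refine LT_diff_of_bound (M := |M| + 2 ^ k * C * Real.exp 1) (ε := q.re / 2) hBkt.meas
      (by positivity) (fun t ht => ?_) (by linarith)
    rcases le_or_gt 1 t with h | h
    · refine (hM t h).trans ?_
      have h1 := le_abs_self M
      have h2 := Real.exp_pos (q.re / 2 * t)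
      have h3 : 0 ≤ 2 ^ k * C * Real.exp 1 := by positivity
      nlinarith
    · refine (hBkt.bound t ht).trans ?_
      have h1 : Real.exp t ≤ Real.exp 1 := Real.exp_le_exp.2 h.le
      have h2 : 1 ≤ Real.exp (q.re / 2 * t) := Real.one_le_exp (by positivity)
      have h3 : 0 ≤ 2 ^ k * C * Real.exp 1 := by positivity
      calc 2 ^ k * C * Real.exp t ≤ 2 ^ k * C * Real.exp 1 := mul_le_mul_of_nonneg_left h1 hC'
        _ ≤ 2 ^ k * C * Real.exp 1 * Real.exp (q.re / 2 * t) := le_mul_of_one_le_right h3 h2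
        _ ≤ (|M| + 2 ^ k * C * Real.exp 1) * Real.exp (q.re / 2 * t) := by
            apply mul_le_mul_of_nonneg_right _ (Real.exp_pos _).le
            linarith [abs_nonneg M]
  set G1 : ℂ → ℂ := fun s => s ^ (2 ^ k) * LT Bk (s ^ (2 ^ k)) with hG1
  set G2 : ℂ → ℂ := fun s => s * LT B s with hG2
  have hG1d : DifferentiableOn ℂ G1 (Sec k) := by
    intro s hs
    have h1 := (pow_mem_RHP k hk hs).1
    have h2 : DifferentiableAt ℂ (fun s : ℂ => s ^ (2 ^ k)) s := differentiableAt_id.pow _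
    exact (h2.mul ((hLd _ h1).comp s h2)).differentiableWithinAt
  have hG2d : DifferentiableOn ℂ G2 {s | 1 < s.re} := fun s hs =>
    (differentiableAt_id.mul (hB.differentiableAt hs)).differentiableWithinAt
  set V : Set ℂ := Sec k ∩ {s | 1 < s.re} with hV
  have hVo : IsOpen V := (Sec_open k).inter (halfplane_open 1)
  have hVc : IsPreconnected V := ((Sec_convex k).inter (halfplane_convex 1)).isPreconnected
  have h2V : ((2:ℝ) : ℂ) ∈ V :=
    ⟨ofReal_mem_Sec k hk (by norm_num), by show (1:ℝ) < (((2:ℝ)) : ℂ).re; simp⟩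
  have hid : ∀ s ∈ V, G1 s = G2 s := by
    have hA1 : AnalyticOnNhd ℂ G1 V := (hG1d.mono inter_subset_left).analyticOnNhd hVo
    have hA2 : AnalyticOnNhd ℂ G2 V := (hG2d.mono inter_subset_right).analyticOnNhd hVo
    refine hA1.eqOn_of_preconnected_of_eventuallyEq hA2 hVc h2V ?_
    have h3 : ∀ᶠ s : ℂ in 𝓝 (((2:ℝ)) : ℂ), 1 < (s ^ (2 ^ k)).re := by
      have hc : ContinuousAt (fun s : ℂ => (s ^ (2 ^ k)).re) (((2:ℝ)) : ℂ) := by fun_prop
      apply hc.eventually (lt_mem_nhds _)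
      show 1 < (((((2:ℝ)) : ℂ)) ^ (2 ^ k)).re
      rw [← Complex.ofReal_pow, Complex.ofReal_re]
      exact one_lt_pow₀ (by norm_num) (by positivity)
    filter_upwards [hVo.mem_nhds h2V, h3] with s hs hs3
    have h4 := LT_iter hB k hs3
    rw [(pow_mem_RHP k hk hs.1).2] at h4
    exact h4
  set F : ℂ → ℂ := fun s => if s ∈ Sec k then Complex.exp (G1 s) else Complex.exp (G2 s) with hF
  have hF2 : ∀ s : ℂ, 1 < s.re → F s = Complex.exp (G2 s) := by
    intro s hs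
    rw [hF]
    simp only
    split_ifs with h
    · rw [hid s ⟨h, hs⟩]
    · rfl
  refine ⟨F, ?_, hF2⟩
  rintro s (hs | hs)
  · have h1 : F =ᶠ[𝓝 s] fun w => Complex.exp (G1 w) := by
      filter_upwards [(Sec_open k).mem_nhds hs] with w hw
      rw [hF]
      simp only
      rw [if_pos hw]
    refine ⟨?_, ?_⟩
    · refine AnalyticAt.congr ?_ h1.symm
      exact (hG1d.analyticAt ((Sec_open k).mem_nhds hs)).cexp
    · rw [h1.self_of_nhds]
      exact Complex.exp_ne_zero _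
  · have h1 : F =ᶠ[𝓝 s] fun w => Complex.exp (G2 w) := by
      filter_upwards [(halfplane_open 1).mem_nhds hs] with w hw using hF2 w hw
    refine ⟨?_, ?_⟩
    · refine AnalyticAt.congr ?_ h1.symm
      exact (hG2d.analyticAt ((halfplane_open 1).mem_nhds hs)).cexp
    · rw [h1.self_of_nhds]
      exact Complex.exp_ne_zero _

/-- the logarithm on the sector -/
lemma sector_log {k : ℕ} (hk : 1 ≤ k) {A : ℝ → ℝ} {C : ℝ} (hA : Tame A C) {F : ℂ → ℂ}
    (hF : ∀ z ∈ Sec k, AnalyticAt ℂ F z) (hFA : ∀ s : ℂ, 1 < s.re → F s = Complex.exp (s * LT A s))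
    (h0 : ∀ s ∈ Sec k, F s ≠ 0) :
    ∃ H : ℂ → ℂ, DifferentiableOn ℂ H (Sec k) ∧ (∀ s ∈ Sec k, 1 < s.re → H s = s * LT A s) ∧
      (∀ s ∈ Sec k, 2 ≤ s.re → ‖H s‖ ≤ 4 * C ∧ ‖s * deriv H s‖ ≤ 20 * C) := by
  have hFd : DifferentiableOn ℂ F (Sec k) := fun s hs =>
    (hF s hs).differentiableAt.differentiableWithinAt
  have h2mem : ((2:ℝ) : ℂ) ∈ Sec k := ofReal_mem_Sec k hk (by norm_num)
  obtain ⟨ℓ, hℓ1, hℓ2⟩ := exists_log (Sec_open k) (Sec_convex k) ⟨_, h2mem⟩ hFd h0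
  set G : ℂ → ℂ := fun s => s * LT A s with hG
  set V : Set ℂ := Sec k ∩ {s | 1 < s.re} with hV
  have hVo : IsOpen V := (Sec_open k).inter (halfplane_open 1)
  have hVc : IsPreconnected V := ((Sec_convex k).inter (halfplane_convex 1)).isPreconnected
  have hGd : DifferentiableOn ℂ G {s | 1 < s.re} := fun s hs =>
    (differentiableAt_id.mul (hA.differentiableAt hs)).differentiableWithinAt
  have h2V : ((2:ℝ) : ℂ) ∈ V := ⟨h2mem, by show (1:ℝ) < (((2:ℝ)) : ℂ).re; simp⟩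
  have huniq := log_unique hVo hVc (f := G) (g := ℓ) (hGd.mono fun q hq => hq.2)
    (hℓ1.mono fun q hq => hq.1) (fun q hq => by rw [hℓ2 q hq.1, hFA q hq.2]) h2V
  set c : ℂ := G ((2:ℝ):ℂ) - ℓ ((2:ℝ):ℂ) with hc
  set H : ℂ → ℂ := fun s => ℓ s + c with hH
  have hHd : DifferentiableOn ℂ H (Sec k) := hℓ1.add_const c
  have hHG : ∀ s ∈ V, H s = G s := by
    intro s hs
    have := huniq s hs
    rw [hH]
    simp only
    linear_combination (-1 : ℂ) * this
  refine ⟨H, hHd, fun s hs h1 => hHG s ⟨hs, h1⟩, ?_⟩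
  intro s hs h2
  have hsV : s ∈ V := ⟨hs, by show 1 < s.re; linarith⟩
  have h3 := far_bound hA h2 (norm_le_of_CSec k hk (Sec_sub_CSec k hs))
  have h4 : H =ᶠ[𝓝 s] G := by
    filter_upwards [hVo.mem_nhds hsV] with w hw using hHG w hw
  rw [hHG s hsV, h4.deriv_eq]
  exact h3

/-- a zero-free continuation to the sector gives subexponential growth of the averages -/
theorem growth_of_cont {k : ℕ} (hk : 1 ≤ k) {B : ℝ → ℝ} {C : ℝ} (hB : Tame B C) {F : ℂ → ℂ}
    (hF : ∀ z ∈ Sec k, AnalyticAt ℂ F z) (hFB : ∀ s : ℂ, 1 < s.re → F s = Complex.exp (s * LT B s))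
    (h0 : ∀ s ∈ Sec k, F s ≠ 0) {ε : ℝ} (hε : 0 < ε) :
    ∃ M : ℝ, ∀ v : ℝ, 1 ≤ v → |gaussAvg^[k] B v| ≤ M * Real.exp (ε * v) := by
  obtain ⟨H, hHd, hHG, hfar⟩ := sector_log hk hB hF hFB h0
  have hC := hB.C_nonneg
  have hHat : ∀ s ∈ Sec k, DifferentiableAt ℂ H s := fun s hs =>
    hHd.differentiableAt ((Sec_open k).mem_nhds hs)
  -- the compact part
  set Kε : Set ℂ := (CSec k ∩ {s | s.re ≤ 2}) ∩ {s | ε ≤ (s ^ (2 ^ k)).re} with hKε
  have hKc : IsCompact Kε := (compact_part k hk).inter_right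
    (isClosed_le continuous_const (by fun_prop))
  have hKS : Kε ⊆ Sec k := by
    intro s hs
    by_contra hcon
    have h1 := pow_re_nonpos k hk hs.1.1 hcon
    have h2 : ε ≤ (s ^ (2 ^ k)).re := hs.2
    linarith
  have hcont : ContinuousOn (fun s => ‖H s‖ + ‖s * deriv H s‖) Kε := by
    have h1 : ContinuousOn H (Sec k) := hHd.continuousOn
    have h2 : ContinuousOn (deriv H) (Sec k) := (hHd.deriv (Sec_open k)).continuousOn
    exact ((h1.norm).add (continuousOn_id.mul h2).norm).mono hKS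
  obtain ⟨M1, hM1⟩ := hKc.exists_bound_of_continuousOn hcont
  set M2 : ℝ := |M1| + 24 * C with hM2
  have hM20 : 0 ≤ M2 := by positivity
  have hb : ∀ s ∈ Sec k, ε ≤ (s ^ (2 ^ k)).re → ‖H s‖ + ‖s * deriv H s‖ ≤ M2 := by
    intro s hs h
    rcases le_or_gt s.re 2 with h2 | h2
    · have h3 := hM1 s ⟨⟨Sec_sub_CSec k hs, h2⟩, h⟩
      rw [Real.norm_eq_abs] at h3
      have h4 := le_abs_self (‖H s‖ + ‖s * deriv H s‖)
      have h5 := le_abs_self M1
      rw [hM2]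
      nlinarith
    · obtain ⟨h3, h4⟩ := hfar s hs h2.le
      rw [hM2]
      linarith [abs_nonneg M1]
  -- transfer
  set h : ℂ → ℂ := fun q => H (csq^[k] q) with hh
  have hhd : ∀ q ∈ RHP, HasDerivAt h (deriv H (csq^[k] q) * (csq^[k] q / (2 ^ k * q))) q := by
    intro q hq
    exact (hHat _ (csqI_mem_Sec k hk hq)).hasDerivAt.comp q (hasDerivAt_csqI k hq)
  have hqd : ∀ q ∈ RHP, ‖q * deriv h q‖ ≤ ‖csq^[k] q * deriv H (csq^[k] q)‖ := by
    intro q hq
    have hq0 : q ≠ 0 := by rintro rfl; simp [RHP] at hq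
    rw [(hhd q hq).deriv]
    have e : q * (deriv H (csq^[k] q) * (csq^[k] q / (2 ^ k * q))) =
        (csq^[k] q * deriv H (csq^[k] q)) / 2 ^ k := by field_simp
    rw [e, norm_div]
    apply div_le_self (norm_nonneg _)
    rw [norm_pow]
    apply one_le_pow₀
    simp
  have hhb : ∀ q : ℂ, ε ≤ q.re → ‖h q‖ + ‖q * deriv h q‖ ≤ M2 := by
    intro q hq
    have hq0 : q ∈ RHP := by show 0 < q.re; linarith
    have h1 := hb _ (csqI_mem_Sec k hk hq0) (by rw [csqI_pow]; exact hq)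
    have h2 := hqd q hq0
    linarith
  -- the exponentially weighted function
  obtain ⟨j, rfl⟩ : ∃ j, k = j + 1 := ⟨k - 1, by omega⟩
  set Bk : ℝ → ℝ := gaussAvg^[j + 1] B with hBk
  have hBkt : Tame Bk (2 ^ (j + 1) * C) := hB.iter (j + 1)
  have hBkc : ContinuousOn Bk (Ioi 0) := by
    rw [hBk, Function.iterate_succ']
    exact (hB.iter j).continuousOn_gaussAvg
  set f : ℝ → ℝ := fun v => Bk v * Real.exp (-(ε * v)) with hf
  have hft : Tame f (2 ^ (j + 1) * C) :=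
    { meas := hBkt.meas.mul (by fun_prop)
      bound := by
        intro t ht
        have h1 := hBkt.bound t ht
        have h2 : Real.exp (-(ε * t)) ≤ 1 := by
          rw [Real.exp_le_one_iff]
          have := mul_pos hε ht
          linarith
        rw [hf]
        simp only
        rw [abs_mul, abs_of_pos (Real.exp_pos _)]
        calc |Bk t| * Real.exp (-(ε * t)) ≤ |Bk t| * 1 :=
              mul_le_mul_of_nonneg_left h2 (abs_nonneg _)
          _ ≤ _ := by rw [mul_one]; exact h1 }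
  have hfc : ContinuousOn f (Ioi 0) := hBkc.mul (by fun_prop)
  have hLTf : ∀ q : ℂ, LT f q = LT Bk (q + ε) := by
    intro q
    unfold LT
    congr 1
    funext t
    rw [hf]
    simp only
    rw [Complex.ofReal_mul, mul_assoc, Complex.ofReal_exp, ← Complex.exp_add]
    congr 2
    push_cast
    ring
  have hre : ∀ q : ℂ, (q + (ε : ℂ)).re = q.re + ε := by
    intro q; rw [Complex.add_re, Complex.ofReal_re]
  have hne : ∀ q : ℂ, 0 < q.re → q + (ε : ℂ) ≠ 0 := by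
    intro q hq hcon
    have := hre q
    rw [hcon, Complex.zero_re] at this
    linarith
  set g : ℂ → ℂ := fun q => q / (q + ε) * h (q + ε) with hg
  have hgd : ∀ q : ℂ, 0 < q.re → HasDerivAt g
      ((1 * (q + ε) - q * 1) / (q + ε) ^ 2 * h (q + ε) + q / (q + ε) * (deriv h (q + ε) * 1)) q := by
    intro q hq
    have h1 : HasDerivAt (fun q : ℂ => q + (ε : ℂ)) 1 q := (hasDerivAt_id q).add_const _
    have h2 : HasDerivAt (fun q : ℂ => q / (q + (ε : ℂ))) ((1 * (q + ε) - q * 1) / (q + ε) ^ 2) q :=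
      (hasDerivAt_id q).div h1 (hne q hq)
    have h3 : HasDerivAt h (deriv h (q + ε)) (q + ε) :=
      (hhd (q + ε) (by show 0 < (q + (ε:ℂ)).re; rw [hre]; linarith)).differentiableAt.hasDerivAt
    have h4 : HasDerivAt (fun q : ℂ => h (q + (ε : ℂ))) (deriv h (q + ε) * 1) q :=
      HasDerivAt.comp (h := fun q : ℂ => q + (ε : ℂ)) (h₂ := h) q h3 h1
    exact h2.mul h4
  have hbound : ∀ q : ℂ, 0 < q.re → ‖g q‖ + ‖q * deriv g q‖ ≤ 3 * M2 := by
    intro q hq
    have hx : ‖h (q + ε)‖ + ‖(q + ε) * deriv h (q + ε)‖ ≤ M2 := hhb _ (by rw [hre]; linarith)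
    have hn : 0 < ‖q + (ε : ℂ)‖ := norm_pos_iff.2 (hne q hq)
    have hle : ‖q‖ ≤ ‖q + (ε:ℂ)‖ := by
      rw [← sq_le_sq₀ (norm_nonneg _) (norm_nonneg _), ← Complex.normSq_eq_norm_sq,
        ← Complex.normSq_eq_norm_sq, Complex.normSq_apply, Complex.normSq_apply, Complex.add_re,
        Complex.add_im, Complex.ofReal_re, Complex.ofReal_im]
      nlinarith
    have hleε : ε ≤ ‖q + (ε:ℂ)‖ := by
      refine le_trans ?_ (Complex.re_le_norm _)
      rw [hre]; linarith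
    have hu : ‖q / (q + ε)‖ ≤ 1 := by
      rw [norm_div, div_le_one hn]; exact hle
    have hw : ‖(ε : ℂ) / (q + ε)‖ ≤ 1 := by
      rw [norm_div, div_le_one hn, Complex.norm_real, Real.norm_of_nonneg hε.le]; exact hleε
    have h1 : ‖g q‖ ≤ ‖h (q + ε)‖ := by
      rw [hg]
      simp only
      rw [norm_mul]
      exact mul_le_of_le_one_left (norm_nonneg _) hu
    have h2 : q * deriv g q = (q / (q + ε)) * ((ε / (q + ε)) * h (q + ε)) +
        (q / (q + ε)) * ((q / (q + ε)) * ((q + ε) * deriv h (q + ε))) := by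
      rw [(hgd q hq).deriv]
      have := hne q hq
      field_simp
      ring
    have h3 : ‖(q / (q + ε)) * ((ε / (q + ε)) * h (q + ε))‖ ≤ ‖h (q + ε)‖ := by
      rw [norm_mul, norm_mul]
      calc ‖q / (q + ε)‖ * (‖(ε:ℂ) / (q + ε)‖ * ‖h (q + ε)‖) ≤ 1 * (1 * ‖h (q + ε)‖) := by
            gcongr
        _ = _ := by ring
    have h4 : ‖(q / (q + ε)) * ((q / (q + ε)) * ((q + ε) * deriv h (q + ε)))‖ ≤
        ‖(q + ε) * deriv h (q + ε)‖ := by
      rw [norm_mul, norm_mul (q / (q + ε)) ((q + ε) * deriv h (q + ε))]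
      calc ‖q / (q + ε)‖ * (‖q / (q + ε)‖ * ‖(q + ε) * deriv h (q + ε)‖) ≤
            1 * (1 * ‖(q + ε) * deriv h (q + ε)‖) := by gcongr
        _ = _ := by ring
    have h5 : ‖q * deriv g q‖ ≤ ‖h (q + ε)‖ + ‖(q + ε) * deriv h (q + ε)‖ := by
      rw [h2]
      exact (norm_add_le _ _).trans (add_le_add h3 h4)
    linarith [norm_nonneg (h (q + ε)), norm_nonneg ((q + ε) * deriv h (q + ε))]
  obtain ⟨C', hC'⟩ := bounded_of_transform hft hfc (h := g) (M := 3 * M2) (r := 1)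
    (fun q hq => (hgd q hq).differentiableAt.differentiableWithinAt) (by
      intro q hq
      have hq0 : q ≠ 0 := by rintro rfl; simp at hq; linarith
      have hqε : 1 < (q + (ε:ℂ)).re := by rw [hre]; linarith
      have hqε0 : q + (ε : ℂ) ≠ 0 := hne q (by linarith)
      have h1 := LT_iter hB (j + 1) hqε
      have h2 : h (q + ε) = (q + ε) * LT Bk (q + ε) := by
        rw [hBk, h1, hh]
        simp only
        rw [hHG _ (csqI_mem_Sec (j + 1) hk (show 0 < (q + (ε:ℂ)).re by linarith))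
          (iter_re (j + 1) hqε)]
      rw [hLTf, hg]
      simp only
      rw [h2]
      field_simp) one_pos (fun q hq _ => hbound q hq) (fun q hq _ => by
      refine (hbound q hq).trans ?_
      have : 0 ≤ 1 / q.re := by positivity
      have h3 : 0 ≤ 3 * M2 := by positivity
      nlinarith)
  refine ⟨C', fun v hv => ?_⟩
  have h1 := hC' v hv
  rw [hf] at h1
  simp only at h1
  rw [abs_mul, abs_of_pos (Real.exp_pos _), Real.exp_neg, ← div_eq_mul_inv,
    div_le_iff₀ (Real.exp_pos _)] at h1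
  exact h1

/-- the order is finite when there are no zeros in the sector -/
lemma order_finite' {k : ℕ} (hk : 1 ≤ k) {F : ℂ → ℂ} (h0 : ∀ s ∈ Sec k, F s ≠ 0) :
    ∃ r : ℕ, analyticOrderAt F 0 = r := by
  have : analyticOrderAt F 0 ≠ ⊤ := by
    intro h
    rw [analyticOrderAt_eq_top] at h
    have h1 : (0:ℂ) ∈ closure (Sec k) := mem_closure_Sec k hk ⟨by simp, by simp⟩
    obtain ⟨s, hs1, hs2⟩ := mem_closure_iff_nhds.1 h1 _ h
    exact h0 s hs2 hs1
  obtain ⟨r, hr⟩ := ENat.ne_top_iff_exists.1 this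
  exact ⟨r, hr.symm⟩

/-- the packaged equivalences: `A` is within a bounded distance of `-B` -/
theorem upper_iff' {A B : ℝ → ℝ} {C D E : ℝ} (hA : Tame A C) (hB : Tame B D)
    (hAB : ∀ t, 0 < t → |A t + B t| ≤ E) {F : ℂ → ℂ} {k : ℕ} (hk : 1 ≤ k)
    (hF : ∀ z ∈ CSec k, AnalyticAt ℂ F z)
    (hFB : ∀ s : ℂ, 1 < s.re → F s = Complex.exp (s * LT B s)) (c : ℝ) :
    (∃ M : ℝ, ∀ v : ℝ, 1 ≤ v → gaussAvg^[k] A v ≤ c * Real.log v + M) ↔
      ((∀ s ∈ Sec k, F s ≠ 0) ∧ ∃ r : ℕ, analyticOrderAt F 0 = r ∧ (r : ℝ) ≤ 2 ^ k * c) := by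
  have hkp : (0:ℝ) < 2 ^ k := by positivity
  constructor
  · rintro ⟨M, hM⟩
    have h0 := converse hk hB (F := F) (fun z hz => hF z (Sec_sub_CSec k hz)) hFB (c := c)
      (D := M + E)
      (fun v hv => by
        have h1 := hM v hv
        have h3 := (abs_le.1 (iter_neg_close hA hB hAB k (by linarith : 0 < v))).1
        linarith)
    obtain ⟨r, hr⟩ := order_finite' hk h0
    obtain ⟨C', hC'⟩ := direct hk hB (F := F) hF hFB h0 hr
    refine ⟨h0, r, hr, ?_⟩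
    have h3 := log_unbounded (a := (r:ℝ) / 2 ^ k - c) (b := C' + M + E) (fun v hv => by
        have h1 := hM v hv
        have h4 := (abs_le.1 (iter_neg_close hA hB hAB k (by linarith : 0 < v))).1
        have h5 := (abs_le.1 (hC' v hv)).2
        linarith)
    have h4 : (r:ℝ) / 2 ^ k ≤ c := by linarith
    rwa [div_le_iff₀ hkp, mul_comm] at h4
  · rintro ⟨h0, r, hr, hrc⟩
    obtain ⟨C', hC'⟩ := direct hk hB (F := F) hF hFB h0 hr
    refine ⟨C' + E, fun v hv => ?_⟩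
    have h4 := (abs_le.1 (iter_neg_close hA hB hAB k (by linarith : 0 < v))).2
    have h5 := (abs_le.1 (hC' v hv)).1
    have h6 : (r:ℝ) / 2 ^ k ≤ c := by rwa [div_le_iff₀ hkp, mul_comm]
    have h7 := mul_le_mul_of_nonneg_right h6 (Real.log_nonneg hv)
    linarith

theorem eq_iff' {A B : ℝ → ℝ} {C D E : ℝ} (hA : Tame A C) (hB : Tame B D)
    (hAB : ∀ t, 0 < t → |A t + B t| ≤ E) {F : ℂ → ℂ} {k : ℕ} (hk : 1 ≤ k)
    (hF : ∀ z ∈ CSec k, AnalyticAt ℂ F z)
    (hFB : ∀ s : ℂ, 1 < s.re → F s = Complex.exp (s * LT B s)) (c : ℝ) :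
    (∃ M : ℝ, ∀ v : ℝ, 1 ≤ v → |gaussAvg^[k] A v - c * Real.log v| ≤ M) ↔
      ((∀ s ∈ Sec k, F s ≠ 0) ∧ ∃ r : ℕ, analyticOrderAt F 0 = r ∧ (r : ℝ) = 2 ^ k * c) := by
  have hkp : (0:ℝ) < 2 ^ k := by positivity
  constructor
  · rintro ⟨M, hM⟩
    obtain ⟨h0, r, hr, hrc⟩ := (upper_iff' hA hB hAB hk hF hFB c).1
      ⟨M, fun v hv => by have := (abs_le.1 (hM v hv)).2; linarith⟩
    refine ⟨h0, r, hr, le_antisymm hrc ?_⟩
    obtain ⟨C', hC'⟩ := direct hk hB (F := F) hF hFB h0 hr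
    have h3 := log_unbounded (a := c - (r:ℝ) / 2 ^ k) (b := C' + M + E) (fun v hv => by
        have h1 := (abs_le.1 (hM v hv)).1
        have h4 := (abs_le.1 (iter_neg_close hA hB hAB k (by linarith : 0 < v))).2
        have h5 := (abs_le.1 (hC' v hv)).1
        linarith)
    have h4 : c ≤ (r:ℝ) / 2 ^ k := by linarith
    rwa [le_div_iff₀ hkp, mul_comm] at h4
  · rintro ⟨h0, r, hr, hrc⟩
    obtain ⟨C', hC'⟩ := direct hk hB (F := F) hF hFB h0 hr
    refine ⟨C' + E, fun v hv => ?_⟩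
    have h4 := iter_neg_close hA hB hAB k (by linarith : 0 < v)
    have h5 := hC' v hv
    have h6 : (r:ℝ) / 2 ^ k = c := by rw [hrc]; field_simp
    rw [h6] at h5
    rw [abs_le] at h4 h5 ⊢
    constructor <;> linarith [h4.1, h4.2, h5.1, h5.2]

lemma order_shift' {F : ℂ → ℂ} (hA : AnalyticAt ℂ F 1) :
    analyticOrderAt (fun q => F (1 + q)) 0 = analyticOrderAt F 1 := by
  have key : ∀ (G : ℂ → ℂ) (c d : ℂ), AnalyticAt ℂ G d → ∀ n : ℕ, analyticOrderAt G d = n →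
      analyticOrderAt (fun q => G (c + q)) (d - c) = n := by
    intro G c d hG n hn
    have h1 : AnalyticAt ℂ (fun q => G (c + q)) (d - c) := by
      have h2 : AnalyticAt ℂ G (c + (d - c)) := by rwa [add_sub_cancel]
      exact AnalyticAt.comp (f := fun q : ℂ => c + q) h2 (analyticAt_const.add analyticAt_id)
    obtain ⟨g, hg1, hg2, hg3⟩ := (hG.analyticOrderAt_eq_natCast).1 hn
    rw [h1.analyticOrderAt_eq_natCast]
    refine ⟨fun q => g (c + q), ?_, ?_, ?_⟩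
    · have h2 : AnalyticAt ℂ g (c + (d - c)) := by rwa [add_sub_cancel]
      exact AnalyticAt.comp (f := fun q : ℂ => c + q) h2 (analyticAt_const.add analyticAt_id)
    · simpa using hg2
    · have h3 : Tendsto (fun q : ℂ => c + q) (𝓝 (d - c)) (𝓝 d) := by
        have : Continuous (fun q : ℂ => c + q) := by fun_prop
        simpa using this.tendsto (d - c)
      filter_upwards [h3.eventually hg3] with q hq
      rw [hq]
      congr 2
      ring
  by_cases h : analyticOrderAt F 1 = ⊤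
  · rw [h]
    rw [analyticOrderAt_eq_top] at h ⊢
    have h3 : Tendsto (fun q : ℂ => 1 + q) (𝓝 0) (𝓝 1) := by
      have : Continuous (fun q : ℂ => 1 + q) := by fun_prop
      simpa using this.tendsto 0
    exact h3.eventually h
  · obtain ⟨r, hr⟩ := ENat.ne_top_iff_exists.1 h
    have := key F 1 1 hA r hr.symm
    rw [sub_self] at this
    rw [this, hr]

/-- growth criterion for a zero-free continuation -/
theorem growth_iff {A B : ℝ → ℝ} {C D E : ℝ} (hA : Tame A C) (hB : Tame B D)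
    (hAB : ∀ t, 0 < t → |A t + B t| ≤ E) {k : ℕ} (hk : 1 ≤ k) :
    (∀ ε : ℝ, 0 < ε → ∃ M : ℝ, ∀ v : ℝ, 1 ≤ v → |gaussAvg^[k] A v| ≤ M * Real.exp (ε * v)) ↔
      ∃ F : ℂ → ℂ, (∀ s : ℂ, s ∈ Sec k ∨ 1 < s.re → AnalyticAt ℂ F s ∧ F s ≠ 0) ∧
        ∀ s : ℂ, 1 < s.re → F s = Complex.exp (s * LT B s) := by
  constructor
  · intro h
    refine cont_of_growth hk hB fun ε hε => ?_
    obtain ⟨M, hM⟩ := h ε hε
    refine ⟨M + |E|, fun v hv => ?_⟩
    have h1 := hM v hv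
    have h2 := iter_neg_close hA hB hAB k (by linarith : 0 < v)
    have h3 : 1 ≤ Real.exp (ε * v) := Real.one_le_exp (by positivity)
    have h4 : E ≤ |E| * Real.exp (ε * v) :=
      (le_abs_self E).trans (le_mul_of_one_le_right (abs_nonneg _) h3)
    calc |gaussAvg^[k] B v| = |(gaussAvg^[k] A v + gaussAvg^[k] B v) - gaussAvg^[k] A v| := by
          rw [add_sub_cancel_left]
      _ ≤ |gaussAvg^[k] A v + gaussAvg^[k] B v| + |gaussAvg^[k] A v| := abs_sub _ _
      _ ≤ _ := by rw [add_mul]; linarith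
  · rintro ⟨F, hF, hFB⟩ ε hε
    obtain ⟨M, hM⟩ := growth_of_cont hk hB (F := F) (fun z hz => (hF z (Or.inl hz)).1) hFB
      (fun z hz => (hF z (Or.inl hz)).2) hε
    refine ⟨M + |E|, fun v hv => ?_⟩
    have h1 := hM v hv
    have h2 := iter_neg_close hA hB hAB k (by linarith : 0 < v)
    have h3 : 1 ≤ Real.exp (ε * v) := Real.one_le_exp (by positivity)
    have h4 : E ≤ |E| * Real.exp (ε * v) :=
      (le_abs_self E).trans (le_mul_of_one_le_right (abs_nonneg _) h3)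
    calc |gaussAvg^[k] A v| = |(gaussAvg^[k] A v + gaussAvg^[k] B v) - gaussAvg^[k] B v| := by
          rw [add_sub_cancel_right]
      _ ≤ |gaussAvg^[k] A v + gaussAvg^[k] B v| + |gaussAvg^[k] B v| := abs_sub _ _
      _ ≤ _ := by rw [add_mul]; linarith

/-- a function analytic along the closed ray is analytic on narrow closed sectors -/
lemma ray_analytic {B : ℝ → ℝ} {C : ℝ} (hB : Tame B C) {F : ℂ → ℂ}
    (hF : ∀ x : ℝ, 0 ≤ x → AnalyticAt ℂ F x)
    (hFB : ∀ s : ℂ, 1 < s.re → F s = Complex.exp (s * LT B s)) :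
    ∃ k0 : ℕ, 1 ≤ k0 ∧ ∀ k, k0 ≤ k → ∀ z ∈ CSec k, AnalyticAt ℂ F z := by
  have h2 : ∀ s : ℂ, 1 < s.re → AnalyticAt ℂ F s := by
    intro s hs
    have h1 : F =ᶠ[𝓝 s] fun w => Complex.exp (w * LT B w) := by
      filter_upwards [(halfplane_open 1).mem_nhds hs] with w hw using hFB w hw
    refine AnalyticAt.congr ?_ h1.symm
    have hd : DifferentiableOn ℂ (fun s => s * LT B s) {s | 1 < s.re} := fun s hs =>
      (differentiableAt_id.mul (hB.differentiableAt hs)).differentiableWithinAt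
    exact (hd.analyticAt ((halfplane_open 1).mem_nhds hs)).cexp
  set K : Set ℂ := (fun x : ℝ => (x : ℂ)) '' Icc (0:ℝ) 1 with hK
  have hKc : IsCompact K := isCompact_Icc.image Complex.continuous_ofReal
  have hKU : K ⊆ {z | AnalyticAt ℂ F z} := by
    rintro _ ⟨x, hx, rfl⟩
    exact hF x hx.1
  obtain ⟨δ, hδ, hsub⟩ := hKc.exists_thickening_subset_open (isOpen_analyticAt ℂ F) hKU
  obtain ⟨k0, hk1, hk2⟩ := tan_small hδ
  refine ⟨k0, hk1, fun k hk s hs => ?_⟩
  rcases lt_or_ge 1 s.re with h | h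
  · exact h2 s h
  · have hs0 : 0 ≤ s.re := hs.1
    have h3 : s ∈ Metric.thickening δ K := by
      rw [Metric.mem_thickening_iff]
      refine ⟨(s.re : ℂ), ⟨s.re, ⟨hs0, h⟩, rfl⟩, ?_⟩
      have h4 : s - (s.re : ℂ) = (s.im : ℂ) * Complex.I := by
        apply Complex.ext <;> simp
      rw [dist_eq_norm, h4, norm_mul, Complex.norm_I, mul_one, Complex.norm_real, Real.norm_eq_abs]
      have h5 := hs.2
      have h6 := hk2 k hk
      have h7 := tan_pos' k (hk1.trans hk)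
      nlinarith
    exact hsub h3

/-- a function without real zeros on the right of the vertex has no zeros in a narrow sector -/
lemma narrow' {F : ℂ → ℂ} (hF : ∀ x : ℝ, 0 ≤ x → AnalyticAt ℂ F x)
    (h2 : ∀ s : ℂ, 1 < s.re → F s ≠ 0) (hr : ∀ x : ℝ, 0 < x → F x ≠ 0) :
    ∃ k0 : ℕ, 1 ≤ k0 ∧ ∀ k, k0 ≤ k → ∀ s ∈ Sec k, F s ≠ 0 := by
  have hne : ∀ᶠ s in 𝓝[≠] (0:ℂ), F s ≠ 0 := by
    rcases (by simpa using hF 0 le_rfl :
      AnalyticAt ℂ F 0).eventually_eq_zero_or_eventually_ne_zero with h | h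
    · exfalso
      obtain ⟨r, hr0, hball⟩ := Metric.eventually_nhds_iff_ball.1 h
      have h3 := hball ((r / 2 : ℝ) : ℂ) (by
        rw [mem_ball_zero_iff, Complex.norm_real, Real.norm_of_nonneg (by positivity)]; linarith)
      exact hr (r / 2) (by positivity) h3
    · exact h
  set U : Set ℂ := {s | AnalyticAt ℂ F s ∧ F s ≠ 0} ∪ {0} with hU
  have hUi : ∀ x : ℝ, 0 ≤ x → U ∈ 𝓝 (x : ℂ) := by
    intro x hx
    rcases hx.eq_or_lt with h | h
    · rw [← h, Complex.ofReal_zero]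
      rw [eventually_nhdsWithin_iff] at hne
      filter_upwards [hne, (isOpen_analyticAt ℂ F).mem_nhds (by simpa using hF 0 le_rfl :
        AnalyticAt ℂ F 0)] with s hs hs2
      by_cases h : s = 0
      · exact Or.inr h
      · exact Or.inl ⟨hs2, hs h⟩
    · refine mem_of_superset ?_ subset_union_left
      have h1 := hF x hx
      filter_upwards [(isOpen_analyticAt ℂ F).mem_nhds h1,
        h1.continuousAt.eventually (isOpen_ne.mem_nhds (hr x h))] with s hs hs2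
      exact ⟨hs, hs2⟩
  set K : Set ℂ := (fun x : ℝ => (x : ℂ)) '' Icc (0:ℝ) 1 with hK
  have hKc : IsCompact K := isCompact_Icc.image Complex.continuous_ofReal
  have hKU : K ⊆ interior U := by
    rintro _ ⟨x, hx, rfl⟩
    exact mem_interior_iff_mem_nhds.2 (hUi x hx.1)
  obtain ⟨δ, hδ, hsub⟩ := hKc.exists_thickening_subset_open isOpen_interior hKU
  obtain ⟨k0, hk1, hk2⟩ := tan_small hδ
  refine ⟨k0, hk1, fun k hk s hs => ?_⟩
  rcases lt_or_ge 1 s.re with h | h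
  · exact h2 s h
  · have hs0 : 0 < s.re := hs.1
    have h3 : s ∈ Metric.thickening δ K := by
      rw [Metric.mem_thickening_iff]
      refine ⟨(s.re : ℂ), ⟨s.re, ⟨hs0.le, h⟩, rfl⟩, ?_⟩
      have h4 : s - (s.re : ℂ) = (s.im : ℂ) * Complex.I := by
        apply Complex.ext <;> simp
      rw [dist_eq_norm, h4, norm_mul, Complex.norm_I, mul_one, Complex.norm_real, Real.norm_eq_abs]
      have h5 := hs.2
      have h6 := hk2 k hk
      have h7 := tan_pos' k (hk1.trans hk)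
      nlinarith
    rcases interior_subset (hsub h3) with h4 | h4
    · exact h4.2
    · rw [mem_singleton_iff] at h4
      rw [h4] at hs0
      simp at hs0

/-- the averages of a function with logarithmic behaviour -/
lemma iter_up {A : ℝ → ℝ} {C : ℝ} (hA : Tame A C) {k : ℕ} {c M : ℝ}
    (h : ∀ v : ℝ, 1 ≤ v → |gaussAvg^[k] A v - (c / 2 ^ k) * Real.log v| ≤ M) (j : ℕ) :
    ∃ M' : ℝ, ∀ v : ℝ, 1 ≤ v → |gaussAvg^[k + j] A v - (c / 2 ^ (k + j)) * Real.log v| ≤ M' := by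
  have hC := (hA.iter k).C_nonneg
  have h1 : ∀ v : ℝ, 0 < v → |gaussAvg^[k] A v - (c / 2 ^ k) * lp v| ≤ |M| + 2 ^ k * C * Real.exp 1 := by
    intro v hv
    rcases le_or_gt 1 v with h2 | h2
    · rw [lp_of_one_le h2]
      have := h v h2
      have h3 := le_abs_self M
      have : 0 ≤ 2 ^ k * C * Real.exp 1 := by positivity
      linarith
    · rw [lp_of_le_one hv h2.le, mul_zero, sub_zero]
      have h3 := (hA.iter k).bound v hv
      have h4 : Real.exp v ≤ Real.exp 1 := Real.exp_le_exp.2 h2.le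
      have h5 := mul_le_mul_of_nonneg_left h4 hC
      linarith [abs_nonneg M]
  obtain ⟨E, hE⟩ := iter_lp j
  refine ⟨|M| + 2 ^ k * C * Real.exp 1 + |c / 2 ^ k| * E, fun v hv => ?_⟩
  have hv0 : 0 < v := by linarith
  have h2 := iter_close (hA.iter k) (tame_lp.const_mul (c / 2 ^ k)) h1 j hv0
  rw [iter_const_mul lp _ j hv0, ← Function.iterate_add_apply, add_comm j k] at h2
  have h3 := hE v hv0
  rw [lp_of_one_le hv] at h3
  have h4 : (c / 2 ^ (k + j)) * Real.log v = (c / 2 ^ k) * ((1 / 2 ^ j) * Real.log v) := by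
    rw [pow_add]; field_simp
  rw [h4]
  have h5 : |c / 2 ^ k * gaussAvg^[j] lp v - (c / 2 ^ k) * ((1 / 2 ^ j) * Real.log v)| ≤
      |c / 2 ^ k| * E := by
    rw [← mul_sub, abs_mul]
    exact mul_le_mul_of_nonneg_left h3 (abs_nonneg _)
  calc |gaussAvg^[k + j] A v - (c / 2 ^ k) * ((1 / 2 ^ j) * Real.log v)| =
      |(gaussAvg^[k + j] A v - c / 2 ^ k * gaussAvg^[j] lp v) +
        (c / 2 ^ k * gaussAvg^[j] lp v - (c / 2 ^ k) * ((1 / 2 ^ j) * Real.log v))| := by ring_nf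
    _ ≤ _ := (abs_add_le _ _).trans (add_le_add h2 h5)

/-- the equivalence along the ray -/
theorem ray_iff {A B : ℝ → ℝ} {C D E : ℝ} (hA : Tame A C) (hB : Tame B D)
    (hAB : ∀ t, 0 < t → |A t + B t| ≤ E) {F : ℂ → ℂ}
    (hF : ∀ x : ℝ, 0 ≤ x → AnalyticAt ℂ F x)
    (hFB : ∀ s : ℂ, 1 < s.re → F s = Complex.exp (s * LT B s)) (ρ : ℕ) :
    (((∀ x : ℝ, 0 < x → F x ≠ 0) ∧ analyticOrderAt F 0 = (ρ : ℕ∞)) ↔
      ∃ k : ℕ, 1 ≤ k ∧ ∃ M : ℝ, ∀ v : ℝ, 1 ≤ v →
        |gaussAvg^[k] A v - (ρ / 2 ^ k : ℝ) * Real.log v| ≤ M) ∧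
    (((∀ x : ℝ, 0 < x → F x ≠ 0) ∧ analyticOrderAt F 0 = (ρ : ℕ∞)) ↔
      ∃ k₀ : ℕ, 1 ≤ k₀ ∧ ∀ k : ℕ, k₀ ≤ k → ∃ M : ℝ, ∀ v : ℝ, 1 ≤ v →
        |gaussAvg^[k] A v - (ρ / 2 ^ k : ℝ) * Real.log v| ≤ M) := by
  obtain ⟨k1, hk1, hk1'⟩ := ray_analytic hB hF hFB
  have h1 : ((∀ x : ℝ, 0 < x → F x ≠ 0) ∧ analyticOrderAt F 0 = (ρ : ℕ∞)) →
      ∃ k₀ : ℕ, 1 ≤ k₀ ∧ ∀ k : ℕ, k₀ ≤ k → ∃ M : ℝ, ∀ v : ℝ, 1 ≤ v →
        |gaussAvg^[k] A v - (ρ / 2 ^ k : ℝ) * Real.log v| ≤ M := by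
    rintro ⟨h1, h2⟩
    obtain ⟨k2, hk2, hk2'⟩ := narrow' hF (fun s hs => by rw [hFB s hs]; exact Complex.exp_ne_zero _) h1
    refine ⟨max k1 k2, le_max_of_le_left hk1, fun k hk => ?_⟩
    have e1 : k1 ≤ k := (le_max_left _ _).trans hk
    have e2 : k2 ≤ k := (le_max_right _ _).trans hk
    refine (eq_iff' hA hB hAB (hk1.trans e1) (hk1' k e1) hFB _).2 ⟨hk2' k e2, ρ, h2, ?_⟩
    field_simp
  have h2 : (∃ k : ℕ, 1 ≤ k ∧ ∃ M : ℝ, ∀ v : ℝ, 1 ≤ v →
        |gaussAvg^[k] A v - (ρ / 2 ^ k : ℝ) * Real.log v| ≤ M) →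
      ((∀ x : ℝ, 0 < x → F x ≠ 0) ∧ analyticOrderAt F 0 = (ρ : ℕ∞)) := by
    rintro ⟨k, hk, M, hM⟩
    obtain ⟨M', hM'⟩ := iter_up hA hM k1
    have e1 : k1 ≤ k + k1 := by omega
    obtain ⟨h3, r, hr, hrc⟩ := (eq_iff' hA hB hAB (hk1.trans e1) (hk1' (k + k1) e1) hFB _).1 ⟨M', hM'⟩
    refine ⟨fun x hx => h3 x (ofReal_mem_Sec _ (hk1.trans e1) hx), ?_⟩
    rw [hr]
    have h5 : (r : ℝ) = ρ := by rw [hrc]; field_simp
    exact_mod_cast h5
  refine ⟨⟨fun h => ?_, h2⟩, ⟨h1, fun ⟨k₀, hk0, h⟩ => h2 ⟨k₀, hk0, h k₀ le_rfl⟩⟩⟩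
  obtain ⟨k₀, hk0, hk⟩ := h1 h
  exact ⟨k₀, hk0, hk k₀ le_rfl⟩

end

end Pool.Agent.W334.BSD
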