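import Pool.Agent.W334.BSD.LT

/-!
# Laplace transform of a Gaussian average
-/

set_option autoImplicit false
open MeasureTheory Set Filter Topology

namespace Pool.Agent.W334.BSD

noncomputable section

/-- square root -/
def csq (q : ℂ) : ℂ := q ^ (1 / 2 : ℂ)

lemma csq_sq {q : ℂ} : csq q ^ 2 = q := by
  unfold csq
  rw [← Complex.cpow_nat_mul]
  simp

lemma csq_ne_zero {q : ℂ} (hq : q ≠ 0) : csq q ≠ 0 := by
  intro h
  apply hq
  rw [← csq_sq (q := q), h]
  simp

lemma csq_re_pos {q : ℂ} (hq : 0 < q.re) : 0 < (csq q).re := by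
  have hq0 : q ≠ 0 := by rintro rfl; simp at hq
  unfold csq
  rw [Complex.cpow_def_of_ne_zero hq0, Complex.exp_re]
  refine mul_pos (Real.exp_pos _) ?_
  apply Real.cos_pos_of_mem_Ioo
  have h1 : (Complex.log q * (1 / 2)).im = q.arg / 2 := by
    rw [show (1 / 2 : ℂ) = ((1 / 2 : ℝ) : ℂ) by push_cast; ring, Complex.im_mul_ofReal,
      Complex.log_im]
    ring
  rw [h1]
  have h2 := Complex.abs_arg_lt_pi_div_two_iff.2 (Or.inl hq)
  rw [abs_lt] at h2
  constructor <;> linarith [h2.1, h2.2, Real.pi_pos]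

lemma csq_re_sq {q : ℂ} : (csq q).re ^ 2 = q.re + (csq q).im ^ 2 := by
  have h1 : (csq q ^ 2).re = q.re := by rw [csq_sq]
  rw [sq, Complex.mul_re] at h1
  nlinarith

lemma one_lt_csq_re {q : ℂ} (hq : 1 < q.re) : 1 < (csq q).re := by
  have h1 := csq_re_pos (by linarith : 0 < q.re)
  have h2 := csq_re_sq (q := q)
  nlinarith [sq_nonneg (csq q).im]

lemma csq_ofReal {q : ℝ} (hq : 0 ≤ q) : csq (q : ℂ) = (Real.sqrt q : ℂ) := by
  unfold csq
  rw [Real.sqrt_eq_rpow, Complex.ofReal_cpow hq]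
  norm_num

lemma norm_exp_ker (t v : ℝ) (q : ℂ) :
    ‖(gker t v : ℂ) * Complex.exp (-(q * v))‖ = gker t v * Real.exp (-(q.re * v)) := by
  rw [norm_mul, Complex.norm_real, Real.norm_of_nonneg (gker_nonneg t v), Complex.norm_exp]
  congr 2
  simp

/-- Laplace transform in `v` of the kernel -/
lemma lap_gker {t : ℝ} (ht : 0 < t) {q : ℂ} (hq : 0 < q.re) :
    IntegrableOn (fun v : ℝ => (gker t v : ℂ) * Complex.exp (-(q * v))) (Ioi 0) ∧
    ∫ v in Ioi (0:ℝ), (gker t v : ℂ) * Complex.exp (-(q * v)) =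
      Complex.exp (-(csq q * t)) / csq q := by
  have hq0 : q ≠ 0 := by rintro rfl; simp at hq
  have hs0 := csq_ne_zero hq0
  have hre : 0 < (2 * csq q).re := by
    have := csq_re_pos hq
    rw [show (2 : ℂ) = ((2:ℝ):ℂ) by norm_num, Complex.re_ofReal_mul]
    linarith
  have hsq : (2 * csq q) ^ 2 = 4 * q := by
    rw [mul_pow, csq_sq]; norm_num
  have hre2 : 0 < ((2 * csq q) ^ 2).re := by
    rw [hsq, show (4 : ℂ) = ((4:ℝ):ℂ) by norm_num, Complex.re_ofReal_mul]
    linarith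
  obtain ⟨h1, h2⟩ := Pool.Agent.Helper5.PG.glasser_cplx (2 * csq q) (t ^ 2 / 4) hre hre2 (by positivity)
  have hsqrt : Real.sqrt (t ^ 2 / 4) = t / 2 := by
    rw [show t ^ 2 / 4 = (t / 2) ^ 2 by ring, Real.sqrt_sq (by positivity)]
  set g : ℝ → ℂ := fun w : ℝ => ((w ^ (-(3 / 2) : ℝ) : ℝ) : ℂ) *
      Complex.exp (-((2 * csq q) ^ 2 / (4 * w)) - ((t ^ 2 / 4 : ℝ) : ℂ) * w) with hg
  have key : ∀ v ∈ Ioi (0:ℝ), (|(-1:ℝ)| * v ^ ((-1:ℝ) - 1)) • g (v ^ (-1:ℝ)) =
      ((Real.sqrt Real.pi : ℝ) : ℂ) * ((gker t v : ℂ) * Complex.exp (-(q * v))) := by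
    intro v hv
    have hv0 : (0:ℝ) < v := hv
    rw [hg]
    simp only
    rw [hsq, abs_neg, abs_one, one_mul, Real.rpow_neg_one, Complex.real_smul, ← mul_assoc,
      ← Complex.ofReal_mul]
    have e1 : v ^ ((-1:ℝ) - 1) * v⁻¹ ^ (-(3 / 2) : ℝ) = (Real.sqrt v)⁻¹ := by
      rw [Real.inv_rpow hv0.le, ← Real.rpow_neg hv0.le, ← Real.rpow_add hv0, Real.sqrt_eq_rpow,
        ← Real.rpow_neg hv0.le]
      congr 1
      norm_num
    rw [e1]
    unfold gker
    rw [Real.sqrt_mul Real.pi_pos.le]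
    have hp : 0 < Real.sqrt Real.pi := Real.sqrt_pos.2 Real.pi_pos
    have hsv : 0 < Real.sqrt v := Real.sqrt_pos.2 hv0
    have e2 : Complex.exp (-(4 * q / (4 * ((v⁻¹ : ℝ) : ℂ))) - ((t ^ 2 / 4 : ℝ) : ℂ) * ((v⁻¹ : ℝ) : ℂ)) =
        ((Real.exp (-(t ^ 2 / (4 * v))) : ℝ) : ℂ) * Complex.exp (-(q * v)) := by
      rw [Complex.ofReal_exp, ← Complex.exp_add]
      congr 1
      have hvc : (v : ℂ) ≠ 0 := by exact_mod_cast hv0.ne'
      push_cast
      field_simp
      ring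
    rw [e2]
    have hpc : ((Real.sqrt Real.pi : ℝ) : ℂ) ≠ 0 := by exact_mod_cast hp.ne'
    have hsc : ((Real.sqrt v : ℝ) : ℂ) ≠ 0 := by exact_mod_cast hsv.ne'
    push_cast
    field_simp
  have hint1 : IntegrableOn (fun v : ℝ => (|(-1:ℝ)| * v ^ ((-1:ℝ) - 1)) • g (v ^ (-1:ℝ))) (Ioi 0) :=
    (integrableOn_Ioi_comp_rpow_iff g (by norm_num)).2 h1
  have hint2 := integral_comp_rpow_Ioi g (p := -1) (by norm_num)
  have hp : 0 < Real.sqrt Real.pi := Real.sqrt_pos.2 Real.pi_pos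
  have hpc : ((Real.sqrt Real.pi : ℝ) : ℂ) ≠ 0 := by exact_mod_cast hp.ne'
  have hint3 : IntegrableOn (fun v : ℝ => ((Real.sqrt Real.pi : ℝ) : ℂ) *
      ((gker t v : ℂ) * Complex.exp (-(q * v)))) (Ioi 0) :=
    hint1.congr_fun key measurableSet_Ioi
  constructor
  · have := hint3.const_mul (((Real.sqrt Real.pi : ℝ) : ℂ)⁻¹)
    refine this.congr (Eventually.of_forall fun v => ?_)
    show ((Real.sqrt Real.pi : ℝ) : ℂ)⁻¹ * (((Real.sqrt Real.pi : ℝ) : ℂ) * _) = _
    rw [inv_mul_cancel_left₀ hpc]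
  · rw [setIntegral_congr_fun measurableSet_Ioi key, integral_const_mul] at hint2
    have h3 : ∫ y in Ioi (0:ℝ), g y = (2 * Real.sqrt Real.pi / (2 * csq q)) *
        Complex.exp (-((2 * csq q) * Real.sqrt (t ^ 2 / 4))) := h2
    rw [h3, hsqrt] at hint2
    have h4 : (-((2 * csq q) * ((t / 2 : ℝ) : ℂ))) = -(csq q * t) := by push_cast; ring
    rw [h4] at hint2
    have h5 : ∫ v in Ioi (0:ℝ), (gker t v : ℂ) * Complex.exp (-(q * v)) =
        ((Real.sqrt Real.pi : ℝ) : ℂ)⁻¹ * ((2 * Real.sqrt Real.pi / (2 * csq q)) *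
        Complex.exp (-(csq q * t))) := by
      rw [← hint2, inv_mul_cancel_left₀ hpc]
    rw [h5]
    field_simp

lemma lap_gker_real {t : ℝ} (ht : 0 < t) {x : ℝ} (hx : 0 < x) :
    IntegrableOn (fun v : ℝ => gker t v * Real.exp (-(x * v))) (Ioi 0) ∧
    ∫ v in Ioi (0:ℝ), gker t v * Real.exp (-(x * v)) =
      Real.exp (-(Real.sqrt x * t)) / Real.sqrt x := by
  obtain ⟨h1, h2⟩ := lap_gker ht (q := (x : ℂ)) (by simpa using hx)
  have e : (fun v : ℝ => (gker t v : ℂ) * Complex.exp (-((x:ℂ) * v))) =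
      fun v : ℝ => ((gker t v * Real.exp (-(x * v)) : ℝ) : ℂ) := by
    funext v; push_cast; ring
  rw [e] at h1 h2
  constructor
  · refine h1.re.congr (Eventually.of_forall fun v => ?_)
    exact Complex.ofReal_re _
  · rw [csq_ofReal hx.le] at h2
    have h3 : ∫ v in Ioi (0:ℝ), ((gker t v * Real.exp (-(x * v)) : ℝ) : ℂ) =
        ((∫ v in Ioi (0:ℝ), gker t v * Real.exp (-(x * v)) : ℝ) : ℂ) := integral_ofReal
    rw [h3] at h2
    apply Complex.ofReal_injective
    rw [h2]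
    push_cast
    rfl

/-- the Laplace transform of a Gaussian average -/
lemma LT_gaussAvg {f : ℝ → ℝ} {C : ℝ} (h : Tame f C) {q : ℂ} (hq : 1 < q.re) :
    LT (gaussAvg f) q = LT f (csq q) / csq q := by
  have hq0 : 0 < q.re := by linarith
  have hsq : 1 < Real.sqrt q.re := by rw [Real.lt_sqrt (by norm_num)]; simpa using hq
  set Φ : ℝ → ℝ → ℂ := fun v t => ((f t : ℝ) : ℂ) * ((gker t v : ℂ) * Complex.exp (-(q * v))) with hΦ
  have hmeas : Measurable (Function.uncurry Φ) := by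
    rw [hΦ]
    show Measurable (fun p : ℝ × ℝ => ((f p.2 : ℝ) : ℂ) * ((gker p.2 p.1 : ℂ) * Complex.exp (-(q * p.1))))
    refine (Complex.measurable_ofReal.comp (h.meas.comp measurable_snd)).mul
      ((Complex.measurable_ofReal.comp (gker_measurable.comp (measurable_snd.prodMk measurable_fst))).mul ?_)
    fun_prop
  have hint : Integrable (Function.uncurry Φ)
      ((volume.restrict (Ioi (0:ℝ))).prod (volume.restrict (Ioi (0:ℝ)))) := by
    rw [integrable_prod_iff' hmeas.aestronglyMeasurable]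
    constructor
    · refine (ae_restrict_iff' measurableSet_Ioi).2 (Eventually.of_forall fun t ht => ?_)
      exact Integrable.const_mul (lap_gker ht hq0).1 ((f t : ℝ) : ℂ)
    · have e : ∀ t ∈ Ioi (0:ℝ), ∫ v in Ioi (0:ℝ), ‖Function.uncurry Φ (v, t)‖ =
          |f t| * (Real.exp (-(Real.sqrt q.re * t)) / Real.sqrt q.re) := by
        intro t ht
        rw [← (lap_gker_real ht hq0).2, ← integral_const_mul]
        congr 1
        funext v
        show ‖((f t : ℝ) : ℂ) * ((gker t v : ℂ) * Complex.exp (-(q * v)))‖ = _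
        rw [norm_mul, norm_exp_ker, Complex.norm_real, Real.norm_eq_abs]
      refine IntegrableOn.congr_fun ?_ (fun t ht => (e t ht).symm) measurableSet_Ioi
      have h1 := (h.integrableOn (s := ((Real.sqrt q.re : ℝ) : ℂ)) (by simpa using hsq)).norm
      have h2 := h1.div_const (Real.sqrt q.re)
      refine h2.congr (Eventually.of_forall fun t => ?_)
      show ‖((f t : ℝ) : ℂ) * Complex.exp (-(((Real.sqrt q.re : ℝ) : ℂ) * t))‖ / _ = _
      rw [norm_mul, Complex.norm_real, Real.norm_eq_abs, Complex.norm_exp, mul_div_assoc]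
      congr 3
      simp
  have hswap := integral_integral_swap hint
  unfold LT
  calc ∫ v in Ioi (0:ℝ), ((gaussAvg f v : ℝ) : ℂ) * Complex.exp (-(q * v))
      = ∫ v in Ioi (0:ℝ), ∫ t in Ioi (0:ℝ), Φ v t := by
        congr 1
        funext v
        unfold gaussAvg
        have e0 : ((∫ t in Ioi (0:ℝ), f t * gker t v : ℝ) : ℂ) =
            ∫ t in Ioi (0:ℝ), ((f t * gker t v : ℝ) : ℂ) := integral_ofReal.symm
        rw [e0, ← integral_mul_const]
        congr 1
        funext t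
        rw [hΦ]
        push_cast
        ring
    _ = ∫ t in Ioi (0:ℝ), ∫ v in Ioi (0:ℝ), Φ v t := hswap
    _ = ∫ t in Ioi (0:ℝ), ((f t : ℝ) : ℂ) * (Complex.exp (-(csq q * t)) / csq q) := by
        refine setIntegral_congr_fun measurableSet_Ioi fun t ht => ?_
        show ∫ v in Ioi (0:ℝ), ((f t : ℝ) : ℂ) * ((gker t v : ℂ) * Complex.exp (-(q * v))) = _
        rw [integral_const_mul, (lap_gker ht hq0).2]
    _ = _ := by
        rw [← integral_div]
        congr 1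
        funext t
        ring

end

end Pool.Agent.W334.BSD
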