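import Mathlib
import Pool.Agent.H295R2.Lap
import Pool.Agent.Helper5.Pf.GlasserCplx

/-!
# Laplace transforms and Gaussian averages
-/

set_option autoImplicit false
open MeasureTheory Set Filter Topology

namespace Pool.Agent.W334.BSD

noncomputable section

/-- measurable, of growth at most `C e^t` on `(0,∞)` -/
structure Tame (f : ℝ → ℝ) (C : ℝ) : Prop where
  meas : Measurable f
  bound : ∀ t : ℝ, 0 < t → |f t| ≤ C * Real.exp t

/-- Laplace transform -/
def LT (f : ℝ → ℝ) (s : ℂ) : ℂ := ∫ t in Ioi (0:ℝ), (f t : ℂ) * Complex.exp (-(s * t))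

/-- extension by zero -/
def ext (f : ℝ → ℝ) : ℝ → ℂ := (Ioi (0:ℝ)).indicator fun t => (f t : ℂ)

lemma Tame.C_nonneg {f : ℝ → ℝ} {C : ℝ} (h : Tame f C) : 0 ≤ C := by
  have h1 := (abs_nonneg _).trans (h.bound 1 one_pos)
  by_contra hc
  push Not at hc
  have := mul_neg_of_neg_of_pos hc (Real.exp_pos 1)
  linarith

lemma Tame.nice' {f : ℝ → ℝ} {C : ℝ} (h : Tame f C) {u₀ : ℝ}
    (hz : ∀ t, t < u₀ → f t = 0) : Pool.Agent.H295R2.Nice (ext f) C 1 u₀ where
  meas := (Complex.measurable_ofReal.comp h.meas).indicator measurableSet_Ioi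
  bound := by
    intro u
    unfold ext
    by_cases hu0 : u ∈ Ioi (0:ℝ)
    · rw [indicator_of_mem hu0, Complex.norm_real, Real.norm_eq_abs, one_mul]
      exact h.bound u hu0
    · rw [indicator_of_notMem hu0, norm_zero]
      exact mul_nonneg h.C_nonneg (Real.exp_pos _).le
  zero := by
    intro u hu1
    unfold ext
    by_cases hu0 : u ∈ Ioi (0:ℝ)
    · rw [indicator_of_mem hu0, hz u hu1, Complex.ofReal_zero]
    · rw [indicator_of_notMem hu0]

lemma Tame.nice {f : ℝ → ℝ} {C : ℝ} (h : Tame f C) :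
    Pool.Agent.H295R2.Nice (ext f) C 1 0 where
  meas := (Complex.measurable_ofReal.comp h.meas).indicator measurableSet_Ioi
  bound := by
    intro u
    unfold ext
    by_cases hu0 : u ∈ Ioi (0:ℝ)
    · rw [indicator_of_mem hu0, Complex.norm_real, Real.norm_eq_abs, one_mul]
      exact h.bound u hu0
    · rw [indicator_of_notMem hu0, norm_zero]
      exact mul_nonneg h.C_nonneg (Real.exp_pos _).le
  zero := by
    intro u hu1
    unfold ext
    rw [indicator_of_notMem]
    simpa using hu1.le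

lemma LT_eq (f : ℝ → ℝ) (s : ℂ) : LT f s = Pool.Agent.H295R2.Lap (ext f) s := by
  unfold LT Pool.Agent.H295R2.Lap ext
  rw [← integral_indicator measurableSet_Ioi]
  congr 1
  funext u
  by_cases hu0 : u ∈ Ioi (0:ℝ)
  · rw [indicator_of_mem hu0, indicator_of_mem hu0]
  · rw [indicator_of_notMem hu0, indicator_of_notMem hu0, zero_mul]

lemma LT_eq_fun (f : ℝ → ℝ) : LT f = Pool.Agent.H295R2.Lap (ext f) := funext (LT_eq f)

lemma Tame.differentiableAt {f : ℝ → ℝ} {C : ℝ} (h : Tame f C) {s : ℂ} (hs : 1 < s.re) :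
    DifferentiableAt ℂ (LT f) s := by
  rw [LT_eq_fun]
  exact h.nice.Lap_differentiableAt hs

lemma Tame.norm_LT_le {f : ℝ → ℝ} {C : ℝ} (h : Tame f C) {u₀ : ℝ}
    (hz : ∀ t, t < u₀ → f t = 0) {s : ℂ} (hs : 1 < s.re) :
    ‖LT f s‖ ≤ C * Real.exp ((1 - s.re) * u₀) / (s.re - 1) := by
  rw [LT_eq]
  exact (h.nice' hz).norm_Lap_le hs

lemma Tame.integrableOn {f : ℝ → ℝ} {C : ℝ} (h : Tame f C) {s : ℂ} (hs : 1 < s.re) :
    IntegrableOn (fun t : ℝ => (f t : ℂ) * Complex.exp (-(s * t))) (Ioi 0) := by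
  have h1 := h.nice.integrable hs
  have h2 : (fun u : ℝ => ext f u * Complex.exp (-(s * u))) =
      (Ioi (0:ℝ)).indicator (fun t : ℝ => (f t : ℂ) * Complex.exp (-(s * t))) := by
    funext u
    unfold ext
    by_cases hu0 : u ∈ Ioi (0:ℝ)
    · rw [indicator_of_mem hu0, indicator_of_mem hu0]
    · rw [indicator_of_notMem hu0, indicator_of_notMem hu0, zero_mul]
  rw [h2, integrable_indicator_iff measurableSet_Ioi] at h1
  exact h1

lemma Tame.add {f g : ℝ → ℝ} {C D : ℝ} (hf : Tame f C) (hg : Tame g D) :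
    Tame (fun t => f t + g t) (C + D) where
  meas := hf.meas.add hg.meas
  bound := by
    intro t ht
    calc |f t + g t| ≤ |f t| + |g t| := abs_add_le _ _
      _ ≤ C * Real.exp t + D * Real.exp t := add_le_add (hf.bound t ht) (hg.bound t ht)
      _ = _ := by ring

lemma Tame.const_mul {f : ℝ → ℝ} {C : ℝ} (hf : Tame f C) (c : ℝ) :
    Tame (fun t => c * f t) (|c| * C) where
  meas := hf.meas.const_mul c
  bound := by
    intro t ht
    rw [abs_mul, mul_assoc]
    exact mul_le_mul_of_nonneg_left (hf.bound t ht) (abs_nonneg c)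

lemma Tame.mono {f : ℝ → ℝ} {C D : ℝ} (hf : Tame f C) (h : C ≤ D) : Tame f D where
  meas := hf.meas
  bound := fun t ht => (hf.bound t ht).trans (mul_le_mul_of_nonneg_right h (Real.exp_pos t).le)

lemma LT_add {f g : ℝ → ℝ} {C D : ℝ} (hf : Tame f C) (hg : Tame g D) {s : ℂ} (hs : 1 < s.re) :
    LT (fun t => f t + g t) s = LT f s + LT g s := by
  unfold LT
  rw [← integral_add (hf.integrableOn hs) (hg.integrableOn hs)]
  congr 1
  funext t
  push_cast
  ring

lemma LT_const_mul (f : ℝ → ℝ) (c : ℝ) (s : ℂ) :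
    LT (fun t => c * f t) s = c * LT f s := by
  unfold LT
  rw [← integral_const_mul]
  congr 1
  funext t
  push_cast
  ring

/-! ### The Gaussian kernel -/

/-- density at `t > 0` of the absolute value of a centred Gaussian of variance `2 v` -/
def gker (t v : ℝ) : ℝ := Real.exp (-(t ^ 2 / (4 * v))) / Real.sqrt (Real.pi * v)

/-- Gaussian average: expectation of `f |X|` for `X` a centred Gaussian of variance `2 v` -/
def gaussAvg (f : ℝ → ℝ) (v : ℝ) : ℝ := ∫ t in Ioi (0:ℝ), f t * gker t v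

lemma gker_nonneg (t v : ℝ) : 0 ≤ gker t v := by unfold gker; positivity

lemma gker_measurable : Measurable (fun p : ℝ × ℝ => gker p.1 p.2) := by
  unfold gker
  fun_prop

lemma integral_gker {v : ℝ} (hv : 0 < v) : ∫ t in Ioi (0:ℝ), gker t v = 1 := by
  unfold gker
  rw [integral_div]
  have h1 := integral_gaussian_Ioi (1 / (4 * v))
  have h2 : (fun t : ℝ => Real.exp (-(t ^ 2 / (4 * v)))) =
      fun t : ℝ => Real.exp (-(1 / (4 * v)) * t ^ 2) := by
    funext t; congr 1; ring
  rw [h2, h1]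
  have h3 : Real.pi / (1 / (4 * v)) = 4 * (Real.pi * v) := by field_simp
  rw [h3, Real.sqrt_mul (by norm_num), show (4:ℝ) = 2 ^ 2 by norm_num, Real.sqrt_sq (by norm_num)]
  have h4 : 0 < Real.sqrt (Real.pi * v) := Real.sqrt_pos.2 (by positivity)
  field_simp

lemma gker_exp_eq {v : ℝ} (hv : 0 < v) (t : ℝ) :
    Real.exp t * gker t v = (Real.exp v / Real.sqrt (Real.pi * v)) *
      Real.exp (-(1 / (4 * v)) * (t - 2 * v) ^ 2) := by
  unfold gker
  rw [mul_div_assoc', ← Real.exp_add, div_mul_eq_mul_div, ← Real.exp_add]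
  congr 2
  field_simp
  ring

lemma integrable_exp_gker {v : ℝ} (hv : 0 < v) :
    Integrable (fun t : ℝ => Real.exp t * gker t v) := by
  have h1 := (integrable_exp_neg_mul_sq (b := 1 / (4 * v)) (by positivity)).comp_sub_right (2 * v)
  refine (h1.const_mul (Real.exp v / Real.sqrt (Real.pi * v))).congr ?_
  exact Eventually.of_forall fun t => (gker_exp_eq hv t).symm

lemma integral_exp_gker_le {v : ℝ} (hv : 0 < v) :
    ∫ t in Ioi (0:ℝ), Real.exp t * gker t v ≤ 2 * Real.exp v := by
  calc ∫ t in Ioi (0:ℝ), Real.exp t * gker t v ≤ ∫ t, Real.exp t * gker t v :=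
        setIntegral_le_integral (integrable_exp_gker hv)
          (Eventually.of_forall fun t => mul_nonneg (Real.exp_pos t).le (gker_nonneg t v))
    _ = ∫ t, (Real.exp v / Real.sqrt (Real.pi * v)) *
      Real.exp (-(1 / (4 * v)) * (t - 2 * v) ^ 2) := by
        congr 1
        funext t
        exact gker_exp_eq hv t
    _ = (Real.exp v / Real.sqrt (Real.pi * v)) * ∫ t, Real.exp (-(1 / (4 * v)) * t ^ 2) := by
        rw [integral_const_mul]
        congr 1
        exact integral_sub_right_eq_self (fun t => Real.exp (-(1 / (4 * v)) * t ^ 2)) (2 * v)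
    _ = 2 * Real.exp v := by
        rw [integral_gaussian]
        have h3 : Real.pi / (1 / (4 * v)) = 4 * (Real.pi * v) := by field_simp
        rw [h3, Real.sqrt_mul (by norm_num : (0:ℝ) ≤ 4), show (4:ℝ) = 2 ^ 2 by norm_num,
          Real.sqrt_sq (by norm_num)]
        have h4 : 0 < Real.sqrt (Real.pi * v) := Real.sqrt_pos.2 (by positivity)
        field_simp

lemma Tame.integrableOn_gker {f : ℝ → ℝ} {C : ℝ} (h : Tame f C) {v : ℝ} (hv : 0 < v) :
    IntegrableOn (fun t : ℝ => f t * gker t v) (Ioi 0) := by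
  refine Integrable.mono' (((integrable_exp_gker hv).const_mul C).integrableOn) ?_ ?_
  · exact (h.meas.mul (gker_measurable.comp (measurable_id.prodMk measurable_const))).aestronglyMeasurable
  · refine (ae_restrict_iff' measurableSet_Ioi).2 (Eventually.of_forall fun t ht => ?_)
    rw [Real.norm_eq_abs, abs_mul, abs_of_nonneg (gker_nonneg t v), ← mul_assoc]
    exact mul_le_mul_of_nonneg_right (h.bound t ht) (gker_nonneg t v)

lemma gaussAvg_meas {f : ℝ → ℝ} (h : Measurable f) : Measurable (gaussAvg f) := by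
  have h1 : Measurable (fun p : ℝ × ℝ => f p.2 * gker p.2 p.1) :=
    (h.comp measurable_snd).mul (gker_measurable.comp (measurable_snd.prodMk measurable_fst))
  exact (h1.stronglyMeasurable.integral_prod_right (ν := volume.restrict (Ioi (0:ℝ)))).measurable

lemma Tame.gaussAvg {f : ℝ → ℝ} {C : ℝ} (h : Tame f C) : Tame (gaussAvg f) (2 * C) where
  meas := gaussAvg_meas h.meas
  bound := by
    intro v hv
    unfold BSD.gaussAvg
    calc |∫ t in Ioi (0:ℝ), f t * gker t v| ≤ ∫ t in Ioi (0:ℝ), |f t * gker t v| :=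
          abs_integral_le_integral_abs
      _ ≤ ∫ t in Ioi (0:ℝ), C * (Real.exp t * gker t v) := by
          refine setIntegral_mono_on (h.integrableOn_gker hv).abs
            (((integrable_exp_gker hv).const_mul C).integrableOn) measurableSet_Ioi fun t ht => ?_
          rw [abs_mul, abs_of_nonneg (gker_nonneg t v), ← mul_assoc]
          exact mul_le_mul_of_nonneg_right (h.bound t ht) (gker_nonneg t v)
      _ = C * ∫ t in Ioi (0:ℝ), Real.exp t * gker t v := integral_const_mul _ _
      _ ≤ C * (2 * Real.exp v) := mul_le_mul_of_nonneg_left (integral_exp_gker_le hv) h.C_nonneg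
      _ = 2 * C * Real.exp v := by ring

lemma gaussAvg_add {f g : ℝ → ℝ} {C D : ℝ} (hf : Tame f C) (hg : Tame g D) {v : ℝ} (hv : 0 < v) :
    gaussAvg (fun t => f t + g t) v = gaussAvg f v + gaussAvg g v := by
  unfold gaussAvg
  rw [← integral_add (hf.integrableOn_gker hv) (hg.integrableOn_gker hv)]
  congr 1
  funext t
  ring

lemma gaussAvg_const_mul (f : ℝ → ℝ) (c : ℝ) (v : ℝ) :
    gaussAvg (fun t => c * f t) v = c * gaussAvg f v := by
  unfold gaussAvg
  rw [← integral_const_mul]
  congr 1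
  funext t
  ring

lemma gaussAvg_congr {f g : ℝ → ℝ} (h : ∀ t, 0 < t → f t = g t) (v : ℝ) :
    gaussAvg f v = gaussAvg g v := by
  unfold gaussAvg
  refine setIntegral_congr_fun measurableSet_Ioi fun t ht => ?_
  show f t * _ = g t * _
  rw [h t ht]

lemma gaussAvg_mono {f g : ℝ → ℝ} {C D : ℝ} (hf : Tame f C) (hg : Tame g D)
    (h : ∀ t, 0 < t → f t ≤ g t) {v : ℝ} (hv : 0 < v) : gaussAvg f v ≤ gaussAvg g v := by
  unfold gaussAvg
  refine setIntegral_mono_on (hf.integrableOn_gker hv) (hg.integrableOn_gker hv)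
    measurableSet_Ioi fun t ht => ?_
  exact mul_le_mul_of_nonneg_right (h t ht) (gker_nonneg t v)

lemma gaussAvg_const (c : ℝ) {v : ℝ} (hv : 0 < v) : gaussAvg (fun _ => c) v = c := by
  unfold gaussAvg
  rw [integral_const_mul, integral_gker hv, mul_one]

lemma tame_const (c : ℝ) : Tame (fun _ => c) |c| where
  meas := measurable_const
  bound := by
    intro t ht
    have h1 := Real.add_one_le_exp t
    nlinarith [abs_nonneg c]

end

end Pool.Agent.W334.BSD
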