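import Pool.Agent.W334.BSD.Ker

/-!
# Landau's theorem for Laplace integrals
-/

set_option autoImplicit false
open MeasureTheory Set Filter Topology ProbabilityTheory

namespace Pool.Agent.W334.BSD

noncomputable section

/-- Landau's theorem, for moment generating functions -/
theorem landau_mgf {μ : Measure ℝ} (hμ : ∀ᵐ x ∂μ, 0 ≤ x) {t R : ℝ}
    (ht : t ∈ interior (integrableExpSet id μ)) {H : ℂ → ℂ}
    (hH : DifferentiableOn ℂ H (Metric.ball (t:ℂ) R)) (hev : H =ᶠ[𝓝 (t:ℂ)] complexMGF id μ)
    {u : ℝ} (h1 : t ≤ u) (h2 : u < t + R) : u ∈ integrableExpSet id μ := by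
  have hmem : (u : ℂ) ∈ Metric.ball (t:ℂ) R := by
    rw [Metric.mem_ball, dist_eq_norm, ← Complex.ofReal_sub, Complex.norm_real, Real.norm_eq_abs,
      abs_of_nonneg (by linarith)]
    linarith
  have hs := Complex.hasSum_taylorSeries_on_ball hH hmem
  set F : ℕ → ℝ → ℝ := fun n x => ((n.factorial : ℝ)⁻¹ * (u - t) ^ n) * (x ^ n * Real.exp (t * x)) with hF
  have hFi : ∀ n, Integrable (F n) μ := by
    intro n
    exact (integrable_pow_mul_exp_of_mem_interior_integrableExpSet (X := id) ht n).const_mul _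
  have hterm : ∀ n, ((n.factorial : ℂ))⁻¹ • ((u:ℂ) - t) ^ n • iteratedDeriv n H t =
      ((∫ x, F n x ∂μ : ℝ) : ℂ) := by
    intro n
    have e1 : iteratedDeriv n H t = iteratedDeriv n (complexMGF id μ) t := by
      exact Filter.EventuallyEq.iteratedDeriv_eq n hev
    rw [e1, iteratedDeriv_complexMGF (by simpa using ht)]
    have e2 : ∫ x, id x ^ n * Complex.exp ((t:ℂ) * (id x : ℝ)) ∂μ =
        ((∫ x, x ^ n * Real.exp (t * x) ∂μ : ℝ) : ℂ) := by
      have e3 : ((∫ x, x ^ n * Real.exp (t * x) ∂μ : ℝ) : ℂ) =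
          ∫ x, ((x ^ n * Real.exp (t * x) : ℝ) : ℂ) ∂μ := integral_ofReal.symm
      rw [e3]
      congr 1
      funext x
      simp
    rw [hF]
    simp only
    rw [integral_const_mul]
    push_cast
    rw [smul_eq_mul, smul_eq_mul, ← mul_assoc]
    congr 1
  have hs2 : Summable fun n => ∫ x, F n x ∂μ := by
    have h3 := hs.summable
    simp_rw [hterm] at h3
    exact Complex.summable_ofReal.1 h3
  have hut : 0 ≤ u - t := by linarith
  have hFnn : ∀ n, ∀ᵐ x ∂μ, 0 ≤ F n x := by
    intro n
    filter_upwards [hμ] with x hx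
    rw [hF]
    positivity
  have hFsum : ∀ x, HasSum (fun n => F n x) (Real.exp (u * x)) := by
    intro x
    have h4 : HasSum (fun n : ℕ => ((u - t) * x) ^ n / n.factorial) (Real.exp ((u - t) * x)) := by
      have := NormedSpace.expSeries_div_hasSum_exp (𝔸 := ℝ) ((u - t) * x)
      rwa [← Real.exp_eq_exp_ℝ] at this
    have h5 := h4.mul_right (Real.exp (t * x))
    rw [← Real.exp_add] at h5
    have e : (u - t) * x + t * x = u * x := by ring
    rw [e] at h5
    have e2 : (fun n => F n x) = fun n : ℕ => ((u - t) * x) ^ n / n.factorial * Real.exp (t * x) := by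
      funext n
      rw [hF]
      simp only
      rw [mul_pow]
      ring
    rw [e2]
    exact h5
  show Integrable (fun x => Real.exp (u * id x)) μ
  refine ⟨(by fun_prop : Measurable fun x : ℝ => Real.exp (u * id x)).aestronglyMeasurable, ?_⟩
  rw [hasFiniteIntegral_iff_norm]
  have h6 : ∫⁻ x, ENNReal.ofReal ‖Real.exp (u * id x)‖ ∂μ = ∫⁻ x, ∑' n, ENNReal.ofReal (F n x) ∂μ := by
    refine lintegral_congr_ae ?_
    filter_upwards [ae_all_iff.2 hFnn] with x hx
    rw [Real.norm_of_nonneg (Real.exp_pos _).le, ← ENNReal.ofReal_tsum_of_nonneg hx (hFsum x).summable,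
      (hFsum x).tsum_eq]
    rfl
  rw [h6, lintegral_tsum]
  · have h7 : ∀ n, ∫⁻ x, ENNReal.ofReal (F n x) ∂μ = ENNReal.ofReal (∫ x, F n x ∂μ) := fun n =>
      (ofReal_integral_eq_lintegral_ofReal (hFi n) (hFnn n)).symm
    simp_rw [h7]
    rw [← ENNReal.ofReal_tsum_of_nonneg (fun n => integral_nonneg_of_ae (hFnn n)) hs2]
    exact ENNReal.ofReal_lt_top
  · intro n
    exact (hFi n).1.aemeasurable.ennreal_ofReal

/-- the right half plane -/
def RHP : Set ℂ := {q | 0 < q.re}

lemma RHP_open : IsOpen RHP := isOpen_lt continuous_const Complex.continuous_re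

lemma halfplane_open (σ : ℝ) : IsOpen {q : ℂ | σ < q.re} :=
  isOpen_lt continuous_const Complex.continuous_re

lemma halfplane_convex (σ : ℝ) : Convex ℝ {q : ℂ | σ < q.re} := by
  intro x hx y hy a b ha hb hab
  show σ < (a • x + b • y).re
  have hx' : σ < x.re := hx
  have hy' : σ < y.re := hy
  simp only [Complex.add_re, Complex.real_smul, Complex.re_ofReal_mul]
  rcases ha.eq_or_lt with h | h
  · subst h
    have : b = 1 := by linarith
    subst this
    simpa using hy'
  · have h1 := mul_lt_mul_of_pos_left hx' h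
    have h2 := mul_le_mul_of_nonneg_left hy'.le hb
    have h3 : σ = a * σ + b * σ := by rw [← add_mul, hab, one_mul]
    linarith

lemma halfplane_preconnected (σ : ℝ) : IsPreconnected {q : ℂ | σ < q.re} :=
  (halfplane_convex σ).isPreconnected

/-- branches of the logarithm of an analytic function -/
lemma exists_log {U : Set ℂ} (hU : IsOpen U) (hc : Convex ℝ U) (hne : U.Nonempty) {Φ : ℂ → ℂ}
    (hΦ : DifferentiableOn ℂ Φ U) (h0 : ∀ q ∈ U, Φ q ≠ 0) :
    ∃ g : ℂ → ℂ, DifferentiableOn ℂ g U ∧ ∀ q ∈ U, Complex.exp (g q) = Φ q := by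
  have hsc : IsSimplyConnected U := by
    have : ContractibleSpace U := hc.contractibleSpace hne
    exact (inferInstance : SimplyConnectedSpace U)
  obtain ⟨g, hg1, hg2⟩ := Complex.exists_continuousOn_eqOn_exp_comp hsc hU hΦ.continuousOn
    (by rintro ⟨q, hq, h⟩; exact h0 q hq h)
  refine ⟨g, ?_, fun q hq => hg2 hq⟩
  intro q hq
  have hgc : ContinuousAt g q := hg1.continuousAt (hU.mem_nhds hq)
  have hΦd : DifferentiableAt ℂ Φ q := hΦ.differentiableAt (hU.mem_nhds hq)
  have hslit : Φ q / Φ q ∈ Complex.slitPlane := by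
    rw [div_self (h0 q hq)]; exact Complex.one_mem_slitPlane
  have hd : DifferentiableAt ℂ (fun w => g q + Complex.log (Φ w / Φ q)) q :=
    ((hΦd.div_const _).clog hslit).const_add _
  refine (hd.congr_of_eventuallyEq ?_).differentiableWithinAt
  have hlc : ContinuousAt (fun w => g w - (g q + Complex.log (Φ w / Φ q))) q :=
    hgc.sub hd.continuousAt
  have h1 : Tendsto (fun w => g w - (g q + Complex.log (Φ w / Φ q))) (𝓝 q) (𝓝 0) := by
    have := hlc.tendsto
    simpa [div_self (h0 q hq)] using this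
  have h2 : ∀ᶠ w in 𝓝 q, ‖g w - (g q + Complex.log (Φ w / Φ q))‖ < 1 := by
    have := h1.norm
    rw [norm_zero] at this
    exact this.eventually (gt_mem_nhds one_pos)
  filter_upwards [h2, hU.mem_nhds hq] with w hw hwU
  have h3 : Complex.exp (g w - (g q + Complex.log (Φ w / Φ q))) = 1 := by
    have hgw : Complex.exp (g w) = Φ w := hg2 hwU
    have hgq : Complex.exp (g q) = Φ q := hg2 hq
    rw [Complex.exp_sub, Complex.exp_add, hgw, hgq,
      Complex.exp_log (div_ne_zero (h0 w hwU) (h0 q hq))]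
    have := h0 w hwU
    have := h0 q hq
    field_simp
  obtain ⟨n, hn⟩ := Complex.exp_eq_one_iff.1 h3
  have hn0 : n = 0 := by
    by_contra hne
    rw [hn] at hw
    rw [norm_mul, norm_mul, norm_mul, Complex.norm_I, Complex.norm_intCast, Complex.norm_real,
      Real.norm_of_nonneg Real.pi_pos.le] at hw
    have h4 : (1:ℝ) ≤ |(n:ℝ)| := by
      rw [← Int.cast_abs]
      exact_mod_cast Int.one_le_abs hne
    have h5 := Real.pi_gt_three
    simp at hw
    nlinarith
  rw [hn0] at hn
  simp at hn
  exact sub_eq_zero.1 hn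

/-- two logarithms of the same function differ by a constant -/
lemma log_unique {U : Set ℂ} (hU : IsOpen U) (hc : IsPreconnected U) {f g : ℂ → ℂ}
    (hf : DifferentiableOn ℂ f U) (hg : DifferentiableOn ℂ g U)
    (h : ∀ q ∈ U, Complex.exp (f q) = Complex.exp (g q)) {p : ℂ} (hp : p ∈ U) :
    ∀ q ∈ U, f q - g q = f p - g p := by
  have hd : ∀ q ∈ U, deriv f q = deriv g q := by
    intro q hq
    have h1 : (fun w => Complex.exp (f w)) =ᶠ[𝓝 q] fun w => Complex.exp (g w) := by
      filter_upwards [hU.mem_nhds hq] with w hw using h w hw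
    have h2 := h1.deriv_eq
    have hf1 := (hf.differentiableAt (hU.mem_nhds hq)).hasDerivAt.cexp.deriv
    have hg1 := (hg.differentiableAt (hU.mem_nhds hq)).hasDerivAt.cexp.deriv
    rw [hf1, hg1, h q hq] at h2
    exact mul_left_cancel₀ (Complex.exp_ne_zero _) h2
  obtain ⟨a, ha⟩ := hU.exists_is_const_of_deriv_eq_zero hc (hf.sub hg) (by
    intro q hq
    have := deriv_sub (hf.differentiableAt (hU.mem_nhds hq)) (hg.differentiableAt (hU.mem_nhds hq))
    show deriv (f - g) q = 0
    rw [this, hd q hq, sub_self])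
  intro q hq
  have h1 := ha q hq
  have h2 := ha p hp
  simp only [Pi.sub_apply] at h1 h2
  rw [h1, h2]

/-- functions of bounded support have entire Laplace transform -/
lemma LT_entire {f : ℝ → ℝ} {C v0 : ℝ} (hf : Tame f C) (hz : ∀ v, v0 ≤ v → f v = 0) :
    Differentiable ℂ (LT f) ∧ ∀ q : ℂ, IntegrableOn (fun t : ℝ => (f t : ℂ) * Complex.exp (-(q * t))) (Ioi 0) := by
  have hn : ∀ a : ℝ, Pool.Agent.H295R2.Nice (ext f) (C * Real.exp (|1 - a| * v0)) a 0 := by
    intro a
    refine ⟨hf.nice.meas, fun u => ?_, hf.nice.zero⟩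
    unfold ext
    by_cases hu : u ∈ Ioi (0:ℝ)
    · rw [indicator_of_mem hu, Complex.norm_real, Real.norm_eq_abs]
      have hu0 : 0 < u := hu
      rcases lt_or_ge u v0 with h | h
      · refine (hf.bound u hu0).trans ?_
        rw [mul_assoc, ← Real.exp_add]
        refine mul_le_mul_of_nonneg_left (Real.exp_le_exp.2 ?_) hf.C_nonneg
        have h1 : (1 - a) * u ≤ |1 - a| * v0 :=
          (mul_le_mul_of_nonneg_right (le_abs_self _) hu0.le).trans
            (mul_le_mul_of_nonneg_left h.le (abs_nonneg _))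
        linarith
      · rw [hz u h, abs_zero]
        exact mul_nonneg (mul_nonneg hf.C_nonneg (Real.exp_pos _).le) (Real.exp_pos _).le
    · rw [indicator_of_notMem hu, norm_zero]
      exact mul_nonneg (mul_nonneg hf.C_nonneg (Real.exp_pos _).le) (Real.exp_pos _).le
  constructor
  · intro q
    rw [LT_eq_fun]
    exact (hn (q.re - 1)).Lap_differentiableAt (by linarith)
  · intro q
    have h1 := (hn (q.re - 1)).integrable (s := q) (by linarith)
    have h2 : (fun u : ℝ => ext f u * Complex.exp (-(q * u))) =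
        (Ioi (0:ℝ)).indicator (fun t : ℝ => (f t : ℂ) * Complex.exp (-(q * t))) := by
      funext u
      unfold ext
      by_cases hu0 : u ∈ Ioi (0:ℝ)
      · rw [indicator_of_mem hu0, indicator_of_mem hu0]
      · rw [indicator_of_notMem hu0, indicator_of_notMem hu0, zero_mul]
    rw [h2, integrable_indicator_iff measurableSet_Ioi] at h1
    exact h1

/-- **Landau's theorem** for Laplace integrals, applied to a logarithm. -/
theorem nonvanishing_of_bound {T : ℝ → ℝ} {C v0 : ℝ} (hT : Tame T C)
    (hpos : ∀ v, v0 ≤ v → 0 ≤ T v) {Φ Λ : ℂ → ℂ}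
    (hΦ : DifferentiableOn ℂ Φ RHP) (hΛ : DifferentiableOn ℂ Λ RHP)
    (h : ∀ q : ℂ, 1 < q.re → Φ q = Complex.exp (q * LT T q - Λ q)) :
    ∀ q ∈ RHP, Φ q ≠ 0 := by
  -- split `T`
  set v1 : ℝ := max v0 0 with hv1
  have hv10 : 0 ≤ v1 := le_max_right _ _
  set T1 : ℝ → ℝ := (Iio v1).indicator T with hT1
  set T2 : ℝ → ℝ := (Ici v1).indicator T with hT2
  have hT1t : Tame T1 C := ⟨hT.meas.indicator measurableSet_Iio, fun t ht => by
    rw [hT1]
    by_cases hm : t ∈ Iio v1
    · rw [indicator_of_mem hm]; exact hT.bound t ht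
    · rw [indicator_of_notMem hm, abs_zero]; exact mul_nonneg hT.C_nonneg (Real.exp_pos _).le⟩
  have hT2t : Tame T2 C := ⟨hT.meas.indicator measurableSet_Ici, fun t ht => by
    rw [hT2]
    by_cases hm : t ∈ Ici v1
    · rw [indicator_of_mem hm]; exact hT.bound t ht
    · rw [indicator_of_notMem hm, abs_zero]; exact mul_nonneg hT.C_nonneg (Real.exp_pos _).le⟩
  have hT2nn : ∀ t, 0 ≤ T2 t := by
    intro t
    rw [hT2]
    by_cases hm : t ∈ Ici v1
    · rw [indicator_of_mem hm]; exact hpos t ((le_max_left _ _).trans hm)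
    · rw [indicator_of_notMem hm]
  have hsplit : T = fun t => T1 t + T2 t := by
    funext t
    rw [hT1, hT2]
    by_cases hm : t ∈ Iio v1
    · rw [indicator_of_mem hm, indicator_of_notMem (by simpa using hm), add_zero]
    · rw [indicator_of_notMem hm, indicator_of_mem (by simpa using hm), zero_add]
  obtain ⟨hE1, -⟩ := LT_entire hT1t (v0 := v1) (fun v hv => by
    rw [hT1, indicator_of_notMem (by simpa using hv)])
  -- the measure
  set μ : Measure ℝ := (volume.restrict (Ioi (0:ℝ))).withDensity (fun x => ENNReal.ofReal (T2 x)) with hμ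
  have hμnn : ∀ᵐ x ∂μ, 0 ≤ x := by
    rw [hμ]
    refine (withDensity_absolutelyContinuous _ _).ae_le ?_
    exact (ae_restrict_iff' measurableSet_Ioi).2 (Eventually.of_forall fun t ht => le_of_lt ht)
  have hmgf : ∀ q : ℂ, complexMGF id μ (-q) = LT T2 q := by
    intro q
    unfold complexMGF LT
    rw [hμ, integral_withDensity_eq_integral_toReal_smul (hT2t.meas.ennreal_ofReal)
      (Eventually.of_forall fun x => ENNReal.ofReal_lt_top)]
    congr 1
    funext x
    rw [ENNReal.toReal_ofReal (hT2nn x), Complex.real_smul]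
    congr 2
    simp
  have hset : ∀ x : ℝ, -x ∈ integrableExpSet id μ ↔
      IntegrableOn (fun t => T2 t * Real.exp (-(x * t))) (Ioi 0) := by
    intro x
    show Integrable (fun t => Real.exp (-x * id t)) μ ↔ _
    rw [hμ, integrable_withDensity_iff_integrable_smul' (hT2t.meas.ennreal_ofReal)
      (Eventually.of_forall fun x => ENNReal.ofReal_lt_top)]
    have e : (fun t => (ENNReal.ofReal (T2 t)).toReal • Real.exp (-x * id t)) =
        fun t => T2 t * Real.exp (-(x * t)) := by
      funext t
      rw [ENNReal.toReal_ofReal (hT2nn t), smul_eq_mul, id, neg_mul]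
    rw [e]
    rfl
  have hbig : ∀ x : ℝ, 1 < x → -x ∈ integrableExpSet id μ := by
    intro x hx
    rw [hset]
    have h1 := (hT2t.integrableOn (s := (x : ℂ)) (by simpa using hx)).re
    refine h1.congr (Eventually.of_forall fun t => ?_)
    have e : (T2 t : ℂ) * Complex.exp (-((x:ℂ) * t)) = ((T2 t * Real.exp (-(x * t)) : ℝ) : ℂ) := by
      push_cast; ring
    show (_ : ℂ).re = _
    rw [e, Complex.ofReal_re]
  have hconv := convex_integrableExpSet (X := (id : ℝ → ℝ)) (μ := μ)
  -- the abscissa
  set S : Set ℝ := {x | 0 < x ∧ -x ∈ integrableExpSet id μ} with hS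
  have hS2 : (2:ℝ) ∈ S := ⟨by norm_num, hbig 2 (by norm_num)⟩
  have hSb : BddBelow S := ⟨0, fun x hx => hx.1.le⟩
  set σ : ℝ := sInf S with hσ
  have hσ0 : 0 ≤ σ := le_csInf ⟨2, hS2⟩ fun x hx => hx.1.le
  have hint : ∀ x : ℝ, σ < x → -x ∈ interior (integrableExpSet id μ) := by
    intro x hx
    obtain ⟨y, hyS, hyx⟩ := exists_lt_of_csInf_lt ⟨2, hS2⟩ hx
    have h1 : -(x + 2) ∈ integrableExpSet id μ := hbig _ (by linarith)
    have h2 : Icc (-(x+2)) (-y) ⊆ integrableExpSet id μ :=
      hconv.ordConnected.out h1 hyS.2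
    have h3 : Ioo (-(x+2)) (-y) ⊆ interior (integrableExpSet id μ) :=
      interior_maximal (Ioo_subset_Icc_self.trans h2) isOpen_Ioo
    exact h3 ⟨by linarith, by linarith⟩
  -- the continuation
  set L : ℂ → ℂ := fun q => LT T1 q + complexMGF id μ (-q) with hL
  have hLd : DifferentiableOn ℂ L {q : ℂ | σ < q.re} := by
    intro q hq
    refine ((hE1 q).add ?_).differentiableWithinAt
    have h1 : DifferentiableAt ℂ (complexMGF id μ) (-q) :=
      (hasDerivAt_complexMGF (by simpa using hint q.re hq)).differentiableAt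
    exact h1.comp q differentiableAt_id.neg
  have hLT : ∀ q : ℂ, 1 < q.re → L q = LT T q := by
    intro q hq
    rw [hL, hsplit]
    simp only
    rw [LT_add hT1t hT2t hq, hmgf]
  have hsub : {q : ℂ | σ < q.re} ⊆ RHP := fun q hq => lt_of_le_of_lt hσ0 hq
  have hψd : DifferentiableOn ℂ (fun q => Complex.exp (q * L q - Λ q)) {q : ℂ | σ < q.re} :=
    ((differentiableOn_id.mul hLd).sub (hΛ.mono hsub)).cexp
  have hψ : ∀ q : ℂ, σ < q.re → Φ q = Complex.exp (q * L q - Λ q) := by
    have h1 : AnalyticOnNhd ℂ Φ {q : ℂ | σ < q.re} :=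
      (hΦ.mono hsub).analyticOnNhd (halfplane_open σ)
    have h2 := hψd.analyticOnNhd (halfplane_open σ)
    have h3 := h1.eqOn_of_preconnected_of_eventuallyEq h2 (halfplane_preconnected σ)
      (z₀ := ((σ + 2 : ℝ) : ℂ)) (by simp) (by
        filter_upwards [(halfplane_open 1).mem_nhds
          (show ((σ + 2 : ℝ) : ℂ) ∈ {q : ℂ | 1 < q.re} by simp; linarith)] with w hw
        rw [h w hw, hLT w hw])
    exact fun q hq => h3 hq
  -- the abscissa is zero
  have hσz : σ = 0 := by
    by_contra hne
    have hσp : 0 < σ := lt_of_le_of_ne hσ0 (Ne.symm hne)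
    have hσR : (σ : ℂ) ∈ RHP := by show 0 < (σ : ℂ).re; simpa using hσp
    have hΦc : ContinuousAt Φ σ := (hΦ.differentiableAt (RHP_open.mem_nhds hσR)).continuousAt
    by_cases hΦ0 : Φ σ = 0
    · -- the real part would tend to `-∞`
      have hcont : ContinuousAt (fun q : ℂ => (q * LT T1 q - Λ q).re) σ := by
        have h1 : ContinuousAt Λ σ := (hΛ.differentiableAt (RHP_open.mem_nhds hσR)).continuousAt
        exact Complex.continuous_re.continuousAt.comp
          ((continuousAt_id.mul (hE1 _).continuousAt).sub h1)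
      have hev1 : ∀ᶠ q : ℂ in 𝓝 (σ : ℂ), ((σ:ℂ) * LT T1 σ - Λ σ).re - 1 < (q * LT T1 q - Λ q).re :=
        hcont.eventually (lt_mem_nhds (by linarith))
      set K : ℝ := ((σ:ℂ) * LT T1 σ - Λ σ).re - 1 with hK
      have hev2 : ∀ᶠ q : ℂ in 𝓝 (σ : ℂ), ‖Φ q‖ < Real.exp K := by
        have h1 : ContinuousAt (fun q => ‖Φ q‖) σ := hΦc.norm
        refine h1.eventually (gt_mem_nhds ?_)
        simp only
        rw [hΦ0, norm_zero]
        exact Real.exp_pos _
      have hof : Tendsto (fun x : ℝ => (x : ℂ)) (𝓝[>] σ) (𝓝 (σ : ℂ)) :=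
        (Complex.continuous_ofReal.tendsto σ).mono_left nhdsWithin_le_nhds
      obtain ⟨x, hx1, hx2, hx3⟩ := ((hof.eventually hev1).and ((hof.eventually hev2).and
        (self_mem_nhdsWithin : ∀ᶠ x in 𝓝[>] σ, x ∈ Ioi σ))).exists
      have hx4 := hψ (x : ℂ) (by simpa using hx3)
      have hx5 : ‖Φ x‖ = Real.exp (((x:ℂ) * L x - Λ x).re) := by
        rw [hx4, Complex.norm_exp]
      have hx6 : ((x:ℂ) * L x - Λ x).re = ((x:ℂ) * LT T1 x - Λ x).re + x * mgf id μ (-x) := by
        rw [hL]
        simp only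
        have e : complexMGF id μ (-(x:ℂ)) = ((mgf id μ (-x) : ℝ) : ℂ) := by
          rw [← complexMGF_ofReal]; push_cast; rfl
        rw [e, mul_add, ← Complex.ofReal_mul]
        simp only [Complex.sub_re, Complex.add_re, Complex.ofReal_re]
        ring
      have hx0 : 0 < x := lt_trans hσp hx3
      have hx7 : 0 ≤ x * mgf id μ (-x) := mul_nonneg hx0.le mgf_nonneg
      have hx8 : Real.exp K ≤ ‖Φ x‖ := by
        rw [hx5]
        apply Real.exp_le_exp.2
        rw [hx6]
        linarith
      linarith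
    · -- the transform continues analytically past `σ`
      have hne' : ∀ᶠ q : ℂ in 𝓝 (σ : ℂ), Φ q ≠ 0 ∧ q ∈ RHP :=
        (hΦc.eventually_ne hΦ0).and (RHP_open.mem_nhds hσR)
      obtain ⟨ε, hε, hball⟩ := Metric.eventually_nhds_iff_ball.1 hne'
      obtain ⟨g, hg1, hg2⟩ := exists_log (U := Metric.ball (σ:ℂ) ε) Metric.isOpen_ball
        (convex_ball _ _) ⟨_, Metric.mem_ball_self hε⟩
        (hΦ.mono fun q hq => (hball q hq).2) (fun q hq => (hball q hq).1)
      set W : Set ℂ := Metric.ball (σ:ℂ) ε ∩ {q : ℂ | σ < q.re} with hW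
      have hWo : IsOpen W := Metric.isOpen_ball.inter (halfplane_open σ)
      have hWc : IsPreconnected W := ((convex_ball _ _).inter (halfplane_convex σ)).isPreconnected
      set x0 : ℝ := σ + ε / 4 with hx0
      have hx0W : (x0 : ℂ) ∈ W := by
        refine ⟨?_, ?_⟩
        · rw [Metric.mem_ball, dist_eq_norm, ← Complex.ofReal_sub, Complex.norm_real, hx0,
            Real.norm_eq_abs, abs_of_nonneg (by linarith)]
          linarith
        · show σ < (x0 : ℂ).re
          rw [Complex.ofReal_re, hx0]; linarith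
      have huniq := log_unique hWo hWc (f := fun q => q * L q - Λ q) (g := g)
        (((differentiableOn_id.mul hLd).sub (hΛ.mono hsub)).mono fun q hq => hq.2)
        (hg1.mono fun q hq => hq.1) (fun q hq => by
          rw [hg2 q hq.1, hψ q hq.2]) hx0W
      set c : ℂ := (x0:ℂ) * L x0 - Λ x0 - g x0 with hc
      have hLeq : ∀ q ∈ W, L q = (g q + c + Λ q) / q := by
        intro q hq
        have h1 := huniq q hq
        have hq0 : q ≠ 0 := by
          rintro rfl
          have : σ < (0:ℂ).re := hq.2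
          simp at this
          linarith
        rw [eq_div_iff hq0]
        linear_combination h1
      -- the analytic function in the variable `-q`
      have hmem := landau_mgf hμnn (t := -x0) (R := ε / 2) (hint x0 (by rw [hx0]; linarith))
        (H := fun z => (g (-z) + c + Λ (-z)) / (-z) - LT T1 (-z)) ?_ ?_
        (u := -(σ - min (ε / 8) (σ / 2))) ?_ ?_
      · have hmin : 0 < min (ε / 8) (σ / 2) := lt_min (by positivity) (by positivity)
        have h3 : σ - min (ε / 8) (σ / 2) ∈ S := by
          refine ⟨?_, hmem⟩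
          have := min_le_right (ε / 8) (σ / 2)
          linarith
        have h4 := csInf_le hSb h3
        rw [← hσ] at h4
        linarith
      · have hsubb : ∀ z ∈ Metric.ball ((-x0 : ℝ) : ℂ) (ε / 2), -z ∈ Metric.ball (σ:ℂ) ε := by
          intro z hz
          rw [Metric.mem_ball, dist_eq_norm] at hz ⊢
          have e : -z - (σ:ℂ) = -(z - ((-x0 : ℝ) : ℂ)) + ((ε / 4 : ℝ) : ℂ) := by
            rw [hx0]; push_cast; ring
          rw [e]
          refine (norm_add_le _ _).trans_lt ?_
          rw [norm_neg, Complex.norm_real, Real.norm_of_nonneg (by positivity)]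
          linarith
        intro z hz
        have hz' := hsubb z hz
        have hzR := (hball _ hz').2
        have d1 : DifferentiableAt ℂ (fun z => g (-z)) z :=
          (hg1.differentiableAt (Metric.isOpen_ball.mem_nhds hz')).comp z differentiableAt_id.neg
        have d2 : DifferentiableAt ℂ (fun z => Λ (-z)) z :=
          (hΛ.differentiableAt (RHP_open.mem_nhds hzR)).comp z differentiableAt_id.neg
        have d3 : DifferentiableAt ℂ (fun z => LT T1 (-z)) z := (hE1 _).comp z differentiableAt_id.neg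
        have hz0 : -z ≠ 0 := by
          intro h0
          rw [h0] at hzR
          simp [RHP] at hzR
        exact ((((d1.add_const c).add d2).div differentiableAt_id.neg hz0).sub d3).differentiableWithinAt
      · have hWn : ∀ᶠ z : ℂ in 𝓝 ((-x0 : ℝ) : ℂ), -z ∈ W := by
          have : Tendsto (fun z : ℂ => -z) (𝓝 ((-x0 : ℝ) : ℂ)) (𝓝 (x0 : ℂ)) := by
            have := (continuous_neg (G := ℂ)).tendsto ((-x0 : ℝ) : ℂ)
            simpa using this
          exact this.eventually (hWo.mem_nhds hx0W)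
        filter_upwards [hWn] with z hz
        have h1 := hLeq (-z) hz
        rw [← h1, hL]
        simp
      · have := lt_min (by positivity : 0 < ε / 8) (by positivity : 0 < σ / 2)
        rw [hx0]; linarith
      · have := min_le_left (ε / 8) (σ / 2)
        rw [hx0]; linarith
  intro q hq
  rw [hψ q (by rw [hσz]; exact hq)]
  exact Complex.exp_ne_zero _

end

end Pool.Agent.W334.BSD
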