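import Pool.Agent.W334.BSD.Ker

/-!
# The comparison function, and Gaussian averages of the logarithm
-/

set_option autoImplicit false
open MeasureTheory Set Filter Topology

namespace Pool.Agent.W334.BSD

noncomputable section

lemma gker_le {v v0 t : ℝ} (h1 : v0 / 2 ≤ v) (h2 : v ≤ 2 * v0) (h0 : 0 < v0) :
    gker t v ≤ 2 * gker t (2 * v0) := by
  have hv : 0 < v := by linarith
  unfold gker
  have e1 : Real.exp (-(t ^ 2 / (4 * v))) ≤ Real.exp (-(t ^ 2 / (4 * (2 * v0)))) := by
    apply Real.exp_le_exp.2
    apply neg_le_neg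
    apply div_le_div_of_nonneg_left (sq_nonneg t) (by positivity)
    linarith
  have e2 : Real.sqrt (Real.pi * (2 * v0)) ≤ 2 * Real.sqrt (Real.pi * v) := by
    rw [show (2:ℝ) * Real.sqrt (Real.pi * v) = Real.sqrt (2 ^ 2 * (Real.pi * v)) by
      rw [Real.sqrt_mul (by norm_num : (0:ℝ) ≤ 2 ^ 2), Real.sqrt_sq (by norm_num)]]
    apply Real.sqrt_le_sqrt
    nlinarith [Real.pi_pos]
  have p1 : 0 < Real.sqrt (Real.pi * v) := Real.sqrt_pos.2 (by positivity)
  have p2 : 0 < Real.sqrt (Real.pi * (2 * v0)) := Real.sqrt_pos.2 (by positivity)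
  rw [mul_div_assoc', div_le_div_iff₀ p1 p2]
  calc Real.exp (-(t ^ 2 / (4 * v))) * Real.sqrt (Real.pi * (2 * v0))
      ≤ Real.exp (-(t ^ 2 / (4 * (2 * v0)))) * (2 * Real.sqrt (Real.pi * v)) :=
        mul_le_mul e1 e2 p2.le (Real.exp_pos _).le
    _ = _ := by ring

lemma Tame.continuousOn_gaussAvg {f : ℝ → ℝ} {C : ℝ} (h : Tame f C) :
    ContinuousOn (BSD.gaussAvg f) (Ioi 0) := by
  intro v0 hv0
  have hv0' : (0:ℝ) < v0 := hv0
  refine ContinuousAt.continuousWithinAt ?_
  unfold BSD.gaussAvg
  have h2v : 0 < 2 * v0 := by linarith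
  refine continuousAt_of_dominated (bound := fun t => C * (2 * (Real.exp t * gker t (2 * v0)))) ?_ ?_ ?_ ?_
  · filter_upwards [isOpen_Ioi.mem_nhds hv0] with v hv
    exact (h.integrableOn_gker hv).1
  · have hn : Icc (v0 / 2) (2 * v0) ∈ 𝓝 v0 := Icc_mem_nhds (by linarith) (by linarith)
    filter_upwards [hn] with v hv
    refine (ae_restrict_iff' measurableSet_Ioi).2 (Eventually.of_forall fun t ht => ?_)
    rw [Real.norm_eq_abs, abs_mul, abs_of_nonneg (gker_nonneg t v)]
    have h1 := gker_le (t := t) hv.1 hv.2 hv0'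
    calc |f t| * gker t v ≤ (C * Real.exp t) * (2 * gker t (2 * v0)) :=
          mul_le_mul (h.bound t ht) h1 (gker_nonneg _ _)
            (mul_nonneg h.C_nonneg (Real.exp_pos _).le)
      _ = _ := by ring
  · exact (((integrable_exp_gker h2v).const_mul 2).const_mul C).integrableOn
  · refine Eventually.of_forall fun t => ?_
    refine continuousAt_const.mul ?_
    unfold gker
    have hs : Real.sqrt (Real.pi * v0) ≠ 0 := (Real.sqrt_pos.2 (by positivity)).ne'
    refine ContinuousAt.div ?_ ?_ hs
    · refine Real.continuous_exp.continuousAt.comp (ContinuousAt.neg ?_)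
      exact continuousAt_const.div (by fun_prop) (by positivity)
    · exact (Real.continuous_sqrt.comp (by fun_prop)).continuousAt

/-! ### the comparison function -/

/-- `∫_0^1 (1 - e^{-tx})/x dx` -/
def mm (t : ℝ) : ℝ := ∫ x in Ioc (0:ℝ) 1, (1 - Real.exp (-(t * x))) / x

lemma mm_integrand {t x : ℝ} (ht : 0 ≤ t) (hx : 0 < x) :
    0 ≤ (1 - Real.exp (-(t * x))) / x ∧ (1 - Real.exp (-(t * x))) / x ≤ t := by
  have h1 : Real.exp (-(t * x)) ≤ 1 := by
    rw [Real.exp_le_one_iff]
    have := mul_nonneg ht hx.le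
    linarith
  have h2 := Real.add_one_le_exp (-(t * x))
  refine ⟨div_nonneg (by linarith) hx.le, ?_⟩
  rw [div_le_iff₀ hx]
  linarith

lemma mm_meas2 : Measurable (fun p : ℝ × ℝ => (1 - Real.exp (-(p.1 * p.2))) / p.2) := by
  fun_prop

lemma mm_meas : Measurable mm :=
  (mm_meas2.stronglyMeasurable.integral_prod_right (ν := volume.restrict (Ioc (0:ℝ) 1))).measurable

lemma mm_int {t : ℝ} (ht : 0 ≤ t) :
    IntegrableOn (fun x => (1 - Real.exp (-(t * x))) / x) (Ioc (0:ℝ) 1) := by
  refine Integrable.mono' (g := fun _ => t) (by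
    show IntegrableOn (fun _ : ℝ => t) (Ioc (0:ℝ) 1)
    exact integrableOn_const (by simp)) ?_ ?_
  · exact (mm_meas2.comp (measurable_const.prodMk measurable_id)).aestronglyMeasurable
  · refine (ae_restrict_iff' measurableSet_Ioc).2 (Eventually.of_forall fun x hx => ?_)
    obtain ⟨h1, h2⟩ := mm_integrand ht hx.1
    rw [Real.norm_of_nonneg h1]
    exact h2

lemma mm_bounds {t : ℝ} (ht : 0 ≤ t) : 0 ≤ mm t ∧ mm t ≤ t := by
  constructor
  · exact setIntegral_nonneg measurableSet_Ioc fun x hx => (mm_integrand ht hx.1).1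
  · calc mm t ≤ ∫ x in Ioc (0:ℝ) 1, t := by
          refine setIntegral_mono_on (mm_int ht) (integrableOn_const (by simp)) measurableSet_Ioc
            fun x hx => (mm_integrand ht hx.1).2
      _ = t := by simp

lemma tame_mm : Tame mm 1 where
  meas := mm_meas
  bound := by
    intro t ht
    obtain ⟨h1, h2⟩ := mm_bounds ht.le
    rw [abs_of_nonneg h1, one_mul]
    have := Real.add_one_le_exp t
    linarith

lemma int_cexp {w : ℂ} (hw : 0 < w.re) :
    IntegrableOn (fun t : ℝ => Complex.exp (-(w * t))) (Ioi 0) ∧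
    ∫ t in Ioi (0:ℝ), Complex.exp (-(w * t)) = 1 / w := by
  have h1 := integral_exp_mul_complex_Ioi (a := -w) (by simpa using hw) 0
  have h2 := integrableOn_exp_mul_complex_Ioi (a := -w) (by simpa using hw) 0
  have hw0 : w ≠ 0 := by rintro rfl; simp at hw
  simp only [neg_mul] at h1 h2
  refine ⟨h2, ?_⟩
  rw [h1]
  simp

/-- the transform of the comparison function -/
lemma LT_mm {q : ℂ} (hq : 1 < q.re) : q * LT mm q = Complex.log (1 + q) - Complex.log q := by
  have hq0 : 0 < q.re := by linarith
  have hqne : q ≠ 0 := by rintro rfl; simp at hq0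
  set Φ : ℝ → ℝ → ℂ := fun t x => (((1 - Real.exp (-(t * x))) / x : ℝ) : ℂ) * Complex.exp (-(q * t)) with hΦ
  have hmeas : Measurable (Function.uncurry Φ) := by
    rw [hΦ]
    show Measurable (fun p : ℝ × ℝ => (((1 - Real.exp (-(p.1 * p.2))) / p.2 : ℝ) : ℂ) *
      Complex.exp (-(q * p.1)))
    refine (Complex.measurable_ofReal.comp mm_meas2).mul ?_
    fun_prop
  have hnorm : ∀ t x : ℝ, 0 < t → 0 < x → ‖Φ t x‖ ≤ Real.exp t * Real.exp (-(q.re * t)) := by
    intro t x ht hx
    rw [hΦ]
    simp only
    rw [norm_mul, Complex.norm_real, Complex.norm_exp]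
    obtain ⟨h1, h2⟩ := mm_integrand ht.le hx
    rw [Real.norm_of_nonneg h1]
    have h3 : (-(q * (t:ℂ))).re = -(q.re * t) := by simp
    rw [h3]
    refine mul_le_mul_of_nonneg_right ?_ (Real.exp_pos _).le
    have := Real.add_one_le_exp t
    linarith
  have hint : Integrable (Function.uncurry Φ)
      ((volume.restrict (Ioi (0:ℝ))).prod (volume.restrict (Ioc (0:ℝ) 1))) := by
    have hg : Integrable (fun t : ℝ => Real.exp t * Real.exp (-(q.re * t)))
        (volume.restrict (Ioi (0:ℝ))) := by
      have : IntegrableOn (fun t : ℝ => Real.exp ((1 - q.re) * t)) (Ioi 0) :=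
        integrableOn_exp_mul_Ioi (by linarith) 0
      refine this.congr (Eventually.of_forall fun t => ?_)
      show Real.exp ((1 - q.re) * t) = Real.exp t * Real.exp (-(q.re * t))
      rw [← Real.exp_add]; ring_nf
    have hg2 := hg.mul_prod (g := fun _ : ℝ => (1:ℝ)) (ν := volume.restrict (Ioc (0:ℝ) 1))
      (by
        show IntegrableOn (fun _ : ℝ => (1:ℝ)) (Ioc (0:ℝ) 1)
        exact integrableOn_const (by simp))
    refine Integrable.mono' hg2 hmeas.aestronglyMeasurable ?_
    rw [Measure.prod_restrict]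
    refine (ae_restrict_iff' (measurableSet_Ioi.prod measurableSet_Ioc)).2
      (Eventually.of_forall fun p hp => ?_)
    rw [mul_one]
    exact hnorm p.1 p.2 hp.1 hp.2.1
  have hswap := integral_integral_swap hint
  have hinner : ∀ x ∈ Ioc (0:ℝ) 1, ∫ t in Ioi (0:ℝ), Φ t x = (1 / q) * (1 / (q + x)) := by
    intro x hx
    have hx0 : (0:ℝ) < x := hx.1
    have hxc : (x : ℂ) ≠ 0 := by exact_mod_cast hx0.ne'
    obtain ⟨i1, e1⟩ := int_cexp hq0
    obtain ⟨i2, e2⟩ := int_cexp (w := q + x) (by
      rw [Complex.add_re, Complex.ofReal_re]; linarith)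
    have hqx : q + x ≠ 0 := by
      intro h
      have : (q + x).re = 0 := by rw [h]; simp
      rw [Complex.add_re, Complex.ofReal_re] at this
      linarith
    calc ∫ t in Ioi (0:ℝ), Φ t x
        = ∫ t in Ioi (0:ℝ), (1 / (x:ℂ)) * (Complex.exp (-(q * t)) - Complex.exp (-((q + x) * t))) := by
          congr 1
          funext t
          rw [hΦ]
          simp only
          have e3 : Complex.exp (-((q + x) * t)) = Complex.exp (-((t:ℂ) * x)) * Complex.exp (-(q * t)) := by
            rw [← Complex.exp_add]; ring_nf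
          rw [e3]
          push_cast
          field_simp
      _ = (1 / (x:ℂ)) * (1 / q - 1 / (q + x)) := by
          rw [integral_const_mul, integral_sub i1 i2, e1, e2]
      _ = _ := by
          field_simp
          ring
  have hlog : ∫ x in (0:ℝ)..1, 1 / (q + x) = Complex.log (1 + q) - Complex.log q := by
    have hder : ∀ x ∈ uIcc (0:ℝ) 1, HasDerivAt (fun x : ℝ => Complex.log (q + x)) (1 / (q + x)) x := by
      intro x hx
      rw [uIcc_of_le zero_le_one] at hx
      have hslit : q + (x:ℂ) ∈ Complex.slitPlane := by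
        left
        rw [Complex.add_re, Complex.ofReal_re]
        linarith [hx.1]
      have h1 : HasDerivAt (fun x : ℝ => q + (x:ℂ)) 1 x :=
        (Complex.ofRealCLM.hasDerivAt.const_add q).congr_deriv (by simp)
      exact h1.clog_real hslit
    rw [intervalIntegral.integral_eq_sub_of_hasDerivAt hder]
    · simp [add_comm]
    · apply ContinuousOn.intervalIntegrable
      rw [uIcc_of_le zero_le_one]
      refine ContinuousOn.div continuousOn_const (by fun_prop) fun x hx => ?_
      intro h
      have : (q + (x:ℂ)).re = 0 := by rw [h]; simp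
      rw [Complex.add_re, Complex.ofReal_re] at this
      linarith [hx.1]
  unfold LT mm
  calc q * ∫ t in Ioi (0:ℝ), ((∫ x in Ioc (0:ℝ) 1, (1 - Real.exp (-(t * x))) / x : ℝ) : ℂ) *
        Complex.exp (-(q * t))
      = q * ∫ t in Ioi (0:ℝ), ∫ x in Ioc (0:ℝ) 1, Φ t x := by
        congr 2
        funext t
        have e0 : ((∫ x in Ioc (0:ℝ) 1, (1 - Real.exp (-(t * x))) / x : ℝ) : ℂ) =
            ∫ x in Ioc (0:ℝ) 1, (((1 - Real.exp (-(t * x))) / x : ℝ) : ℂ) := integral_ofReal.symm
        rw [e0, ← integral_mul_const]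
    _ = q * ∫ x in Ioc (0:ℝ) 1, ∫ t in Ioi (0:ℝ), Φ t x := by rw [hswap]
    _ = q * ∫ x in Ioc (0:ℝ) 1, (1 / q) * (1 / (q + x)) := by
        rw [setIntegral_congr_fun measurableSet_Ioc hinner]
    _ = _ := by
        rw [integral_const_mul, ← intervalIntegral.integral_of_le zero_le_one, hlog]
        field_simp

/-- positive part of the logarithm -/
def lp (t : ℝ) : ℝ := max 0 (Real.log t)

lemma lp_meas : Measurable lp := measurable_const.max Real.measurable_log

lemma lp_nonneg (t : ℝ) : 0 ≤ lp t := le_max_left _ _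

lemma lp_of_one_le {t : ℝ} (ht : 1 ≤ t) : lp t = Real.log t := max_eq_right (Real.log_nonneg ht)

lemma lp_of_le_one {t : ℝ} (h0 : 0 < t) (ht : t ≤ 1) : lp t = 0 :=
  max_eq_left (Real.log_nonpos h0.le ht)

lemma tame_lp : Tame lp 1 where
  meas := lp_meas
  bound := by
    intro t ht
    rw [abs_of_nonneg (lp_nonneg t), one_mul]
    unfold lp
    have h1 := Real.add_one_le_exp t
    have h2 := Real.log_le_sub_one_of_pos ht
    have h3 := Real.exp_pos t
    exact max_le h3.le (by linarith)

lemma abs_mm_sub_lp {t : ℝ} (ht : 0 < t) : |mm t - lp t| ≤ 2 := by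
  obtain ⟨h1, h2⟩ := mm_bounds ht.le
  rcases le_or_gt t 1 with h | h
  · rw [lp_of_le_one ht h, sub_zero, abs_of_nonneg h1]
    linarith
  · rw [lp_of_one_le h.le]
    have hinv : 0 < 1 / t := by positivity
    have hinv1 : 1 / t ≤ 1 := by rw [div_le_one ht]; exact h.le
    have hi : IntervalIntegrable (fun x => (1 - Real.exp (-(t * x))) / x) volume 0 1 := by
      rw [intervalIntegrable_iff_integrableOn_Ioc_of_le zero_le_one]
      exact mm_int ht.le
    have hi1 : IntervalIntegrable (fun x => (1 - Real.exp (-(t * x))) / x) volume 0 (1 / t) := by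
      refine hi.mono_set ?_
      rw [uIcc_of_le hinv.le, uIcc_of_le zero_le_one]
      exact Icc_subset_Icc_right hinv1
    have hi2 : IntervalIntegrable (fun x => (1 - Real.exp (-(t * x))) / x) volume (1 / t) 1 := by
      refine hi.mono_set ?_
      rw [uIcc_of_le hinv1, uIcc_of_le zero_le_one]
      exact Icc_subset_Icc_left hinv.le
    have hsplit : mm t = (∫ x in (0:ℝ)..(1/t), (1 - Real.exp (-(t * x))) / x) +
        ∫ x in (1/t)..1, (1 - Real.exp (-(t * x))) / x := by
      rw [intervalIntegral.integral_add_adjacent_intervals hi1 hi2,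
        intervalIntegral.integral_of_le zero_le_one]
      rfl
    have hA : 0 ≤ (∫ x in (0:ℝ)..(1/t), (1 - Real.exp (-(t * x))) / x) ∧
        (∫ x in (0:ℝ)..(1/t), (1 - Real.exp (-(t * x))) / x) ≤ 1 := by
      constructor
      · rw [intervalIntegral.integral_of_le hinv.le]
        exact setIntegral_nonneg measurableSet_Ioc fun x hx => (mm_integrand ht.le hx.1).1
      · calc (∫ x in (0:ℝ)..(1/t), (1 - Real.exp (-(t * x))) / x) ≤ ∫ x in (0:ℝ)..(1/t), t := by
              rw [intervalIntegral.integral_of_le hinv.le, intervalIntegral.integral_of_le hinv.le]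
              refine setIntegral_mono_on ?_ (integrableOn_const (by simp)) measurableSet_Ioc
                fun x hx => (mm_integrand ht.le hx.1).2
              exact (intervalIntegrable_iff_integrableOn_Ioc_of_le hinv.le).1 hi1
          _ = 1 := by
              rw [intervalIntegral.integral_const, smul_eq_mul, sub_zero]
              field_simp
    have hne : ∀ x ∈ uIcc (1/t) 1, x ≠ 0 := by
      intro x hx
      rw [uIcc_of_le hinv1] at hx
      linarith [hx.1]
    have hc1 : IntervalIntegrable (fun x : ℝ => 1 / x) volume (1/t) 1 := by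
      apply ContinuousOn.intervalIntegrable
      exact ContinuousOn.div continuousOn_const continuousOn_id hne
    have hc2 : IntervalIntegrable (fun x : ℝ => Real.exp (-(t * x)) / x) volume (1/t) 1 := by
      apply ContinuousOn.intervalIntegrable
      exact ContinuousOn.div (by fun_prop) continuousOn_id hne
    have hB : ∫ x in (1/t)..1, (1 - Real.exp (-(t * x))) / x =
        Real.log t - ∫ x in (1/t)..1, Real.exp (-(t * x)) / x := by
      have e : (fun x : ℝ => (1 - Real.exp (-(t * x))) / x) =
          fun x => 1 / x - Real.exp (-(t * x)) / x := by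
        funext x; rw [sub_div]
      rw [e, intervalIntegral.integral_sub hc1 hc2]
      congr 1
      rw [integral_one_div_of_pos hinv one_pos]
      congr 1
      field_simp
    have hC : 0 ≤ (∫ x in (1/t)..1, Real.exp (-(t * x)) / x) ∧
        (∫ x in (1/t)..1, Real.exp (-(t * x)) / x) ≤ 1 := by
      constructor
      · rw [intervalIntegral.integral_of_le hinv1]
        refine setIntegral_nonneg measurableSet_Ioc fun x hx => ?_
        have : 0 < x := hinv.trans hx.1
        positivity
      · have hc3 : IntervalIntegrable (fun x : ℝ => t * Real.exp (-(t * x))) volume (1/t) 1 :=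
          Continuous.intervalIntegrable (by fun_prop) _ _
        calc (∫ x in (1/t)..1, Real.exp (-(t * x)) / x) ≤ ∫ x in (1/t)..1, t * Real.exp (-(t * x)) := by
              refine intervalIntegral.integral_mono_on hinv1 hc2 hc3 fun x hx => ?_
              have hx0 : 0 < x := lt_of_lt_of_le hinv hx.1
              rw [div_eq_mul_inv, mul_comm]
              refine mul_le_mul_of_nonneg_right ?_ (Real.exp_pos _).le
              rw [inv_eq_one_div, div_le_iff₀ hx0]
              have := (div_le_iff₀ ht).1 hx.1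
              linarith
          _ ≤ 1 := by
              have hder : ∀ x ∈ uIcc (1/t) 1, HasDerivAt (fun x : ℝ => -Real.exp (-(t * x)))
                  (t * Real.exp (-(t * x))) x := by
                intro x _
                have h1 : HasDerivAt (fun x : ℝ => -(t * x)) (-t) x :=
                  (((hasDerivAt_id x).const_mul t).neg).congr_deriv (by simp)
                exact h1.exp.neg.congr_deriv (by ring)
              rw [intervalIntegral.integral_eq_sub_of_hasDerivAt hder hc3]
              have e1 : Real.exp (-(t * (1/t))) ≤ 1 := by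
                rw [Real.exp_le_one_iff]
                have : t * (1/t) = 1 := by field_simp
                linarith
              have e2 := Real.exp_pos (-(t * 1))
              linarith
    rw [hsplit, hB, abs_le]
    constructor <;> linarith [hA.1, hA.2, hC.1, hC.2]

/-! ### Gaussian averages of the logarithm -/

lemma abs_log_le {x : ℝ} (hx : 0 < x) : |Real.log x| ≤ x + 2 * x ^ (-(1/2) : ℝ) := by
  have h1 := Real.log_le_sub_one_of_pos hx
  have hp : 0 < x ^ (-(1/2) : ℝ) := Real.rpow_pos_of_pos hx _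
  have h2 := Real.log_le_sub_one_of_pos hp
  rw [Real.log_rpow hx] at h2
  rw [abs_le]
  constructor <;> linarith

lemma integrable_log_gauss :
    IntegrableOn (fun x : ℝ => |Real.log x| * gker x 1) (Ioi 0) := by
  have h1 := (integrable_rpow_mul_exp_neg_mul_sq (b := 1/4) (by norm_num) (s := 1) (by norm_num)).integrableOn (s := Ioi 0)
  have h2 := (integrable_rpow_mul_exp_neg_mul_sq (b := 1/4) (by norm_num) (s := -(1/2)) (by norm_num)).integrableOn (s := Ioi 0)
  have h3 := ((h1.add (h2.const_mul 2)).const_mul (1 / Real.sqrt (Real.pi * 1)))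
  refine Integrable.mono' h3 ?_ ?_
  · refine Measurable.aestronglyMeasurable ?_
    exact (Real.measurable_log.abs).mul (gker_measurable.comp (measurable_id.prodMk measurable_const))
  · refine (ae_restrict_iff' measurableSet_Ioi).2 (Eventually.of_forall fun x hx => ?_)
    have hx0 : (0:ℝ) < x := hx
    rw [Real.norm_of_nonneg (mul_nonneg (abs_nonneg _) (gker_nonneg _ _))]
    calc |Real.log x| * gker x 1 ≤ (x + 2 * x ^ (-(1/2) : ℝ)) * gker x 1 :=
          mul_le_mul_of_nonneg_right (abs_log_le hx0) (gker_nonneg _ _)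
      _ = _ := by
          unfold gker
          have e : Real.exp (-(x ^ 2 / (4 * 1))) = Real.exp (-(1/4) * x ^ 2) := by congr 1; ring
          rw [e]
          simp only [Pi.add_apply, Real.rpow_one]
          ring

/-- mean of `|log |X||` -/
def c0 : ℝ := ∫ x in Ioi (0:ℝ), |Real.log x| * gker x 1

lemma gker_scale {v x : ℝ} (hv : 0 < v) : gker (Real.sqrt v * x) v = gker x 1 / Real.sqrt v := by
  unfold gker
  rw [mul_pow, Real.sq_sqrt hv.le, Real.sqrt_mul Real.pi_pos.le, mul_one, mul_one, div_div]
  congr 2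
  field_simp

lemma log_gauss {v : ℝ} (hv : 0 < v) :
    IntegrableOn (fun t : ℝ => |Real.log (t / Real.sqrt v)| * gker t v) (Ioi 0) ∧
    ∫ t in Ioi (0:ℝ), |Real.log (t / Real.sqrt v)| * gker t v = c0 := by
  have hs : 0 < Real.sqrt v := Real.sqrt_pos.2 hv
  set g : ℝ → ℝ := fun t => |Real.log (t / Real.sqrt v)| * gker t v with hg
  have e : ∀ x, g (Real.sqrt v * x) = (|Real.log x| * gker x 1) * (Real.sqrt v)⁻¹ := by
    intro x
    rw [hg]
    simp only
    rw [gker_scale hv, mul_div_cancel_left₀ _ hs.ne']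
    ring
  constructor
  · have h1 : IntegrableOn (fun x => g (Real.sqrt v * x)) (Ioi 0) := by
      have := integrable_log_gauss.mul_const (Real.sqrt v)⁻¹
      refine this.congr (Eventually.of_forall fun x => (e x).symm)
    have h2 := (integrableOn_Ioi_comp_mul_left_iff g 0 hs).1 h1
    simpa using h2
  · have h1 := integral_comp_mul_left_Ioi g 0 hs
    rw [mul_zero] at h1
    simp_rw [e] at h1
    rw [integral_mul_const] at h1
    unfold c0
    rw [smul_eq_mul, mul_comm] at h1
    exact (mul_left_cancel₀ (inv_ne_zero hs.ne') h1).symm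

lemma lp_lip {a b : ℝ} (ha : 0 < a) (hb : 0 < b) : |lp a - lp b| ≤ |Real.log (a / b)| := by
  unfold lp
  rw [Real.log_div ha.ne' hb.ne']
  have := abs_max_sub_max_le_abs (Real.log a) (Real.log b) 0
  rwa [max_comm, max_comm (Real.log b)] at this

lemma lp_sqrt {v : ℝ} (hv : 0 < v) : lp (Real.sqrt v) = (1 / 2) * lp v := by
  unfold lp
  rw [Real.log_sqrt hv.le, mul_max_of_nonneg _ _ (by norm_num : (0:ℝ) ≤ 1 / 2), mul_zero]
  congr 1
  ring

lemma c0_nonneg : 0 ≤ c0 :=
  setIntegral_nonneg measurableSet_Ioi fun x _ => mul_nonneg (abs_nonneg _) (gker_nonneg _ _)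

lemma gaussAvg_lp {v : ℝ} (hv : 0 < v) : |gaussAvg lp v - (1 / 2) * lp v| ≤ c0 := by
  have hs : 0 < Real.sqrt v := Real.sqrt_pos.2 hv
  obtain ⟨h1, h2⟩ := log_gauss hv
  have h3 : gaussAvg lp v - (1 / 2) * lp v = ∫ t in Ioi (0:ℝ), (lp t - lp (Real.sqrt v)) * gker t v := by
    rw [← lp_sqrt hv]
    nth_rewrite 1 [← gaussAvg_const (lp (Real.sqrt v)) hv]
    unfold gaussAvg
    rw [← integral_sub (tame_lp.integrableOn_gker hv) ((tame_const _).integrableOn_gker hv)]
    congr 1
    funext t
    ring
  rw [h3, ← h2]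
  refine (abs_integral_le_integral_abs).trans ?_
  refine setIntegral_mono_on ?_ h1 measurableSet_Ioi fun t ht => ?_
  · have := (tame_lp.integrableOn_gker hv).sub ((tame_const (lp (Real.sqrt v))).integrableOn_gker hv)
    refine this.abs.congr (Eventually.of_forall fun t => ?_)
    show |lp t * gker t v - lp (Real.sqrt v) * gker t v| = |(lp t - lp (Real.sqrt v)) * gker t v|
    rw [sub_mul]
  · rw [abs_mul, abs_of_nonneg (gker_nonneg t v)]
    exact mul_le_mul_of_nonneg_right (lp_lip ht hs) (gker_nonneg _ _)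

/-- bounded perturbations -/
lemma gaussAvg_close {f g : ℝ → ℝ} {C D E : ℝ} (hf : Tame f C) (hg : Tame g D)
    (h : ∀ t, 0 < t → |f t - g t| ≤ E) {v : ℝ} (hv : 0 < v) :
    |gaussAvg f v - gaussAvg g v| ≤ E := by
  have h1 : gaussAvg f v ≤ gaussAvg (fun t => g t + E) v := by
    refine gaussAvg_mono hf (hg.add (tame_const E)) (fun t ht => ?_) hv
    have := (abs_le.1 (h t ht)).2
    linarith
  have h2 : gaussAvg g v ≤ gaussAvg (fun t => f t + E) v := by
    refine gaussAvg_mono hg (hf.add (tame_const E)) (fun t ht => ?_) hv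
    have := (abs_le.1 (h t ht)).1
    linarith
  rw [gaussAvg_add hg (tame_const E) hv, gaussAvg_const E hv] at h1
  rw [gaussAvg_add hf (tame_const E) hv, gaussAvg_const E hv] at h2
  rw [abs_le]
  constructor <;> linarith

end

end Pool.Agent.W334.BSD
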