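import Pool.Agent.W334.BSD.Curve

/-!
# The equivalences for a continuation of the L-series
-/

set_option autoImplicit false
open MeasureTheory Set Filter Topology

namespace Pool.Agent.W334.BSD

noncomputable section

/-- if `A` and `-B` differ by a bounded amount then so do their averages -/
lemma iter_neg_close {A B : ℝ → ℝ} {C D E : ℝ} (hA : Tame A C) (hB : Tame B D)
    (h : ∀ t, 0 < t → |A t + B t| ≤ E) (k : ℕ) {v : ℝ} (hv : 0 < v) :
    |gaussAvg^[k] A v + gaussAvg^[k] B v| ≤ E := by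
  have h1 := iter_close hA (hB.const_mul (-1)) (E := E) (fun t ht => by
    have := h t ht
    rwa [neg_one_mul, sub_neg_eq_add]) k hv
  rwa [iter_const_mul B (-1) k hv, neg_one_mul, sub_neg_eq_add] at h1

lemma log_unbounded {a b : ℝ} (h : ∀ v : ℝ, 1 ≤ v → a * Real.log v ≤ b) : a ≤ 0 := by
  by_contra hcon
  push Not at hcon
  have h1 := h (Real.exp ((|b| + 1) / a)) (Real.one_le_exp (by positivity))
  rw [Real.log_exp, mul_div_cancel₀ _ hcon.ne'] at h1
  have := le_abs_self b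
  linarith

/-- order of vanishing is finite -/
lemma order_finite {F : ℂ → ℂ} (hF : Differentiable ℂ F) (z : ℂ) {w : ℂ} (hw : F w ≠ 0) :
    ∃ r : ℕ, analyticOrderAt F z = r := by
  have hA : ∀ x, AnalyticAt ℂ F x := fun x => hF.analyticAt x
  have : analyticOrderAt F z ≠ ⊤ := by
    intro h
    rw [analyticOrderAt_eq_top] at h
    have h1 : AnalyticOnNhd ℂ F univ := fun x _ => hA x
    have h2 := h1.eqOn_zero_of_preconnected_of_eventuallyEq_zero isPreconnected_univ (mem_univ z) h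
    exact hw (h2 (mem_univ w))
  obtain ⟨r, hr⟩ := ENat.ne_top_iff_exists.1 this
  exact ⟨r, hr.symm⟩

lemma order_shift {F : ℂ → ℂ} (hF : Differentiable ℂ F) :
    analyticOrderAt (fun q => F (1 + q)) 0 = analyticOrderAt F 1 := by
  have hA : AnalyticAt ℂ F 1 := hF.analyticAt 1
  have hF' : Differentiable ℂ (fun q : ℂ => F (1 + q)) := hF.comp (by fun_prop)
  have key : ∀ (G : ℂ → ℂ) (c d : ℂ), AnalyticAt ℂ G d → ∀ n : ℕ, analyticOrderAt G d = n →
      analyticOrderAt (fun q => G (c + q)) (d - c) = n := by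
    intro G c d hG n hn
    have h1 : AnalyticAt ℂ (fun q => G (c + q)) (d - c) := by
      have h2 : AnalyticAt ℂ G (c + (d - c)) := by rwa [add_sub_cancel]
      exact AnalyticAt.comp (f := fun q : ℂ => c + q) h2 (analyticAt_const.add analyticAt_id)
    obtain ⟨g, hg1, hg2, hg3⟩ := (hG.analyticOrderAt_eq_natCast).1 hn
    rw [h1.analyticOrderAt_eq_natCast]
    refine ⟨fun q => g (c + q), ?_, ?_, ?_⟩
    · have h2 : AnalyticAt ℂ g (c + (d - c)) := by rwa [add_sub_cancel]
      exact AnalyticAt.comp (f := fun q : ℂ => c + q) h2 (analyticAt_const.add analyticAt_id)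
    · simpa using hg2
    · have h3 : Tendsto (fun q : ℂ => c + q) (𝓝 (d - c)) (𝓝 d) := by
        have : Continuous (fun q : ℂ => c + q) := by fun_prop
        simpa using this.tendsto (d - c)
      filter_upwards [h3.eventually hg3] with q hq
      rw [hq]
      congr 2
      ring
  by_cases h : analyticOrderAt F 1 = ⊤
  · rw [h]
    rw [analyticOrderAt_eq_top] at h ⊢
    have h3 : Tendsto (fun q : ℂ => 1 + q) (𝓝 0) (𝓝 1) := by
      have : Continuous (fun q : ℂ => 1 + q) := by fun_prop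
      simpa using this.tendsto 0
    exact h3.eventually h
  · obtain ⟨r, hr⟩ := ENat.ne_top_iff_exists.1 h
    have := key F 1 1 hA r hr.symm
    rw [sub_self] at this
    rw [this, hr]

/-- the tangent of the opening angle tends to zero -/
lemma tan_small {δ : ℝ} (hδ : 0 < δ) : ∃ k0 : ℕ, 1 ≤ k0 ∧ ∀ k, k0 ≤ k →
    Real.tan (Real.pi / 2 ^ (k + 1)) < δ := by
  have h1 : Tendsto (fun k : ℕ => Real.pi / 2 ^ (k + 1)) atTop (𝓝 0) := by
    have h2 : Tendsto (fun k : ℕ => (1 / 2 : ℝ) ^ (k + 1)) atTop (𝓝 0) :=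
      (tendsto_pow_atTop_nhds_zero_of_lt_one (by norm_num) (by norm_num)).comp (tendsto_add_atTop_nat 1)
    have h3 := h2.const_mul Real.pi
    rw [mul_zero] at h3
    refine h3.congr fun k => ?_
    rw [one_div, inv_pow, div_eq_mul_inv]
  have h2 : ContinuousAt Real.tan 0 := Real.continuousAt_tan.2 (by rw [Real.cos_zero]; exact one_ne_zero)
  have h3 : Tendsto (fun k : ℕ => Real.tan (Real.pi / 2 ^ (k + 1))) atTop (𝓝 0) := by
    have := h2.tendsto.comp h1
    rwa [Real.tan_zero] at this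
  obtain ⟨k0, hk0⟩ := eventually_atTop.1 (h3.eventually (gt_mem_nhds hδ))
  exact ⟨max 1 k0, le_max_left _ _, fun k hk => hk0 k ((le_max_right _ _).trans hk)⟩

/-- a function without real zeros on the right of the vertex has no zeros in a narrow sector -/
lemma narrow {F : ℂ → ℂ} (hF : Differentiable ℂ F) (h2 : ∀ s : ℂ, 1 < s.re → F s ≠ 0)
    (hr : ∀ x : ℝ, 0 < x → F x ≠ 0) :
    ∃ k0 : ℕ, 1 ≤ k0 ∧ ∀ k, k0 ≤ k → ∀ s ∈ Sec k, F s ≠ 0 := by
  have h20 : F 2 ≠ 0 := h2 2 (by norm_num)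
  have hA : AnalyticAt ℂ F 0 := hF.analyticAt 0
  have hne : ∀ᶠ s in 𝓝[≠] (0:ℂ), F s ≠ 0 := by
    rcases hA.eventually_eq_zero_or_eventually_ne_zero with h | h
    · exfalso
      have h1 : AnalyticOnNhd ℂ F univ := fun x _ => hF.analyticAt x
      have h3 := h1.eqOn_zero_of_preconnected_of_eventuallyEq_zero isPreconnected_univ (mem_univ 0) h
      exact h20 (h3 (mem_univ 2))
    · exact h
  set U : Set ℂ := {s | F s ≠ 0} ∪ {0} with hU
  have hUo : IsOpen U := by
    rw [isOpen_iff_mem_nhds]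
    rintro s (hs | hs)
    · exact mem_of_superset ((isOpen_ne_fun hF.continuous continuous_const).mem_nhds hs) subset_union_left
    · rw [mem_singleton_iff] at hs
      subst hs
      rw [eventually_nhdsWithin_iff] at hne
      filter_upwards [hne] with s hs
      by_cases h : s = 0
      · exact Or.inr h
      · exact Or.inl (hs h)
  set K : Set ℂ := (fun x : ℝ => (x : ℂ)) '' Icc (0:ℝ) 1 with hK
  have hKc : IsCompact K := isCompact_Icc.image Complex.continuous_ofReal
  have hKU : K ⊆ U := by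
    rintro _ ⟨x, hx, rfl⟩
    rcases eq_or_lt_of_le hx.1 with h | h
    · right
      rw [← h]
      simp
    · exact Or.inl (hr x h)
  obtain ⟨δ, hδ, hsub⟩ := hKc.exists_thickening_subset_open hUo hKU
  obtain ⟨k0, hk1, hk2⟩ := tan_small hδ
  refine ⟨k0, hk1, fun k hk s hs => ?_⟩
  rcases lt_or_ge 1 s.re with h | h
  · exact h2 s h
  · have hs0 : 0 < s.re := hs.1
    have h3 : s ∈ Metric.thickening δ K := by
      rw [Metric.mem_thickening_iff]
      refine ⟨(s.re : ℂ), ⟨s.re, ⟨hs0.le, h⟩, rfl⟩, ?_⟩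
      have h4 : s - (s.re : ℂ) = (s.im : ℂ) * Complex.I := by
        apply Complex.ext <;> simp
      rw [dist_eq_norm, h4, norm_mul, Complex.norm_I, mul_one, Complex.norm_real, Real.norm_eq_abs]
      have h5 := hs.2
      have h6 := hk2 k hk
      have h7 := tan_pos' k (hk1.trans hk)
      nlinarith
    rcases hsub h3 with h4 | h4
    · exact h4
    · rw [mem_singleton_iff] at h4
      rw [h4] at hs0
      simp at hs0

/-- the packaged equivalences: `A` is within a bounded distance of `-B` -/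
theorem upper_iff {A B : ℝ → ℝ} {C D E : ℝ} (hA : Tame A C) (hB : Tame B D)
    (hAB : ∀ t, 0 < t → |A t + B t| ≤ E) {F : ℂ → ℂ} (hF : Differentiable ℂ F)
    (hFB : ∀ s : ℂ, 1 < s.re → F s = Complex.exp (s * LT B s)) {k : ℕ} (hk : 1 ≤ k) (c : ℝ) :
    (∃ M : ℝ, ∀ v : ℝ, 1 ≤ v → gaussAvg^[k] A v ≤ c * Real.log v + M) ↔
      ((∀ s ∈ Sec k, F s ≠ 0) ∧ ∃ r : ℕ, analyticOrderAt F 0 = r ∧ (r : ℝ) ≤ 2 ^ k * c) := by
  have h2 : F 2 ≠ 0 := by rw [hFB 2 (by norm_num)]; exact Complex.exp_ne_zero _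
  have hkp : (0:ℝ) < 2 ^ k := by positivity
  constructor
  · rintro ⟨M, hM⟩
    have h0 := converse hk hB (F := F) (fun z _ => hF.analyticAt z) hFB (c := c) (D := M + E)
      (fun v hv => by
        have h1 := hM v hv
        have h3 := (abs_le.1 (iter_neg_close hA hB hAB k (by linarith : 0 < v))).1
        linarith)
    obtain ⟨r, hr⟩ := order_finite hF 0 h2
    obtain ⟨C', hC'⟩ := direct hk hB (F := F) (fun z _ => hF.analyticAt z) hFB h0 hr
    refine ⟨h0, r, hr, ?_⟩
    have h3 := log_unbounded (a := (r:ℝ) / 2 ^ k - c) (b := C' + M + E) (fun v hv => by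
        have h1 := hM v hv
        have h4 := (abs_le.1 (iter_neg_close hA hB hAB k (by linarith : 0 < v))).1
        have h5 := (abs_le.1 (hC' v hv)).2
        linarith)
    have h4 : (r:ℝ) / 2 ^ k ≤ c := by linarith
    rwa [div_le_iff₀ hkp, mul_comm] at h4
  · rintro ⟨h0, r, hr, hrc⟩
    obtain ⟨C', hC'⟩ := direct hk hB (F := F) (fun z _ => hF.analyticAt z) hFB h0 hr
    refine ⟨C' + E, fun v hv => ?_⟩
    have h4 := (abs_le.1 (iter_neg_close hA hB hAB k (by linarith : 0 < v))).2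
    have h5 := (abs_le.1 (hC' v hv)).1
    have h6 : (r:ℝ) / 2 ^ k ≤ c := by rwa [div_le_iff₀ hkp, mul_comm]
    have h7 := mul_le_mul_of_nonneg_right h6 (Real.log_nonneg hv)
    linarith

theorem eq_iff {A B : ℝ → ℝ} {C D E : ℝ} (hA : Tame A C) (hB : Tame B D)
    (hAB : ∀ t, 0 < t → |A t + B t| ≤ E) {F : ℂ → ℂ} (hF : Differentiable ℂ F)
    (hFB : ∀ s : ℂ, 1 < s.re → F s = Complex.exp (s * LT B s)) {k : ℕ} (hk : 1 ≤ k) (c : ℝ) :
    (∃ M : ℝ, ∀ v : ℝ, 1 ≤ v → |gaussAvg^[k] A v - c * Real.log v| ≤ M) ↔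
      ((∀ s ∈ Sec k, F s ≠ 0) ∧ ∃ r : ℕ, analyticOrderAt F 0 = r ∧ (r : ℝ) = 2 ^ k * c) := by
  have hkp : (0:ℝ) < 2 ^ k := by positivity
  constructor
  · rintro ⟨M, hM⟩
    obtain ⟨h0, r, hr, hrc⟩ := (upper_iff hA hB hAB hF hFB hk c).1
      ⟨M, fun v hv => by have := (abs_le.1 (hM v hv)).2; linarith⟩
    refine ⟨h0, r, hr, le_antisymm hrc ?_⟩
    obtain ⟨C', hC'⟩ := direct hk hB (F := F) (fun z _ => hF.analyticAt z) hFB h0 hr
    have h3 := log_unbounded (a := c - (r:ℝ) / 2 ^ k) (b := C' + M + E) (fun v hv => by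
        have h1 := (abs_le.1 (hM v hv)).1
        have h4 := (abs_le.1 (iter_neg_close hA hB hAB k (by linarith : 0 < v))).2
        have h5 := (abs_le.1 (hC' v hv)).1
        linarith)
    have h4 : c ≤ (r:ℝ) / 2 ^ k := by linarith
    rwa [le_div_iff₀ hkp, mul_comm] at h4
  · rintro ⟨h0, r, hr, hrc⟩
    obtain ⟨C', hC'⟩ := direct hk hB (F := F) (fun z _ => hF.analyticAt z) hFB h0 hr
    refine ⟨C' + E, fun v hv => ?_⟩
    have h4 := iter_neg_close hA hB hAB k (by linarith : 0 < v)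
    have h5 := hC' v hv
    have h6 : (r:ℝ) / 2 ^ k = c := by rw [hrc]; field_simp
    rw [h6] at h5
    rw [abs_le] at h4 h5 ⊢
    constructor <;> linarith [h4.1, h4.2, h5.1, h5.2]

end

end Pool.Agent.W334.BSD
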