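import Pool.Agent.W334.BSD.Ext
import Pool.Agent.H921R2.TatePole.Base

/-!
# Elliptic curves over number fields
-/

set_option autoImplicit false
open MeasureTheory Set Filter Topology NumberField IsDedekindDomain
open Pool.Agent.H921R2.TatePole (nm two_le_nm nm_summable below deg nm_eq card_above)

namespace Pool.Agent.W334.BSD.NF

noncomputable section

variable {K : Type} [Field K] [NumberField K]

/-- the number of affine points over the residue field -/
def npt (a b : 𝓞 K) (v : HeightOneSpectrum (𝓞 K)) : ℕ :=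
  Nat.card {q : (𝓞 K ⧸ v.asIdeal) × (𝓞 K ⧸ v.asIdeal) //
    q.2 ^ 2 = q.1 ^ 3 + Ideal.Quotient.mk v.asIdeal a * q.1 + Ideal.Quotient.mk v.asIdeal b}

/-- good primes -/
def Gd (a b : 𝓞 K) (v : HeightOneSpectrum (𝓞 K)) : Prop := 2 * (4 * a ^ 3 + 27 * b ^ 2) ∉ v.asIdeal

theorem hasse_v (a b : 𝓞 K) {v : HeightOneSpectrum (𝓞 K)} (h : Gd a b v) :
    |(nm v : ℝ) - npt a b v| ≤ 2 * Real.sqrt (nm v) := by
  classical
  have hmax : v.asIdeal.IsMaximal := v.isPrime.isMaximal v.ne_bot
  let _ : Field (𝓞 K ⧸ v.asIdeal) := Ideal.Quotient.field v.asIdeal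
  have hfin : Finite (𝓞 K ⧸ v.asIdeal) := Ring.HasFiniteQuotients.finiteQuotient v.ne_bot
  let _ : Fintype (𝓞 K ⧸ v.asIdeal) := Fintype.ofFinite _
  have hcard : Fintype.card (𝓞 K ⧸ v.asIdeal) = nm v := by
    rw [← Nat.card_eq_fintype_card]
    rfl
  have h2 : ringChar (𝓞 K ⧸ v.asIdeal) ≠ 2 := by
    intro hc
    apply h
    have h3 : ((2 : ℕ) : 𝓞 K ⧸ v.asIdeal) = 0 := by rw [← hc]; exact ringChar.Nat.cast_ringChar
    apply v.asIdeal.mul_mem_right
    rw [← Ideal.Quotient.eq_zero_iff_mem]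
    have h4 : Ideal.Quotient.mk v.asIdeal (2 : 𝓞 K) = ((2 : ℕ) : 𝓞 K ⧸ v.asIdeal) := by
      push_cast
      exact map_ofNat _ 2
    rw [h4, h3]
  have h1 := hasse_fin h2 (Ideal.Quotient.mk v.asIdeal a) (Ideal.Quotient.mk v.asIdeal b)
  rw [hcard] at h1
  exact h1

/-- index type -/
abbrev Idx (a b : 𝓞 K) := {v : HeightOneSpectrum (𝓞 K) // Gd a b v}

/-- norms -/
def nn (a b : 𝓞 K) (v : Idx a b) : ℕ := nm v.1

/-- normalised eigenvalues -/
def zz (a b : 𝓞 K) (v : Idx a b) : ℂ := mkZ ((nm v.1 : ℝ) - npt a b v.1) (nm v.1)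

theorem ep (a b : 𝓞 K) : EP (Idx a b) (nn a b) (zz a b) where
  two := fun v => two_le_nm v.1
  norm := fun v => mkZ_norm (by have := two_le_nm v.1; omega) (hasse_v a b v.2)
  summ := (nm_summable (K := K) (x := 3 / 2) (by norm_num)).comp_injective Subtype.val_injective

instance (a b : 𝓞 K) : Countable (Idx a b) := by
  have h1 : Countable (HeightOneSpectrum (𝓞 K)) := by
    have h2 := (nm_summable (K := K) (x := 3 / 2) (by norm_num)).countable_support
    have h3 : Function.support (fun v : HeightOneSpectrum (𝓞 K) => (nm v : ℝ) ^ (-(3 / 2) : ℝ)) = univ := by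
      ext v
      simp only [Function.mem_support, mem_univ, iff_true]
      have : (0:ℝ) < nm v := by
        have := two_le_nm v
        exact_mod_cast (by omega : 0 < nm v)
      positivity
    rw [h3] at h2
    exact countable_univ_iff.1 h2
  infer_instance

/-- Mertens' bound for a short range of prime ideals -/
theorem mertens_range_K : ∃ C : ℝ, ∀ t : ℝ, 0 < t → ∀ s : Finset (HeightOneSpectrum (𝓞 K)),
    (∀ v ∈ s, Real.log (nm v) ≤ t ∧ t < 2 * Real.log (nm v)) → ∑ v ∈ s, 1 / (nm v : ℝ) ≤ C := by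
  classical
  obtain ⟨C, hC⟩ := mertens_range
  set d : ℕ := Module.finrank ℚ K with hd
  have hS : Summable fun n : ℕ => 1 / (n : ℝ) ^ 2 := Real.summable_one_div_nat_pow.2 (by norm_num)
  refine ⟨d * |C| + d * ∑' n : ℕ, 1 / (n : ℝ) ^ 2, fun t ht s hs => ?_⟩
  have hcard : ∀ (s' : Finset (HeightOneSpectrum (𝓞 K))) (p : Nat.Primes),
      (s'.filter fun v => below v = p).card ≤ d := fun s' p =>
    card_above p _ fun v hv => (Finset.mem_filter.1 hv).2
  rw [← Finset.sum_filter_add_sum_filter_not s (fun v => deg v = 1)]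
  set s1 := s.filter fun v => deg v = 1 with hs1
  set s2 := s.filter fun v => ¬ deg v = 1 with hs2
  have hp0 : ∀ p : Nat.Primes, (0:ℝ) < ((p : ℕ) : ℝ) := fun p => by exact_mod_cast p.2.pos
  let emb : Nat.Primes ↪ ℕ := ⟨fun p => (p : ℕ), fun a b hab => Subtype.ext hab⟩
  have e1 : ∑ v ∈ s1, 1 / (nm v : ℝ) ≤ d * |C| := by
    have h1 : ∑ v ∈ s1, 1 / (nm v : ℝ) = ∑ v ∈ s1, 1 / (((below v : Nat.Primes) : ℕ) : ℝ) := by
      refine Finset.sum_congr rfl fun v hv => ?_
      have h2 := (Finset.mem_filter.1 hv).2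
      have h3 := (nm_eq v).1
      rw [h2, pow_one] at h3
      rw [h3]
    have h2 : ∑ v ∈ s1, 1 / (((below v : Nat.Primes) : ℕ) : ℝ) ≤
        ∑ p ∈ s1.image below, (d : ℝ) * (1 / ((p : ℕ) : ℝ)) := by
      rw [← Finset.sum_fiberwise_of_maps_to (g := below) (t := s1.image below)
        (fun v hv => Finset.mem_image_of_mem _ hv)]
      refine Finset.sum_le_sum fun p hp => ?_
      have h3 : ∑ v ∈ s1.filter (fun v => below v = p), 1 / (((below v : Nat.Primes) : ℕ) : ℝ) =
          (s1.filter (fun v => below v = p)).card * (1 / ((p : ℕ) : ℝ)) := by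
        rw [Finset.sum_congr rfl (fun v hv => by rw [(Finset.mem_filter.1 hv).2]), Finset.sum_const,
          nsmul_eq_mul]
      rw [h3]
      have h4 : ((s1.filter (fun v => below v = p)).card : ℝ) ≤ d := by exact_mod_cast hcard s1 p
      exact mul_le_mul_of_nonneg_right h4 (by have := hp0 p; positivity)
    have h3 : ∑ p ∈ s1.image below, 1 / ((p : ℕ) : ℝ) ≤ C := by
      have h4 := hC t ht ((s1.image below).map emb) ?_
      · rw [Finset.sum_map] at h4
        exact h4
      · intro p hp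
        rw [Finset.mem_map] at hp
        obtain ⟨p', hp', rfl⟩ := hp
        rw [Finset.mem_image] at hp'
        obtain ⟨v, hv, rfl⟩ := hp'
        have h5 := hs v (Finset.mem_filter.1 hv).1
        have h6 := (nm_eq v).1
        rw [(Finset.mem_filter.1 hv).2, pow_one] at h6
        rw [h6] at h5
        exact ⟨(below v).2, h5⟩
    rw [h1]
    refine h2.trans ?_
    rw [← Finset.mul_sum]
    exact mul_le_mul_of_nonneg_left (h3.trans (le_abs_self C)) (Nat.cast_nonneg _)
  have e2 : ∑ v ∈ s2, 1 / (nm v : ℝ) ≤ d * ∑' n : ℕ, 1 / (n : ℝ) ^ 2 := by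
    have h1 : ∑ v ∈ s2, 1 / (nm v : ℝ) ≤ ∑ v ∈ s2, 1 / (((below v : Nat.Primes) : ℕ) : ℝ) ^ 2 := by
      refine Finset.sum_le_sum fun v hv => ?_
      have h2 := (Finset.mem_filter.1 hv).2
      obtain ⟨h3, h4, _⟩ := nm_eq v
      have h5 : 2 ≤ deg v := by omega
      have h6 : ((below v : Nat.Primes) : ℕ) ^ 2 ≤ nm v := by
        rw [h3]
        exact Nat.pow_le_pow_right (below v).2.pos h5
      have h7 := hp0 (below v)
      apply one_div_le_one_div_of_le (by positivity)
      exact_mod_cast h6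
    have h2 : ∑ v ∈ s2, 1 / (((below v : Nat.Primes) : ℕ) : ℝ) ^ 2 ≤
        ∑ p ∈ s2.image below, (d : ℝ) * (1 / ((p : ℕ) : ℝ) ^ 2) := by
      rw [← Finset.sum_fiberwise_of_maps_to (g := below) (t := s2.image below)
        (fun v hv => Finset.mem_image_of_mem _ hv)]
      refine Finset.sum_le_sum fun p hp => ?_
      have h3 : ∑ v ∈ s2.filter (fun v => below v = p), 1 / (((below v : Nat.Primes) : ℕ) : ℝ) ^ 2 =
          (s2.filter (fun v => below v = p)).card * (1 / ((p : ℕ) : ℝ) ^ 2) := by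
        rw [Finset.sum_congr rfl (fun v hv => by rw [(Finset.mem_filter.1 hv).2]), Finset.sum_const,
          nsmul_eq_mul]
      rw [h3]
      have h4 : ((s2.filter (fun v => below v = p)).card : ℝ) ≤ d := by exact_mod_cast hcard s2 p
      exact mul_le_mul_of_nonneg_right h4 (by have := hp0 p; positivity)
    refine h1.trans (h2.trans ?_)
    rw [← Finset.mul_sum]
    refine mul_le_mul_of_nonneg_left ?_ (Nat.cast_nonneg _)
    have h3 := Summable.sum_le_tsum ((s2.image below).map emb)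
      (fun n _ => by positivity) hS
    rw [Finset.sum_map] at h3
    exact h3
  linarith

/-- logarithm of the partial products -/
def lgP (a b : 𝓞 K) (t : ℝ) : ℝ :=
  open Classical in
  ∑' v : HeightOneSpectrum (𝓞 K), if Gd a b v ∧ (nm v : ℝ) ≤ Real.exp t then
    Real.log (((npt a b v : ℝ) + 1) / nm v) else 0

theorem cf_eq (a b : 𝓞 K) (v : Idx a b) : cf (nn a b) (zz a b) v =
    Real.log (((npt a b v.1 : ℝ) + 1) / nm v.1) := by
  have hp : (0:ℝ) < nm v.1 := by
    have := two_le_nm v.1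
    exact_mod_cast (by omega : 0 < nm v.1)
  unfold cf zz mkZ nn
  simp only
  congr 1
  field_simp
  ring

theorem DD_eq (a b : 𝓞 K) (t : ℝ) : DD (nn a b) (zz a b) t = lgP a b t := by
  classical
  unfold DD lgP
  have h1 : (fun v : HeightOneSpectrum (𝓞 K) => if Gd a b v ∧ (nm v : ℝ) ≤ Real.exp t then
      Real.log (((npt a b v : ℝ) + 1) / nm v) else 0) =
      Set.indicator {v | Gd a b v} (fun v => if (nm v : ℝ) ≤ Real.exp t then
        Real.log (((npt a b v : ℝ) + 1) / nm v) else 0) := by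
    funext v
    by_cases h : Gd a b v
    · rw [Set.indicator_of_mem (show v ∈ {v | Gd a b v} from h)]
      simp [h]
    · rw [Set.indicator_of_notMem (show v ∉ {v | Gd a b v} from h)]
      simp [h]
  rw [h1, ← tsum_subtype]
  refine tsum_congr fun v => ?_
  have hp : (0:ℝ) < nm v.1 := by
    have := two_le_nm v.1
    exact_mod_cast (by omega : 0 < nm v.1)
  have h2 := cf_eq a b v
  unfold nn at h2 ⊢
  rw [h2]
  congr 1
  rw [Real.log_le_iff_le_exp hp]

/-- the summatory function of the logarithm of the L-series -/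
def bK (a b : 𝓞 K) : ℝ → ℝ := BB (nn a b) (zz a b)

theorem tame_bK (a b : 𝓞 K) : ∃ C : ℝ, Tame (bK a b) C := ⟨_, (ep a b).tame⟩

theorem lgP_close (a b : 𝓞 K) : ∃ E : ℝ, ∀ t : ℝ, 0 < t → |lgP a b t + bK a b t| ≤ E := by
  obtain ⟨C, hC⟩ := mertens_range_K (K := K)
  refine ⟨C + 4 * ∑' i : Idx a b, ((nn a b i : ℕ) : ℝ) ^ (-(3 / 2) : ℝ), fun t ht => ?_⟩
  rw [← DD_eq]
  refine ((ep a b).compare (C := C) ?_ t ht).2
  intro t ht s hs
  have h1 := hC t ht (s.map ⟨Subtype.val, Subtype.val_injective⟩) ?_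
  · rw [Finset.sum_map] at h1
    exact h1
  · intro p hp
    rw [Finset.mem_map] at hp
    obtain ⟨i, hi, rfl⟩ := hp
    exact hs i hi

theorem summable_lgP (a b : 𝓞 K) (t : ℝ) :
    Summable fun i : Idx a b => if Real.log (nn a b i) ≤ t then cf (nn a b) (zz a b) i else 0 := by
  rcases lt_or_ge 0 t with ht | ht
  · obtain ⟨C, hC⟩ := mertens_range_K (K := K)
    refine ((ep a b).compare (C := C) ?_ t ht).1
    intro t ht s hs
    have h1 := hC t ht (s.map ⟨Subtype.val, Subtype.val_injective⟩) ?_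
    · rw [Finset.sum_map] at h1
      exact h1
    · intro p hp
      rw [Finset.mem_map] at hp
      obtain ⟨i, hi, rfl⟩ := hp
      exact hs i hi
  · refine summable_zero.congr fun i => ?_
    rw [if_neg]
    have := (ep a b).log_pos i
    linarith

theorem lgP_meas (a b : 𝓞 K) : Measurable (lgP a b) := by
  classical
  have h1 : (fun t : ℝ => DD (nn a b) (zz a b) t) = lgP a b := funext fun t => DD_eq a b t
  rw [← h1]
  refine measurable_of_tendsto_metrizable' (atTop : Filter (Finset (Idx a b)))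
    (f := fun s t => ∑ i ∈ s, if Real.log (nn a b i) ≤ t then cf (nn a b) (zz a b) i else 0)
    (fun s => ?_) ?_
  · refine Finset.measurable_sum _ fun x _ => ?_
    exact Measurable.ite measurableSet_Ici measurable_const measurable_const
  · rw [tendsto_pi_nhds]
    intro t
    exact (summable_lgP a b t).hasSum

theorem tame_lgP (a b : 𝓞 K) : ∃ C : ℝ, Tame (lgP a b) C := by
  obtain ⟨C, hC⟩ := tame_bK a b
  obtain ⟨E, hE⟩ := lgP_close a b
  refine ⟨C + |E|, lgP_meas a b, fun t ht => ?_⟩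
  have h1 := hE t ht
  have h2 := hC.bound t ht
  have h3 := Real.one_le_exp ht.le
  calc |lgP a b t| = |(lgP a b t + bK a b t) - bK a b t| := by rw [add_sub_cancel_right]
    _ ≤ |lgP a b t + bK a b t| + |bK a b t| := abs_sub _ _
    _ ≤ |E| * Real.exp t + C * Real.exp t := by
        refine add_le_add ?_ h2
        calc |lgP a b t + bK a b t| ≤ E := h1
          _ ≤ |E| := le_abs_self E
          _ ≤ |E| * Real.exp t := le_mul_of_one_le_right (abs_nonneg _) h3
    _ = _ := by ring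

/-- the Euler factor -/
def fac (a b : 𝓞 K) (s : ℂ) (v : HeightOneSpectrum (𝓞 K)) : ℂ :=
  open Classical in
  if Gd a b v then
    (1 - ((nm v : ℂ) - (npt a b v : ℂ)) * (nm v : ℂ) ^ (-s) + (nm v : ℂ) ^ (1 - 2 * s))⁻¹ else 1

/-- the L-series as an exponential -/
theorem Lseries (a b : 𝓞 K) {q : ℂ} (hq : 1 < q.re) :
    HasProd (fac a b (1 + q)) (Complex.exp (q * LT (bK a b) q)) := by
  classical
  have h1 := (ep a b).hasProd hq
  have h3 : (fun v : Idx a b => fac a b (1 + q) v.1) = fun v : Idx a b =>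
      (1 - 2 * ((zz a b v).re : ℂ) * Complex.exp (-(q * Real.log (nn a b v))) +
      Complex.exp (-(q * Real.log (nn a b v))) ^ 2 / (nn a b v))⁻¹ := by
    funext v
    have hp0 : ((nm v.1 : ℕ) : ℂ) ≠ 0 := by
      have := two_le_nm v.1
      exact_mod_cast (by omega : nm v.1 ≠ 0)
    unfold fac
    rw [if_pos v.2]
    congr 1
    have e1 : ((nm v.1 : ℕ) : ℂ) ^ (-q) = Complex.exp (-(q * Real.log (nm v.1))) := by
      rw [Complex.cpow_def_of_ne_zero hp0, ← Complex.natCast_log]
      congr 1; ring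
    have e2 : ((nm v.1 : ℕ) : ℂ) ^ (-(1 + q)) = ((nm v.1 : ℕ) : ℂ) ^ (-q) / (nm v.1 : ℕ) := by
      rw [show -(1 + q) = -q + -1 by ring, Complex.cpow_add _ _ hp0, Complex.cpow_neg_one]
      rfl
    have e3 : ((nm v.1 : ℕ) : ℂ) ^ (1 - 2 * (1 + q)) = (((nm v.1 : ℕ) : ℂ) ^ (-q)) ^ 2 / (nm v.1 : ℕ) := by
      rw [show 1 - 2 * (1 + q) = (-q) * (2 : ℕ) + -1 by push_cast; ring, Complex.cpow_add _ _ hp0,
        Complex.cpow_neg_one, Complex.cpow_mul_nat]
      rfl
    rw [e2, e3, e1]
    unfold zz mkZ nn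
    simp only
    push_cast
    field_simp
  have h4 : HasProd (fun v : Idx a b => fac a b (1 + q) v.1) (Complex.exp (q * LT (bK a b) q)) := by
    rw [h3]
    exact h1
  refine (Function.Injective.hasProd_iff (g := (Subtype.val : Idx a b → HeightOneSpectrum (𝓞 K)))
    Subtype.val_injective (fun x hx => ?_)).1 h4
  unfold fac
  rw [if_neg]
  intro hg
  exact hx ⟨⟨x, hg⟩, rfl⟩

end

end Pool.Agent.W334.BSD.NF
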